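import Mathlib
import Pool.Agent.LibFG78.Defs
import Pool.Agent.LibTG78.B04

/-! # Basic facts on the normalisation of the fourth power -/

set_option autoImplicit false

namespace Pool.Agent.LibFG78

open MeasureTheory Filter Topology Pool.Agent.LibMM99 Pool.Agent.LibTG78
open scoped ComplexConjugate

theorem dcoef_two (a : ℕ) : LibZM.dcoef 2 a = a + 1 := by
  induction a with
  | zero => simp
  | succ a ih =>
    have h := LibZM.dcoef_succ 2 a
    rw [ih] at h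
    have h0 : ((a : ℝ) + 1) ≠ 0 := by positivity
    have h1 : (LibZM.dcoef 2 (a + 1) - (a + 2)) * ((a : ℝ) + 1) = 0 := by
      rw [sub_mul, h]; ring
    rcases mul_eq_zero.mp h1 with h2 | h2
    · push_cast
      linarith
    · exact absurd h2 h0

theorem Gsum_two {x : ℝ} (h0 : 0 ≤ x) (h1 : x < 1) : LibZM.Gsum 2 x = (1 + x) / (1 - x) ^ 3 := by
  have hx : ‖x‖ < 1 := by rwa [Real.norm_of_nonneg h0]
  have e1 := hasSum_choose_mul_geometric_of_norm_lt_one 2 hx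
  have e2 := hasSum_choose_mul_geometric_of_norm_lt_one 1 hx
  have e3 := (e1.mul_left 2).sub e2
  have h2 : (1 - x) ≠ 0 := by linarith
  unfold LibZM.Gsum
  have e4 : HasSum (fun a : ℕ => LibZM.dcoef 2 a ^ 2 * x ^ a) (2 * (1 / (1 - x) ^ (2 + 1)) - 1 / (1 - x) ^ (1 + 1)) := by
    have e5 : (fun a : ℕ => LibZM.dcoef 2 a ^ 2 * x ^ a) = fun b : ℕ => 2 * (((b + 2).choose 2 : ℝ) * x ^ b) - ((b + 1).choose 1 : ℝ) * x ^ b := by
      funext a
      rw [dcoef_two]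
      have h3 : ((a + 2).choose 2 : ℝ) = (a + 2) * (a + 1) / 2 := by
        rw [Nat.cast_choose_two]
        push_cast
        ring
      have h4 : ((a + 1).choose 1 : ℝ) = a + 1 := by
        rw [Nat.choose_one_right]; push_cast; ring
      rw [h3, h4]
      ring
    rw [e5]
    exact e3
  rw [e4.tsum_eq]
  field_simp
  ring

theorem Gsum_two_pos {x : ℝ} (h0 : 0 ≤ x) (h1 : x < 1) : 1 ≤ LibZM.Gsum 2 x := by
  have := LibZM.Gsum_ge (κ := 2) (by norm_num) h0 h1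
  nlinarith

theorem sq_lt_one {s : ℂ} {L : ℝ} (h : Adm s L) {u v : ℝ} (hv : v ≤ Real.exp L) {p : ℕ} (hp : p ∈ prm u v) :
    ‖zp s p‖ ^ 2 < 1 := by
  obtain ⟨h1, h2⟩ := B01_mem hv hp
  have := norm_zp_sq_le h h1 h2
  linarith

theorem nz_mul (s : ℂ) {u v w : ℝ} (huv : u ≤ v) (hvw : v ≤ w) : nz4 s u v * nz4 s v w = nz4 s u w :=
  B01_prod_mul _ huv hvw

theorem nz_pos {s : ℂ} {L : ℝ} (h : Adm s L) {u v : ℝ} (hv : v ≤ Real.exp L) : 0 < nz4 s u v := by
  unfold nz4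
  refine Finset.prod_pos fun p hp => inv_pos.mpr ?_
  have := Gsum_two_pos (sq_nonneg ‖zp s p‖) (sq_lt_one h hv hp)
  linarith

theorem nz_le_one {s : ℂ} {L : ℝ} (h : Adm s L) {u v : ℝ} (hv : v ≤ Real.exp L) : nz4 s u v ≤ 1 := by
  unfold nz4
  refine Finset.prod_le_one (fun p hp => ?_) fun p hp => ?_
  · have := Gsum_two_pos (sq_nonneg ‖zp s p‖) (sq_lt_one h hv hp)
    positivity
  · exact inv_le_one_of_one_le₀ (Gsum_two_pos (sq_nonneg ‖zp s p‖) (sq_lt_one h hv hp))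

theorem nz_zero_eq (u v : ℝ) : nz4 0 u v = (PS 4 u v)⁻¹ := by
  unfold nz4 PS
  rw [← Finset.prod_inv_distrib]
  refine Finset.prod_congr rfl fun p hp => ?_
  rw [mem_prm] at hp
  rw [norm_zp_sq 0 hp.1.one_lt.le]
  norm_num

/-- the normalisation of the fourth power is the fourth power of that of the square up to a constant -/
theorem nz4_eq {s : ℂ} {L : ℝ} (h : Adm s L) {u v : ℝ} (hv : v ≤ Real.exp L) :
    nz4 s u v = nz s u v ^ 4 * ∏ p ∈ prm u v, (1 - (‖zp s p‖ ^ 2) ^ 2)⁻¹ := by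
  unfold nz4 nz
  rw [← Finset.prod_pow, ← Finset.prod_mul_distrib]
  refine Finset.prod_congr rfl fun p hp => ?_
  have h1 := sq_lt_one h hv hp
  rw [Gsum_two (sq_nonneg _) h1]
  have h2 : (0 : ℝ) ≤ ‖zp s p‖ ^ 2 := sq_nonneg _
  generalize ‖zp s p‖ ^ 2 = y at h1 h2 ⊢
  have h3 : (1 - y) ≠ 0 := by linarith
  have h4 : (1 + y) ≠ 0 := by linarith
  have h5 : (1 - y ^ 2) = (1 - y) * (1 + y) := by ring
  rw [h5]
  field_simp

end Pool.Agent.LibFG78
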