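import Mathlib
import Pool.Agent.LibFG78.Defs
import Pool.Agent.LibFG78.B05

set_option autoImplicit false

namespace Pool.Agent.LibFG78

open MeasureTheory Filter Topology Pool.Agent.LibMM99 Pool.Agent.LibTG78
open scoped ComplexConjugate


/-- the density at one prime -/
noncomputable def B06_w (s : ℂ) (p : ℕ) (x : Om) : ℝ :=
  (LibZM.Gsum 2 (‖zp s p‖ ^ 2))⁻¹ * ‖(1 - zp s p * ch x p)⁻¹‖ ^ 4

/-- the density at a finite set of primes -/
noncomputable def B06_ρ (s : ℂ) (A : Finset ℕ) (x : Om) : ℝ := ∏ p ∈ A, B06_w s p x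

theorem B06_cont_w {s : ℂ} {p : ℕ} (hz : ‖zp s p‖ < 1) : Continuous (B06_w s p) := by
  unfold B06_w
  refine continuous_const.mul ((Continuous.inv₀ ?_ fun x => ?_).norm.pow 4)
  · exact continuous_const.sub (continuous_const.mul (continuous_ch p))
  · intro h
    have h1 : zp s p * ch x p = 1 := by linear_combination -h
    have h2 : ‖zp s p * ch x p‖ = ‖zp s p‖ := by rw [norm_mul, norm_ch, mul_one]
    rw [h1, norm_one] at h2
    linarith

theorem B06_dep_w (s : ℂ) {p : ℕ} (hp : p.Prime) : DependsOn (B06_w s p) ({p} : Set ℕ) := by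
  intro x y h
  unfold B06_w
  have h1 : ch x p = ch y p := by
    refine dependsOn_ch p ?_
    intro i hi
    rw [hp.primeFactors, Finset.coe_singleton] at hi
    exact h i hi
  rw [h1]

theorem B06_int_w {s : ℂ} {p : ℕ} (hp : p.Prime) (hz : ‖zp s p‖ < 1) :
    ∫ x, B06_w s p x ∂mu = 1 := by
  have h1 := moment_factor 2 hz hp
  norm_num at h1
  unfold B06_w
  have h3 : ‖zp s p‖ ^ 2 < 1 := by
    have := norm_nonneg (zp s p)
    nlinarith
  have h4 := Gsum_two_pos (sq_nonneg ‖zp s p‖) h3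
  rw [integral_const_mul]
  simp only [norm_inv, inv_pow] at h1 ⊢
  rw [h1]
  exact inv_mul_cancel₀ (by linarith)

/-- good sets of primes -/
def B06_Good (s : ℂ) (A : Finset ℕ) : Prop := ∀ p ∈ A, p.Prime ∧ ‖zp s p‖ < 1

theorem B06_cont_ρ {s : ℂ} {A : Finset ℕ} (hA : B06_Good s A) : Continuous (B06_ρ s A) :=
  continuous_finsetProd _ fun p hp => B06_cont_w (hA p hp).2

theorem B06_dep_ρ {s : ℂ} {A : Finset ℕ} (hA : B06_Good s A) :
    DependsOn (B06_ρ s A) (A : Set ℕ) := by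
  intro x y h
  unfold B06_ρ
  refine Finset.prod_congr rfl fun p hp => ?_
  refine B06_dep_w s (hA p hp).1 ?_
  intro i hi
  rw [Set.mem_singleton_iff] at hi
  rw [hi]
  exact h p (Finset.mem_coe.2 hp)

theorem B06_int_ρ {s : ℂ} {A : Finset ℕ} (hA : B06_Good s A) : ∫ x, B06_ρ s A x ∂mu = 1 := by
  classical
  induction A using Finset.induction_on with
  | empty => simp [B06_ρ]
  | insert p A hp ih =>
    have hA' : B06_Good s A := fun q hq => hA q (Finset.mem_insert_of_mem hq)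
    have hpp := hA p (Finset.mem_insert_self p A)
    have h1 : ∀ x, B06_ρ s (insert p A) x = B06_w s p x * B06_ρ s A x := by
      intro x
      unfold B06_ρ
      rw [Finset.prod_insert hp]
    simp only [h1]
    rw [integral_mul_indep (B06_cont_w hpp.2) (B06_cont_ρ hA') (B06_dep_w s hpp.1)
      (B06_dep_ρ hA') (by
        rw [Set.disjoint_singleton_left]
        exact fun h => hp (Finset.mem_coe.1 h)), B06_int_w hpp.1 hpp.2, ih hA', mul_one]

theorem B06_density (s : ℂ) (u v : ℝ) (x : Om) :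
    nz4 s u v * ‖ZZ s u v x‖ ^ 4 = B06_ρ s (prm u v) x := by
  unfold nz4 ZZ B06_ρ B06_w
  rw [norm_prod, ← Finset.prod_pow, ← Finset.prod_mul_distrib]

theorem B06_good {s : ℂ} {L : ℝ} (h : Adm s L) : B06_Good s (prm 1 (Real.exp L)) := by
  intro p hp
  rw [mem_prm] at hp
  exact ⟨hp.1, norm_zp_lt h hp.1.two_le hp.2.2⟩

open Classical in
/-- the primes up to `e ^ L` in `U` -/
noncomputable def B06_P (L : ℝ) (U : Set ℕ) : Finset ℕ :=
  (prm 1 (Real.exp L)).filter (fun p => p ∈ U)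

theorem B06_mem {L : ℝ} {U : Set ℕ} {p : ℕ} :
    p ∈ B06_P L U ↔ p ∈ prm 1 (Real.exp L) ∧ p ∈ U := by
  classical
  simp only [B06_P, Finset.mem_filter]

theorem B06_goodP {s : ℂ} {L : ℝ} (h : Adm s L) (U : Set ℕ) : B06_Good s (B06_P L U) :=
  fun p hp => B06_good h p (B06_mem.1 hp).1

theorem B06_depP {s : ℂ} {L : ℝ} (h : Adm s L) (U : Set ℕ) :
    DependsOn (B06_ρ s (B06_P L U)) U := by
  intro x y hxy
  refine B06_dep_ρ (B06_goodP h U) ?_
  intro i hi
  exact hxy i (B06_mem.1 (Finset.mem_coe.1 hi)).2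

theorem B06_split (s : ℂ) (L : ℝ) (S T : Set ℕ) (hST : Disjoint S T) (x : Om) :
    B06_ρ s (B06_P L (S ∪ T)) x = B06_ρ s (B06_P L S) x * B06_ρ s (B06_P L T) x := by
  unfold B06_ρ
  rw [← Finset.prod_union]
  · congr 1
    ext p
    rw [B06_mem, Finset.mem_union, B06_mem, B06_mem, Set.mem_union]
    tauto
  · rw [Finset.disjoint_left]
    intro p hp hp'
    exact Set.disjoint_left.1 hST (B06_mem.1 hp).2 (B06_mem.1 hp').2

/-- mean values of functions of the coordinates in `U` -/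
theorem B06_loc {s : ℂ} {L : ℝ} (h : Adm s L) {f : Om → ℝ} (hf : Continuous f) {U : Set ℕ}
    (hU : DependsOn f U) :
    ∫ x, f x ∂(nu4 s L) = ∫ x, B06_ρ s (B06_P L U) x * f x ∂mu := by
  rw [integral_nu h hf, ← integral_const_mul]
  have h0 : B06_P L (U ∪ Uᶜ) = prm 1 (Real.exp L) := by
    ext p
    rw [B06_mem, Set.union_compl_self]
    simp
  have h1 : ∀ x, nz4 s 1 (Real.exp L) * (‖ZZ s 1 (Real.exp L) x‖ ^ 4 * f x)
      = (B06_ρ s (B06_P L U) x * f x) * B06_ρ s (B06_P L Uᶜ) x := by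
    intro x
    rw [← mul_assoc, B06_density, ← h0, B06_split s L U Uᶜ disjoint_compl_right]
    ring
  have h2 : ∫ x, nz4 s 1 (Real.exp L) * (‖ZZ s 1 (Real.exp L) x‖ ^ 4 * f x) ∂mu
      = ∫ x, (fun x => B06_ρ s (B06_P L U) x * f x) x * B06_ρ s (B06_P L Uᶜ) x ∂mu :=
    integral_congr_ae (Filter.Eventually.of_forall h1)
  rw [h2, integral_mul_indep (f := fun x => B06_ρ s (B06_P L U) x * f x) (S := U) (T := Uᶜ)
    ((B06_cont_ρ (B06_goodP h U)).mul hf) (B06_cont_ρ (B06_goodP h Uᶜ)) ?_ (B06_depP h Uᶜ)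
    disjoint_compl_right, B06_int_ρ (B06_goodP h Uᶜ), mul_one]
  intro x y hxy
  dsimp only
  rw [B06_depP h U hxy, hU hxy]

theorem isProd_nu {s : ℂ} {L : ℝ} (h : Adm s L) : IsProd (nu4 s L) := by
  refine ⟨isProbabilityMeasure_nu h, ?_⟩
  intro f g S T hf hg hS hT hST
  have hfg : DependsOn (fun x => f x * g x) (S ∪ T) := by
    intro x y hxy
    have e1 : f x = f y := hS fun i hi => hxy i (Or.inl hi)
    have e2 : g x = g y := hT fun i hi => hxy i (Or.inr hi)
    change f x * g x = f y * g y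
    rw [e1, e2]
  rw [B06_loc h (f := fun x => f x * g x) (hf.mul hg) hfg, B06_loc h hf hS, B06_loc h hg hT]
  have h1 : ∀ x, B06_ρ s (B06_P L (S ∪ T)) x * (f x * g x)
      = (B06_ρ s (B06_P L S) x * f x) * (B06_ρ s (B06_P L T) x * g x) := by
    intro x
    rw [B06_split s L S T hST]
    ring
  have h2 : ∫ x, B06_ρ s (B06_P L (S ∪ T)) x * (f x * g x) ∂mu
      = ∫ x, (fun x => B06_ρ s (B06_P L S) x * f x) x *
        (fun x => B06_ρ s (B06_P L T) x * g x) x ∂mu :=
    integral_congr_ae (Filter.Eventually.of_forall h1)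
  rw [h2]
  refine integral_mul_indep
    (f := fun x => B06_ρ s (B06_P L S) x * f x) (g := fun x => B06_ρ s (B06_P L T) x * g x)
    (S := S) (T := T) ((B06_cont_ρ (B06_goodP h S)).mul hf)
    ((B06_cont_ρ (B06_goodP h T)).mul hg) ?_ ?_ hST
  · intro x y hxy
    dsimp only
    rw [B06_depP h S hxy, hS hxy]
  · intro x y hxy
    dsimp only
    rw [B06_depP h T hxy, hT hxy]

end Pool.Agent.LibFG78
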