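import Mathlib
import Pool.Agent.LibTG78.A0
import Pool.Agent.LibFG78.B03
import Pool.Agent.LibMM99.T12

set_option autoImplicit false

namespace Pool.Agent.LibFG78

open MeasureTheory Filter Topology Pool.Agent.LibMM99 Pool.Agent.LibTG78
open scoped ComplexConjugate

theorem A1m_adm {L : ℝ} (hL : 1 ≤ L) : Adm 0 L := by
  refine ⟨hL, ?_⟩
  rw [norm_zero]
  positivity

theorem A1m_norm_zp {p : ℕ} (hp : p.Prime) : ‖zp 0 p‖ ^ 2 = (p : ℝ)⁻¹ := by
  have hp0 : (0 : ℝ) < p := by exact_mod_cast hp.pos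
  unfold zp
  rw [sub_zero, Complex.norm_natCast_cpow_of_pos hp.pos]
  have h : (-(1 / 2 : ℂ)).re = -(1 / 2) := by norm_num
  rw [h, ← Real.rpow_natCast, ← Real.rpow_mul hp0.le, ← Real.rpow_neg_one]
  congr 1
  push_cast
  norm_num

theorem A1m_nz_pos (u v : ℝ) : 0 < nz4 0 u v := by
  unfold nz4
  apply Finset.prod_pos
  intro p hp
  have hpp := (t12_mem_prm.1 hp).1
  rw [A1m_norm_zp hpp]
  have h2 : (2 : ℝ) ≤ p := by exact_mod_cast hpp.two_le
  have : (p : ℝ)⁻¹ ≤ 2⁻¹ := inv_anti₀ (by norm_num) h2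
  norm_num at this
  have h3 := Gsum_two_pos (x := (p : ℝ)⁻¹) (by positivity) (by linarith)
  positivity

theorem A1m_nz_mul (s : ℂ) {u v w : ℝ} (huv : u ≤ v) (hvw : v ≤ w) : nz4 s u v * nz4 s v w = nz4 s u w := by
  unfold nz4
  rw [← Finset.prod_union]
  · congr 1
    ext p
    rw [Finset.mem_union, t12_mem_prm, t12_mem_prm, t12_mem_prm]
    constructor
    · rintro (⟨h1, h2, h3⟩ | ⟨h1, h2, h3⟩)
      · exact ⟨h1, h2, h3.trans hvw⟩
      · exact ⟨h1, huv.trans_lt h2, h3⟩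
    · rintro ⟨h1, h2, h3⟩
      rcases le_or_gt (p : ℝ) v with h | h
      · exact Or.inl ⟨h1, h2, h⟩
      · exact Or.inr ⟨h1, h, h3⟩
  · rw [Finset.disjoint_left]
    intro p hp hp'
    exact absurd (t12_mem_prm.1 hp).2.2 (not_le.2 (t12_mem_prm.1 hp').2.1)

theorem A1m_prm_zero {l0 : ℝ} (hl : l0 < Real.log 2) : prm 1 (tj l0 0) = ∅ := by
  have ht : tj l0 0 < 2 := by
    rw [tj, pow_zero, mul_one]
    have := Real.exp_lt_exp.mpr hl
    rwa [Real.exp_log (by norm_num)] at this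
  rw [prm, Finset.filter_eq_empty_iff]
  rintro p hp ⟨h1, h2⟩
  rw [Finset.mem_Icc] at hp
  have h3 : (p : ℝ) ≤ tj l0 0 := (Nat.cast_le.mpr hp.2).trans (Nat.floor_le (Real.exp_pos _).le)
  have h4 : (2 : ℝ) ≤ p := by exact_mod_cast h1.two_le
  linarith

theorem A1m_prod {l0 : ℝ} (h0 : 0 ≤ l0) (hl : l0 < Real.log 2) (k : ℝ) (s : ℂ) (j : ℕ) :
    ∏ i ∈ Finset.range j, (PS k (tj l0 i) (tj l0 (i + 1)) * nz4 s (tj l0 i) (tj l0 (i + 1))) =
      PS k 1 (tj l0 j) * nz4 s 1 (tj l0 j) := by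
  induction j with
  | zero => simp [PS, nz4, A1m_prm_zero hl]
  | succ j ih =>
    have h1t : (1 : ℝ) ≤ tj l0 j := Real.one_le_exp (by positivity)
    rw [Finset.prod_range_succ, ih, ← PS_mul k h1t (tj_mono h0 (Nat.le_succ _)),
      ← A1m_nz_mul s h1t (tj_mono h0 (Nat.le_succ _))]
    ring

theorem A1m_prod_lower (s : ℕ) (x : ℕ → ℝ) (h0 : ∀ i < s, 0 ≤ x i) (h1 : ∀ i < s, x i ≤ 1) :
    1 - ∑ i ∈ Finset.range s, x i ≤ ∏ i ∈ Finset.range s, (1 - x i) ∧
      ∏ i ∈ Finset.range s, (1 - x i) ≤ 1 ∧ 0 ≤ ∏ i ∈ Finset.range s, (1 - x i) := by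
  induction s with
  | zero => simp
  | succ s ih =>
    obtain ⟨a1, a2, a3⟩ := ih (fun i hi => h0 i (by omega)) (fun i hi => h1 i (by omega))
    have b0 := h0 s (by omega)
    have b1 := h1 s (by omega)
    rw [Finset.sum_range_succ, Finset.prod_range_succ]
    refine ⟨?_, ?_, mul_nonneg a3 (by linarith)⟩
    · nlinarith
    · nlinarith

/-- A1'' : the mean of the low part under the tilted measure with parameter zero (`isProd` given) -/
theorem A1m_core {β : ℝ} (hβ : 0 < β) {C0 : ℝ} (hC0 : 1 ≤ C0) (hprod : ∀ L : ℝ, 1 ≤ L → IsProd (nu4 0 L)) :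
    ∃ C K1 : ℝ, 1 ≤ C ∧ 1 ≤ K1 ∧ ∀ (l0 K L : ℝ) (J : ℕ),
    Real.log 2 / 2 ≤ l0 → l0 < Real.log 2 → K1 ≤ K → 1 ≤ L → l0 * 2 ^ J ≤ L → ∀ b e : ℕ → Om → ℝ,
    (∀ i < J, ScaleT4 β C0 (tj l0 i) (tj l0 (i + 1)) (kap K J i) (b i) (e i)) →
    (1 - C * Real.exp (-K / 20)) * (PS (β + 4) 1 (tj l0 J) * nz4 0 1 (tj l0 J)) ≤ ∫ x, BB b J x ∂(nu4 0 L) ∧
    ∫ x, BB b J x ∂(nu4 0 L) ≤ PS (β + 4) 1 (tj l0 J) * nz4 0 1 (tj l0 J) := by
  set K1 : ℝ := max 40 (20 * Real.log (2 * C0)) with hK1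
  refine ⟨2 * C0, K1, by linarith, le_max_of_le_left (by norm_num), ?_⟩
  intro l0 K L J hl hl2 hK hL hJL b e hS
  have hK40 : 40 ≤ K := (le_max_left _ _).trans hK
  have hK0 : 0 ≤ K := by linarith
  have hlog2 : 0 < Real.log 2 := Real.log_pos (by norm_num)
  have hl00 : 0 < l0 := lt_of_lt_of_le (by positivity) hl
  have hl0 : 0 ≤ l0 := hl00.le
  have hs : C0 * Real.exp (-K / 20) ≤ 1 / 2 := by
    have h1 : 20 * Real.log (2 * C0) ≤ K := (le_max_right _ _).trans hK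
    have h2 : Real.exp (-K / 20) ≤ Real.exp (-Real.log (2 * C0)) :=
      Real.exp_le_exp.mpr (by linarith)
    rw [Real.exp_neg, Real.exp_log (by positivity)] at h2
    calc C0 * Real.exp (-K / 20) ≤ C0 * (2 * C0)⁻¹ :=
          mul_le_mul_of_nonneg_left h2 (by positivity)
      _ = 1 / 2 := by field_simp
  set x : ℕ → ℝ := fun i => C0 * Real.exp (-kap K J i / 20) with hx
  have hx0 : ∀ i, 0 ≤ x i := fun i => by positivity
  have hx1 : ∀ i, x i ≤ 1 / 2 := fun i => by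
    refine le_trans ?_ hs
    refine mul_le_mul_of_nonneg_left (Real.exp_le_exp.mpr ?_) (by linarith)
    have := A0_kap_ge hK0 J i
    linarith
  have hsum : ∑ i ∈ Finset.range J, x i ≤ 2 * (C0 * Real.exp (-K / 20)) := by
    simp only [hx]
    rw [← Finset.mul_sum]
    have := mul_le_mul_of_nonneg_left (A0_sum hK40 J le_rfl) (show 0 ≤ C0 by linarith)
    linarith
  have hPS : ∀ i, 1 ≤ PS (β + 4) (tj l0 i) (tj l0 (i + 1)) := fun i => one_le_PS (by linarith) _ _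
  have hg : ∀ i, 0 ≤ PS (β + 4) (tj l0 i) (tj l0 (i + 1)) * nz4 0 (tj l0 i) (tj l0 (i + 1)) := fun i =>
    mul_nonneg (zero_le_one.trans (hPS i)) (A1m_nz_pos _ _).le
  have hP := A1m_prod hl0 hl2 (β + 4) 0 J
  have hP1 : 0 ≤ PS (β + 4) 1 (tj l0 J) * nz4 0 1 (tj l0 J) :=
    mul_nonneg (zero_le_one.trans (one_le_PS (by linarith) _ _)) (A1m_nz_pos _ _).le
  have hvL : ∀ i < J, tj l0 (i + 1) ≤ Real.exp L := by
    intro i hi
    unfold tj
    apply Real.exp_le_exp.2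
    refine le_trans ?_ hJL
    exact mul_le_mul_of_nonneg_left (pow_le_pow_right₀ (by norm_num) hi) hl0
  rw [A0_int_BB (hprod L hL) hl0 (fun i hi => (hS i hi).b_poly.continuous) (fun i hi => (hS i hi).b_dep) J le_rfl]
  constructor
  · have h1 : ∏ i ∈ Finset.range J, (PS (β + 4) (tj l0 i) (tj l0 (i + 1)) * nz4 0 (tj l0 i) (tj l0 (i + 1)) *
        (1 - x i)) ≤ ∏ i ∈ Finset.range J, ∫ x, b i x ∂(nu4 0 L) := by
      refine Finset.prod_le_prod ?_ ?_
      · intro i _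
        exact mul_nonneg (hg i) (by linarith [hx1 i])
      · intro i hi
        have hi' := Finset.mem_range.mp hi
        exact (hS i hi').le_b L hL (hvL i hi')
    refine le_trans ?_ h1
    rw [Finset.prod_mul_distrib, hP, mul_comm]
    refine mul_le_mul_of_nonneg_left ?_ hP1
    have h2 := (A1m_prod_lower J x (fun i _ => hx0 i) (fun i _ => by linarith [hx1 i])).1
    linarith
  · rw [← hP]
    refine Finset.prod_le_prod ?_ ?_
    · intro i hi
      exact integral_nonneg (hS i (Finset.mem_range.mp hi)).b_nonneg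
    · intro i hi
      have hi' := Finset.mem_range.mp hi
      have h := (hS i hi').b_le 0 L (A1m_adm hL) (hvL i hi')
      rw [norm_zero, mul_zero, zero_mul, Real.exp_zero, mul_one] at h
      exact h

end Pool.Agent.LibFG78
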