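import Mathlib
import Pool.Agent.LibFG78.B03

/-! # Bounds for `nz4` -/

set_option autoImplicit false

namespace Pool.Agent.LibFG78

open MeasureTheory Filter Topology Pool.Agent.LibMM99 Pool.Agent.LibTG78
open scoped ComplexConjugate

/-- comparison of two factors -/
theorem B04_factor4 {x y d : ℝ} (hx0 : 0 ≤ x) (hy0 : 0 ≤ y) (hx : x ≤ 5 / 9) (hy : y ≤ 1 / 2) (hxy : |x - y| ≤ d) :
    (LibZM.Gsum 2 x)⁻¹ ≤ (LibZM.Gsum 2 y)⁻¹ * Real.exp (10 * d) ∧
      (LibZM.Gsum 2 y)⁻¹ * Real.exp (-(10 * d)) ≤ (LibZM.Gsum 2 x)⁻¹ := by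
  obtain ⟨h1, h2⟩ := B04_factor hx hy hxy
  obtain ⟨h3, h4⟩ := abs_le.1 hxy
  have hd : 0 ≤ d := (abs_nonneg _).trans hxy
  have hed : 1 + d ≤ Real.exp d := by
    have := Real.add_one_le_exp d
    linarith
  have h5 : 1 + y ≤ (1 + x) * Real.exp d := by nlinarith
  have h6 : 1 + x ≤ (1 + y) * Real.exp d := by nlinarith
  have e10 : Real.exp (10 * d) = Real.exp (3 * d) ^ 3 * Real.exp d := by
    rw [← Real.exp_nat_mul, ← Real.exp_add]; push_cast; congr 1; ring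
  have p1 : 0 < 1 - x := by linarith
  have p2 : 0 < 1 - y := by linarith
  rw [Gsum_two hx0 (by linarith), Gsum_two hy0 (by linarith), inv_div, inv_div]
  constructor
  · rw [div_mul_eq_mul_div, div_le_div_iff₀ (by linarith) (by linarith), e10]
    calc (1 - x) ^ 3 * (1 + y) ≤ ((1 - y) * Real.exp (3 * d)) ^ 3 * ((1 + x) * Real.exp d) :=
          mul_le_mul (pow_le_pow_left₀ p1.le h1 3) h5 (by linarith) (by positivity)
      _ = _ := by ring
  · rw [Real.exp_neg, div_mul_eq_mul_div, div_le_div_iff₀ (by linarith) (by linarith), e10, mul_inv]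
    have h7 : 1 - y ≤ (1 - x) * Real.exp (3 * d) := by
      rw [Real.exp_neg, ← div_eq_mul_inv, div_le_iff₀ (Real.exp_pos _)] at h2
      exact h2
    rw [← mul_inv, mul_right_comm, ← div_eq_mul_inv, div_le_iff₀ (by positivity)]
    calc (1 - y) ^ 3 * (1 + x) ≤ ((1 - x) * Real.exp (3 * d)) ^ 3 * ((1 + y) * Real.exp d) :=
          mul_le_mul (pow_le_pow_left₀ p2.le h7 3) h6 (by linarith) (by positivity)
      _ = _ := by ring

theorem nz_ratio : ∃ C : ℝ, 1 ≤ C ∧ ∀ (s : ℂ) (L u v : ℝ), Adm s L → Real.sqrt 2 ≤ u → u ≤ v →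
    v ≤ Real.exp L → nz4 s u v ≤ nz4 0 u v * Real.exp (C * ‖s‖ * Real.log v) ∧
    nz4 0 u v * Real.exp (-(C * ‖s‖ * Real.log v)) ≤ nz4 s u v := by
  obtain ⟨C0, hC0, hsum⟩ := sum_log_prime_le
  have hs : 1 < Real.sqrt 2 := Real.lt_sqrt_of_sq_lt (by norm_num)
  have hls : 0 < Real.log (Real.sqrt 2) := Real.log_pos hs
  refine ⟨30 * (1 + C0 / Real.log (Real.sqrt 2)), ?_, ?_⟩
  · have : 0 ≤ C0 / Real.log (Real.sqrt 2) := by positivity
    linarith
  intro s L u v hA hu huv hv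
  have hlv : Real.log (Real.sqrt 2) ≤ Real.log v := Real.log_le_log (by linarith) (hu.trans huv)
  have hmem : ∀ p ∈ prm u v, 2 ≤ p ∧ (p : ℝ) ≤ Real.exp L := by
    intro p hp
    rw [mem_prm] at hp
    exact ⟨hp.1.two_le, hp.2.2.trans hv⟩
  -- the sum
  have h1 : ∑ p ∈ prm u v, Real.log p / p ≤ (1 + C0 / Real.log (Real.sqrt 2)) * Real.log v := by
    have h2 : ∑ p ∈ prm u v, Real.log p / p ≤ ∑ p ∈ prm 1 v, Real.log p / p := by
      refine Finset.sum_le_sum_of_subset_of_nonneg ?_ fun p _ _ => ?_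
      · intro p hp
        rw [mem_prm] at hp ⊢
        exact ⟨hp.1, by linarith [hp.2.1], hp.2.2⟩
      · exact div_nonneg (Real.log_natCast_nonneg p) (Nat.cast_nonneg p)
    have h3 := hsum v (by linarith)
    have h4 : C0 ≤ C0 / Real.log (Real.sqrt 2) * Real.log v := by
      rw [div_mul_eq_mul_div, le_div_iff₀ hls]
      exact mul_le_mul_of_nonneg_left hlv hC0
    linarith
  have hd : ∀ p ∈ prm u v, |‖zp s p‖ ^ 2 - ‖zp 0 p‖ ^ 2| ≤ 3 * ‖s‖ * (Real.log p / p) := by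
    intro p hp
    obtain ⟨h2, hpL⟩ := hmem p hp
    obtain ⟨h5, h6⟩ := norm_zp_sq_near hA h2 hpL
    rw [B04_zero (by omega), abs_le]
    have h7 : (p : ℝ)⁻¹ * (3 * (‖s‖ * Real.log p)) = 3 * ‖s‖ * (Real.log p / p) := by
      rw [div_eq_mul_inv]; ring
    constructor <;> nlinarith
  have hz0 : ∀ p ∈ prm u v, ‖zp 0 p‖ ^ 2 ≤ 1 / 2 := by
    intro p hp
    rw [B04_zero (by have := (hmem p hp).1; omega)]
    have : (2 : ℝ) ≤ p := by exact_mod_cast (hmem p hp).1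
    rw [inv_eq_one_div]
    exact one_div_le_one_div_of_le (by norm_num) this
  have hf := fun p hp => B04_factor4 (sq_nonneg ‖zp s p‖) (sq_nonneg ‖zp 0 p‖)
    (norm_zp_sq_le hA (hmem p hp).1 (hmem p hp).2) (hz0 p hp) (hd p hp)
  have h0 : ∀ p ∈ prm u v, 0 ≤ (LibZM.Gsum 2 (‖zp s p‖ ^ 2))⁻¹ := by
    intro p hp
    have := Gsum_two_pos (sq_nonneg ‖zp s p‖) (sq_lt_one hA hv hp)
    positivity
  have h00 : ∀ p ∈ prm u v, 0 ≤ (LibZM.Gsum 2 (‖zp 0 p‖ ^ 2))⁻¹ := by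
    intro p hp
    have := Gsum_two_pos (sq_nonneg ‖zp 0 p‖) (by linarith [hz0 p hp])
    positivity
  have hn : 0 ≤ nz4 0 u v := Finset.prod_nonneg h00
  have hS : ∑ p ∈ prm u v, 10 * (3 * ‖s‖ * (Real.log p / p)) ≤
      30 * (1 + C0 / Real.log (Real.sqrt 2)) * ‖s‖ * Real.log v := by
    rw [← Finset.mul_sum, ← Finset.mul_sum]
    have := mul_le_mul_of_nonneg_left h1 (by positivity : 0 ≤ 30 * ‖s‖)
    nlinarith
  constructor
  · calc nz4 s u v ≤ ∏ p ∈ prm u v, ((LibZM.Gsum 2 (‖zp 0 p‖ ^ 2))⁻¹ * Real.exp (10 * (3 * ‖s‖ * (Real.log p / p)))) :=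
          Finset.prod_le_prod h0 fun p hp => (hf p hp).1
      _ = nz4 0 u v * Real.exp (∑ p ∈ prm u v, 10 * (3 * ‖s‖ * (Real.log p / p))) := by
          rw [Finset.prod_mul_distrib, Real.exp_sum]
          rfl
      _ ≤ _ := mul_le_mul_of_nonneg_left (Real.exp_le_exp.2 hS) hn
  · calc nz4 0 u v * Real.exp (-(30 * (1 + C0 / Real.log (Real.sqrt 2)) * ‖s‖ * Real.log v))
        ≤ nz4 0 u v * Real.exp (-∑ p ∈ prm u v, 10 * (3 * ‖s‖ * (Real.log p / p))) :=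
          mul_le_mul_of_nonneg_left (Real.exp_le_exp.2 (neg_le_neg hS)) hn
      _ = ∏ p ∈ prm u v, ((LibZM.Gsum 2 (‖zp 0 p‖ ^ 2))⁻¹ * Real.exp (-(10 * (3 * ‖s‖ * (Real.log p / p))))) := by
          rw [Finset.prod_mul_distrib, ← Real.exp_sum, Finset.sum_neg_distrib]
          rfl
      _ ≤ nz4 s u v := Finset.prod_le_prod
          (fun p hp => mul_nonneg (h00 p hp) (Real.exp_pos _).le) fun p hp => (hf p hp).2

theorem B04_four (x : ℝ) : x ^ ((4 : ℝ) ^ 2 / 4) = x ^ 4 := by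
  rw [show ((4 : ℝ) ^ 2 / 4) = ((4 : ℕ) : ℝ) by norm_num, Real.rpow_natCast]

theorem nz_le : ∃ C : ℝ, 1 ≤ C ∧ ∀ (s : ℂ) (L u v : ℝ), Adm s L → Real.sqrt 2 ≤ u → u ≤ v →
    v ≤ Real.exp L → nz4 s u v ≤ C * (Real.log u / Real.log v) ^ 4 := by
  obtain ⟨C, hC, hr⟩ := nz_ratio
  obtain ⟨C1, hC1, h1⟩ := PS_le (k := 4) (by norm_num)
  obtain ⟨c, hc, h2⟩ := t12_ge (k := 4) (by norm_num)
  have hs : 1 < Real.sqrt 2 := Real.lt_sqrt_of_sq_lt (by norm_num)
  refine ⟨max 1 (C1 / c * Real.exp (C * (1 / 20))), le_max_left _ _, ?_⟩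
  intro s L u v hA hu huv hv
  have hlu : 0 < Real.log u := Real.log_pos (by linarith)
  have hlv : 0 < Real.log v := Real.log_pos (by linarith)
  have h3 := (hr s L u v hA hu huv hv).1
  have h4 := B04_slog hA (by linarith : 1 ≤ v) hv
  have hP1 : 1 ≤ PS 4 u v := one_le_PS (by norm_num) u v
  have h5 : nz4 0 u v ≤ C1 / c * (Real.log u / Real.log v) ^ 4 := by
    rw [nz_zero_eq]
    have h6 := h1 u hu
    have h7 := h2 v (hu.trans huv)
    rw [← PS_mul 4 (by linarith : (1 : ℝ) ≤ u) huv] at h7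
    rw [B04_four] at h6 h7
    rw [inv_eq_one_div, div_pow, div_mul_div_comm, div_le_div_iff₀ (by linarith) (by positivity)]
    have h8 : PS 4 1 u * PS 4 u v ≤ C1 * Real.log u ^ 4 * PS 4 u v :=
      mul_le_mul_of_nonneg_right h6 (by linarith)
    linarith
  refine le_trans ?_ (mul_le_mul_of_nonneg_right (le_max_right _ _) (by positivity))
  calc nz4 s u v ≤ nz4 0 u v * Real.exp (C * ‖s‖ * Real.log v) := h3
    _ ≤ (C1 / c * (Real.log u / Real.log v) ^ 4) * Real.exp (C * (1 / 20)) := by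
      apply mul_le_mul h5 _ (Real.exp_pos _).le (by positivity)
      apply Real.exp_le_exp.2
      rw [mul_assoc]
      exact mul_le_mul_of_nonneg_left h4 (by linarith)
    _ = _ := by ring

theorem nz_ge : ∃ c : ℝ, 0 < c ∧ ∀ (s : ℂ) (L u v : ℝ), Adm s L → Real.sqrt 2 ≤ u → u ≤ v →
    v ≤ Real.exp L → c * (Real.log u / Real.log v) ^ 4 ≤ nz4 s u v := by
  obtain ⟨C, hC, hr⟩ := nz_ratio
  obtain ⟨C1, hC1, h1⟩ := PS_le (k := 4) (by norm_num)
  obtain ⟨c, hc, h2⟩ := t12_ge (k := 4) (by norm_num)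
  have hs : 1 < Real.sqrt 2 := Real.lt_sqrt_of_sq_lt (by norm_num)
  refine ⟨c / C1 * Real.exp (-(C * (1 / 20))), by positivity, ?_⟩
  intro s L u v hA hu huv hv
  have hlu : 0 < Real.log u := Real.log_pos (by linarith)
  have hlv : 0 < Real.log v := Real.log_pos (by linarith)
  have h3 := (hr s L u v hA hu huv hv).2
  have h4 := B04_slog hA (by linarith : 1 ≤ v) hv
  have hP1 : 1 ≤ PS 4 u v := one_le_PS (by norm_num) u v
  have h5 : c / C1 * (Real.log u / Real.log v) ^ 4 ≤ nz4 0 u v := by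
    rw [nz_zero_eq]
    have h6 := h1 v (hu.trans huv)
    have h7 := h2 u hu
    rw [← PS_mul 4 (by linarith : (1 : ℝ) ≤ u) huv] at h6
    rw [B04_four] at h6 h7
    rw [inv_eq_one_div, div_pow, div_mul_div_comm, div_le_div_iff₀ (by positivity) (by linarith)]
    have h8 : c * Real.log u ^ 4 * PS 4 u v ≤ PS 4 1 u * PS 4 u v :=
      mul_le_mul_of_nonneg_right h7 (by linarith)
    linarith
  calc c / C1 * Real.exp (-(C * (1 / 20))) * (Real.log u / Real.log v) ^ 4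
      = (c / C1 * (Real.log u / Real.log v) ^ 4) * Real.exp (-(C * (1 / 20))) := by ring
    _ ≤ nz4 0 u v * Real.exp (-(C * ‖s‖ * Real.log v)) := by
      apply mul_le_mul h5 _ (Real.exp_pos _).le (le_trans (by positivity) h5)
      apply Real.exp_le_exp.2
      rw [mul_assoc C]
      have := mul_le_mul_of_nonneg_left h4 (by linarith : 0 ≤ C)
      linarith
    _ ≤ _ := h3

end Pool.Agent.LibFG78
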