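import Mathlib
import Pool.Agent.LibFG78.B07

set_option autoImplicit false

namespace Pool.Agent.LibFG78

open MeasureTheory Filter Topology Pool.Agent.LibMM99 Pool.Agent.LibTG78
open scoped ComplexConjugate

/-- Cauchy-Schwarz for even moments -/
theorem B08_cs {A : ℝ} (hA : 0 ≤ A) : ∃ C : ℝ, 1 ≤ C ∧ ∀ (s : ℂ) (L u v : ℝ), Adm s L → Real.sqrt 2 ≤ u → u ≤ v →
    v ≤ Real.exp L → Real.log v / Real.log u ≤ A → ∀ (f : Om → ℂ) (n : ℕ), Continuous f →
    DependsOn f (coo u v) → ∀ M : ℝ, 0 ≤ M →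
    ∫ x, ‖f x‖ ^ (2 * (2 * n)) ∂mu ≤ M ^ 2 → ∫ x, ‖f x‖ ^ (2 * n) ∂(nu4 s L) ≤ C * M := by
  obtain ⟨C, hC, h⟩ := cs_nu
  refine ⟨C * (A ^ 4 + 1), by nlinarith [pow_nonneg hA 4], fun s L u v hs hu huv hv hAuv f n hf hd M hM hI => ?_⟩
  have h1 := h s L u v hs hu huv hv (fun x => ‖f x‖ ^ (2 * n)) (hf.norm.pow _) (fun x => by positivity)
    (fun x y hxy => by
      have := hd hxy
      simp only [this]) M hM (by
      refine le_trans (le_of_eq ?_) hI
      congr 1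
      funext x
      rw [← pow_mul]
      congr 1
      ring)
  refine h1.trans ?_
  have hu1 : 1 < u := lt_of_lt_of_le (by
    rw [Real.lt_sqrt (by norm_num)]; norm_num) hu
  have hq : 0 ≤ Real.log v / Real.log u := div_nonneg (Real.log_pos (lt_of_lt_of_le hu1 huv)).le (Real.log_pos hu1).le
  have h3 : (Real.log v / Real.log u) ^ 4 ≤ A ^ 4 := pow_le_pow_left₀ hq hAuv 4
  have h2 : C * (Real.log v / Real.log u) ^ 4 ≤ C * (A ^ 4 + 1) := mul_le_mul_of_nonneg_left (by linarith) (by linarith)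
  exact mul_le_mul_of_nonneg_right h2 hM

theorem psi_moment_nu (r : ℕ) : ∃ C : ℝ, 1 ≤ C ∧ ∀ (s : ℂ) (L l0 K : ℝ) (J i : ℕ), Adm s L →
    Real.log 2 / 2 ≤ l0 → 1 ≤ K → i < J → l0 * 2 ^ (i + 1) ≤ L →
    ∫ x, ‖psi l0 K J i x‖ ^ (2 * r) ∂(nu4 s L) ≤ C := by
  obtain ⟨C0, hC0, hcs⟩ := B08_cs (A := 2) (by norm_num)
  obtain ⟨C1, hC1, h1⟩ := psi_moment (2 * r)
  have p1 : 0 ≤ C0 * Real.sqrt C1 := by positivity
  refine ⟨1 + C0 * Real.sqrt C1, by linarith, fun s L l0 K J i hs hl0 hK hi hL => ?_⟩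
  have hl00 : 0 < l0 := lt_of_lt_of_le (by have := Real.log_pos one_lt_two; positivity) hl0
  have hlog : Real.log (tj l0 (i + 1)) = 2 * Real.log (tj l0 i) := by
    rw [log_tj, log_tj, pow_succ]; ring
  have hpos : 0 < Real.log (tj l0 i) := by rw [log_tj]; positivity
  have h2 := hcs s L (tj l0 i) (tj l0 (i + 1)) hs (sqrt_two_le_tj hl0 i) (tj_mono hl00.le (Nat.le_succ i))
    (by unfold tj; exact Real.exp_le_exp.2 hL) (by rw [hlog, div_le_iff₀ hpos]) (psi l0 K J i) r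
    continuous_psi dependsOn_psi (Real.sqrt C1) (by positivity) (by
      rw [Real.sq_sqrt hC1.le]
      unfold psi
      exact h1 _ _ _ (sqrt_two_le_tj hl0 i) (tj_mono hl00.le (Nat.le_succ i)) (by rw [hlog]))
  linarith

theorem top_moment_nu {δ : ℝ} (hδ : 0 < δ) (hδ1 : δ ≤ 1) (Λ : ℝ) (r : ℕ) : ∃ C L0 : ℝ, 0 < C ∧
    ∀ w : ℝ → ℂ, IsWeight w Λ → ∀ (s : ℂ) (L : ℝ), Adm s L → L0 ≤ L →
    ∫ x, ‖Atop w δ L x‖ ^ (2 * r) ∂(nu4 s L) ≤ C := by
  obtain ⟨C0, hC0, hcs⟩ := B08_cs (A := 1 / δ) (by positivity)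
  obtain ⟨C1, L1, hC1, h1⟩ := top_moment hδ hδ1 Λ (2 * r)
  refine ⟨C0 * Real.sqrt C1, max L1 (Real.log 2 / 2 / δ), by positivity, fun w hw s L hs hL => ?_⟩
  have hL1 : L1 ≤ L := (le_max_left _ _).trans hL
  have hL2 : Real.log 2 / 2 / δ ≤ L := (le_max_right _ _).trans hL
  have hL0 : 0 < L := lt_of_lt_of_le one_pos hs.1
  have hδL : Real.log 2 / 2 ≤ δ * L := by
    rw [div_le_iff₀ hδ] at hL2; linarith
  have h2 := hcs s L (Real.exp (δ * L)) (Real.exp L) hs (sqrt_two_le_exp hδL)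
    (Real.exp_le_exp.2 (by nlinarith)) le_rfl (by
      rw [Real.log_exp, Real.log_exp]
      apply le_of_eq
      field_simp) (Atop w δ L) r (continuous_DS _ _) (dependsOn_DS_smo _ _ _ _) (Real.sqrt C1) (by positivity) (by
      rw [Real.sq_sqrt hC1.le]
      exact h1 w hw L hL1)
  exact h2

private theorem B08_edge {δ : ℝ} (hδ : 0 < δ) (hδ1 : δ < 1) {M : ℕ} {L : ℝ} (hL : 0 ≤ L) (j : Fin M) {p : ℕ}
    (hp : p ∈ win δ M L j) : Real.exp (δ * L) < p ∧ (p : ℝ) ≤ Real.exp L := by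
  have hM : (0 : ℝ) < M := by
    have := j.pos
    exact_mod_cast this
  have hj : ((j : ℕ) : ℝ) + 1 ≤ M := by exact_mod_cast j.2
  have h1 : p.Prime ∧ Real.exp ((δ + (1 - δ) * j / M) * L) < (p : ℝ) ∧
      (p : ℝ) ≤ Real.exp ((δ + (1 - δ) * (j + 1) / M) * L) := t22a_mem_prm.1 hp
  have h0 : 0 ≤ (1 - δ) * j / M := by
    have : 0 ≤ 1 - δ := by linarith
    positivity
  have h2 : (1 - δ) * (j + 1) / M ≤ (1 - δ) := by
    rw [div_le_iff₀ hM]
    have : 0 ≤ 1 - δ := by linarith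
    exact mul_le_mul_of_nonneg_left hj this
  refine ⟨lt_of_le_of_lt (Real.exp_le_exp.2 ?_) h1.2.1, h1.2.2.trans (Real.exp_le_exp.2 ?_)⟩
  · nlinarith
  · nlinarith

theorem GG_moment_nu {δ : ℝ} (hδ : 0 < δ) (hδ1 : δ < 1) : ∃ V L0 : ℝ, 0 ≤ V ∧ ∀ (s : ℂ) (L : ℝ), Adm s L →
    L0 ≤ L → ∀ (M : ℕ) (j : Fin M) (n : ℕ), ∫ x, ‖GG δ M L j x‖ ^ (2 * n) ∂(nu4 s L) ≤ n.factorial * V ^ n := by
  obtain ⟨C0, hC0, hcs⟩ := B08_cs (A := 1 / δ) (by positivity)
  obtain ⟨v, hv, hwin⟩ := win_sum_le hδ hδ1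
  refine ⟨C0 * (2 * v), Real.log 2 / 2 / δ, by positivity, fun s L hs hL M j n => ?_⟩
  have hL0 : 0 < L := lt_of_lt_of_le one_pos hs.1
  have hδL : Real.log 2 / 2 ≤ δ * L := by
    rw [div_le_iff₀ hδ] at hL; linarith
  rcases Nat.eq_zero_or_pos n with rfl | hn
  · have := (isProbabilityMeasure_nu hs)
    simp
  have hc : Continuous (GG δ M L j) := continuous_DS _ _
  have hd : DependsOn (GG δ M L j) (coo (Real.exp (δ * L)) (Real.exp L)) := by
    intro x y hxy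
    unfold GG DS
    refine Finset.sum_congr rfl fun p hp => ?_
    have hpp : p.Prime := (t22a_mem_prm.1 hp).1
    have he := B08_edge hδ hδ1 hL0.le j hp
    rw [ch_prime x hpp, ch_prime y hpp, hxy p he]
  have hf : ((2 * n).factorial : ℝ) ≤ ((2 ^ n * n.factorial : ℕ) : ℝ) ^ 2 := by
    have h1 : (2 * n).factorial ≤ (2 ^ n * n.factorial) ^ 2 := by
      have h3 : n.centralBinom * (n.factorial * n.factorial) = (2 * n).factorial := by
        rw [Nat.centralBinom, ← Nat.choose_mul_factorial_mul_factorial (show n ≤ 2 * n by omega)]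
        have : 2 * n - n = n := by omega
        rw [this]; ring
      have h4 : n.centralBinom ≤ 4 ^ n := by
        have h5 := Nat.sum_range_choose (2 * n)
        have h6 : (2 * n).choose n ≤ ∑ m ∈ Finset.range (2 * n + 1), (2 * n).choose m :=
          Finset.single_le_sum (f := fun m => (2 * n).choose m) (fun _ _ => Nat.zero_le _)
            (Finset.mem_range.2 (by omega))
        rw [h5, pow_mul] at h6
        exact h6
      calc (2 * n).factorial = n.centralBinom * (n.factorial * n.factorial) := h3.symm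
        _ ≤ 4 ^ n * (n.factorial * n.factorial) := Nat.mul_le_mul_right _ h4
        _ = (2 ^ n * n.factorial) ^ 2 := by
            rw [mul_pow, ← pow_mul, mul_comm n 2, pow_mul]; ring
    exact_mod_cast h1
  have h2 := hcs s L (Real.exp (δ * L)) (Real.exp L) hs (sqrt_two_le_exp hδL)
    (Real.exp_le_exp.2 (by nlinarith)) le_rfl (by
      rw [Real.log_exp, Real.log_exp]
      apply le_of_eq
      field_simp) (GG δ M L j) n hc hd (((2 ^ n * n.factorial : ℕ) : ℝ) * v ^ n) (by positivity) (by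
      have h3 := prime_sum_moment (2 * n) (win δ M L j) (fun p hp => (t22a_mem_prm.1 hp).1)
      refine h3.trans ?_
      have h4 : (∑ p ∈ win δ M L j, (p : ℝ)⁻¹) ^ (2 * n) ≤ v ^ (2 * n) :=
        pow_le_pow_left₀ (Finset.sum_nonneg fun p _ => by positivity) (hwin M L hL j) _
      calc ((2 * n).factorial : ℝ) * (∑ p ∈ win δ M L j, (p : ℝ)⁻¹) ^ (2 * n)
          ≤ ((2 ^ n * n.factorial : ℕ) : ℝ) ^ 2 * v ^ (2 * n) := mul_le_mul hf h4 (by positivity) (by positivity)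
        _ = (((2 ^ n * n.factorial : ℕ) : ℝ) * v ^ n) ^ 2 := by rw [mul_pow, ← pow_mul, mul_comm n 2])
  refine h2.trans ?_
  have h5 : C0 ≤ C0 ^ n := by
    calc C0 = C0 ^ 1 := (pow_one _).symm
      _ ≤ C0 ^ n := pow_le_pow_right₀ hC0 hn
  calc C0 * (((2 ^ n * n.factorial : ℕ) : ℝ) * v ^ n) ≤ C0 ^ n * (((2 ^ n * n.factorial : ℕ) : ℝ) * v ^ n) :=
        mul_le_mul_of_nonneg_right h5 (by positivity)
    _ = n.factorial * (C0 * (2 * v)) ^ n := by
        push_cast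
        rw [mul_pow, mul_pow]; ring

end Pool.Agent.LibFG78
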