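import Mathlib

import Pool.Agent.LibFG78.B07

/-! Row B10 : windows -/

set_option autoImplicit false

namespace Pool.Agent.LibFG78

open MeasureTheory Filter Topology Pool.Agent.LibMM99 Pool.Agent.LibTG78
open scoped ComplexConjugate


theorem B10_sixth (a b : ℂ) : ‖a - b‖ ^ 6 ≤ 32 * (‖a‖ ^ 6 + ‖b‖ ^ 6) := by
  have h1 : ‖a - b‖ ^ 6 ≤ (‖a‖ + ‖b‖) ^ 6 := pow_le_pow_left₀ (norm_nonneg _) (norm_sub_le a b) 6
  have h2 := add_pow_le (norm_nonneg a) (norm_nonneg b) 6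
  norm_num at h2
  linarith

theorem B10_fourth {t : ℝ} (ht : 0 < t) (d : ℝ) : (d ^ 2) ^ 2 ≤ (t * d ^ 2 + t⁻¹ * d ^ 6) / 2 := by
  have h1 : 0 ≤ t⁻¹ * (d ^ 2 * (t - d ^ 2) ^ 2) := by positivity
  have h2 : t⁻¹ * (d ^ 2 * (t - d ^ 2) ^ 2) = t * d ^ 2 - 2 * (d ^ 2) ^ 2 + t⁻¹ * d ^ 6 := by
    field_simp
    ring
  linarith

theorem window_approx_nu {δ : ℝ} (hδ : 0 < δ) (hδ1 : δ < 1) {w : ℝ → ℂ} {Λ : ℝ} (hw : IsWeight w Λ) :
    ∃ C : ℕ → ℝ, ∀ ε : ℝ, 0 < ε → ∃ M0 : ℕ, 1 ≤ M0 ∧ ∀ M : ℕ, M0 ≤ M → ∃ L0 : ℝ, ∀ (s : ℂ) (L : ℝ), Adm s L →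
      L0 ≤ L →
      (∫ x, ‖Atop w δ L x - MvPolynomial.eval (fun j => GG δ M L j x) (Qw w δ M)‖ ^ 2 ∂(nu4 s L) ≤ ε) ∧
      (∀ n : ℕ, ∫ x, ‖MvPolynomial.eval (fun j => GG δ M L j x) (Qw w δ M)‖ ^ (2 * n) ∂(nu4 s L) ≤ C n) := by
  obtain ⟨C, hC⟩ := window_approx_all hδ hδ1 hw
  obtain ⟨C6, L6, hC6, h6⟩ := top_moment hδ hδ1.le Λ 3
  obtain ⟨Cc, hCc, hcs⟩ := cs_nu
  refine ⟨fun n => Cc * (1 / δ) ^ 4 * Real.sqrt |C (2 * n)|, fun ε hε => ?_⟩
  set M1 : ℝ := ε * δ ^ 4 / Cc with hM1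
  have hM1pos : 0 < M1 := by positivity
  set Kc : ℝ := 32 * (C6 + |C 3|) with hKc
  have hKpos : 0 < Kc := by positivity
  obtain ⟨M0, hM0, hM⟩ := hC (M1 ^ 4 / Kc) (by positivity)
  refine ⟨M0, hM0, fun M hMM => ?_⟩
  obtain ⟨L0, hL⟩ := hM M hMM
  refine ⟨max (max L0 L6) (Real.log 2 / δ), fun s L hA hLL => ?_⟩
  have hLL0 : L0 ≤ L := ((le_max_left _ _).trans (le_max_left _ _)).trans hLL
  have hLL6 : L6 ≤ L := ((le_max_right _ _).trans (le_max_left _ _)).trans hLL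
  have hL2 : Real.log 2 / δ ≤ L := (le_max_right _ _).trans hLL
  have hL1 : 1 ≤ L := hA.1
  have hLpos : 0 < L := by linarith
  have hs2 : Real.sqrt 2 ≤ Real.exp (δ * L) := by
    have h1 : Real.log 2 ≤ δ * L := by
      rw [div_le_iff₀ hδ] at hL2; linarith
    have h2 : (2 : ℝ) ≤ Real.exp (δ * L) := by
      rw [← Real.log_le_iff_le_exp (by norm_num)]; exact h1
    have h3 : Real.sqrt 2 ≤ 2 := by
      rw [Real.sqrt_le_left (by norm_num)]; norm_num
    linarith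
  have hle : Real.exp (δ * L) ≤ Real.exp L := Real.exp_le_exp.2 (by nlinarith)
  have hlog : Real.log (Real.exp L) / Real.log (Real.exp (δ * L)) = 1 / δ := by
    rw [Real.log_exp, Real.log_exp]
    field_simp
  have hMpos : 0 < M := by omega
  obtain ⟨h1, h2⟩ := hL L hLL0
  have hQ : ∀ x, MvPolynomial.eval (fun j => GG δ M L j x) (Qw w δ M) =
      DS (smo (Real.exp (δ * L)) (Real.exp L) (Real.exp L)) (t22b_b w δ M L) x :=
    fun x => t22b_Q_eq hδ hδ1 hw hMpos hLpos x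
  have hQc : Continuous fun x => MvPolynomial.eval (fun j => GG δ M L j x) (Qw w δ M) := by
    simp_rw [hQ]
    exact continuous_DS _ _
  have hQd : DependsOn (fun x => MvPolynomial.eval (fun j => GG δ M L j x) (Qw w δ M))
      (coo (Real.exp (δ * L)) (Real.exp L)) := by
    simp_rw [hQ]
    exact dependsOn_DS_smo _ _ _ _
  have hAc : Continuous (Atop w δ L) := continuous_DS _ _
  have hAd : DependsOn (Atop w δ L) (coo (Real.exp (δ * L)) (Real.exp L)) := dependsOn_DS_smo _ _ _ _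
  constructor
  · set D : Om → ℂ := fun x => Atop w δ L x - MvPolynomial.eval (fun j => GG δ M L j x) (Qw w δ M)
      with hD
    have hDc : Continuous D := hAc.sub hQc
    have hDd : DependsOn D (coo (Real.exp (δ * L)) (Real.exp L)) := by
      intro x y hxy
      change Atop w δ L x - _ = Atop w δ L y - _
      rw [hAd hxy]
      congr 1
      exact hQd hxy
    have h3 : ∫ x, ‖D x‖ ^ 6 ∂mu ≤ Kc := by
      have h4 : ∫ x, ‖D x‖ ^ 6 ∂mu ≤ ∫ x, 32 * (‖Atop w δ L x‖ ^ 6 +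
          ‖MvPolynomial.eval (fun j => GG δ M L j x) (Qw w δ M)‖ ^ 6) ∂mu := by
        refine integral_mono (integrable_of_continuous (by fun_prop))
          (integrable_of_continuous (by fun_prop)) fun x => ?_
        exact B10_sixth _ _
      refine h4.trans ?_
      rw [integral_const_mul, integral_add (integrable_of_continuous (by fun_prop))
        (integrable_of_continuous (by fun_prop))]
      have h5 := h6 w hw L hLL6
      have h7 := h2 3
      have h8 := le_abs_self (C 3)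
      norm_num at h5 h7
      change ∫ x, ‖Atop w δ L x‖ ^ 6 ∂mu ≤ C6 at h5
      rw [hKc]
      linarith
    have h4 : ∫ x, (‖D x‖ ^ 2) ^ 2 ∂mu ≤ M1 ^ 2 := by
      have ht : 0 < Kc / M1 ^ 2 := by positivity
      have h5 : ∫ x, (‖D x‖ ^ 2) ^ 2 ∂mu ≤
          ∫ x, (Kc / M1 ^ 2 * ‖D x‖ ^ 2 + (Kc / M1 ^ 2)⁻¹ * ‖D x‖ ^ 6) / 2 ∂mu := by
        refine integral_mono (integrable_of_continuous (by fun_prop))
          (integrable_of_continuous (by fun_prop)) fun x => ?_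
        exact B10_fourth ht _
      refine h5.trans ?_
      rw [integral_div, integral_add (integrable_of_continuous (by fun_prop))
        (integrable_of_continuous (by fun_prop)), integral_const_mul, integral_const_mul]
      have h6 : Kc / M1 ^ 2 * ∫ x, ‖D x‖ ^ 2 ∂mu ≤ Kc / M1 ^ 2 * (M1 ^ 4 / Kc) :=
        mul_le_mul_of_nonneg_left h1 ht.le
      have h7 : (Kc / M1 ^ 2)⁻¹ * ∫ x, ‖D x‖ ^ 6 ∂mu ≤ (Kc / M1 ^ 2)⁻¹ * Kc :=
        mul_le_mul_of_nonneg_left h3 (inv_pos.2 ht).le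
      have h8 : Kc / M1 ^ 2 * (M1 ^ 4 / Kc) = M1 ^ 2 := by field_simp
      have h9 : (Kc / M1 ^ 2)⁻¹ * Kc = M1 ^ 2 := by field_simp
      linarith
    have h5 := hcs s L _ _ hA hs2 hle le_rfl (fun x => ‖D x‖ ^ 2) (by fun_prop)
      (fun x => by positivity) (fun x y hxy => by
        change ‖D x‖ ^ 2 = ‖D y‖ ^ 2
        rw [hDd hxy]) M1 hM1pos.le h4
    refine h5.trans (le_of_eq ?_)
    rw [hlog, hM1]
    field_simp
  · intro n
    have h3 : ∫ x, (‖MvPolynomial.eval (fun j => GG δ M L j x) (Qw w δ M)‖ ^ (2 * n)) ^ 2 ∂mu ≤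
        Real.sqrt |C (2 * n)| ^ 2 := by
      rw [Real.sq_sqrt (abs_nonneg _)]
      refine le_trans (le_of_eq ?_) ((h2 (2 * n)).trans (le_abs_self _))
      congr 1
      funext x
      rw [← pow_mul]
      congr 1
      ring
    have h5 := hcs s L _ _ hA hs2 hle le_rfl
      (fun x => ‖MvPolynomial.eval (fun j => GG δ M L j x) (Qw w δ M)‖ ^ (2 * n)) (by fun_prop)
      (fun x => by positivity) (fun x y hxy => by
        have := hQd hxy
        simp only at this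
        simp only [this]) _ (Real.sqrt_nonneg |C (2 * n)|) h3
    rw [hlog] at h5
    exact h5

end Pool.Agent.LibFG78
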