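import Mathlib
import Pool.Agent.LibFG78.B04
import Pool.Agent.LibFG78.B05
import Pool.Agent.LibFG78.B12
import Pool.Agent.LibTG78.B14

set_option autoImplicit false

namespace Pool.Agent.LibFG78

open MeasureTheory Filter Topology Pool.Agent.LibMM99 Pool.Agent.LibTG78
open scoped ComplexConjugate


/-- the mean value as a series -/
theorem B15_series {β : ℝ} {s : ℂ} {L u v κ : ℝ} (h : Adm s L) (hu : Real.sqrt 2 ≤ u)
    (huv : u ≤ v) (hv : v ≤ Real.exp L) (hκ : 1 ≤ κ) :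
    ∫ x, ‖R8g β u v κ x‖ ^ 2 ∂(nu4 s L) = nz4 s u v *
      ∑' n, ‖cv4 s u v (Real.exp (κ * Real.log v)) (fun n => ((LibZM.tau (β / 2) n : ℝ) : ℂ)) n‖ ^ 2 := by
  have h2 : (1 : ℝ) ≤ Real.sqrt 2 := Real.one_le_sqrt.2 (by norm_num)
  have hu1 : 1 ≤ u := h2.trans hu
  have hv1 : 1 ≤ v := hu1.trans huv
  have hl : 0 ≤ Real.log v := Real.log_nonneg hv1
  have hX : 1 ≤ Real.exp (κ * Real.log v) := Real.one_le_exp (by positivity)
  have hc : Continuous (R8g β u v κ) := continuous_DS _ _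
  have hd : DependsOn (R8g β u v κ) (coo u v) := dependsOn_DS_smo _ _ _ _
  have hc2 : Continuous fun x => ‖R8g β u v κ x‖ ^ 2 := (hc.norm).pow 2
  have hd2 : DependsOn (fun x => ‖R8g β u v κ x‖ ^ 2) (coo u v) := by
    intro x y hxy
    show ‖R8g β u v κ x‖ ^ 2 = ‖R8g β u v κ y‖ ^ 2
    rw [hd hxy]
  rw [integral_nu_loc h hu1 huv hv hc2 hd2]
  congr 1
  obtain ⟨hs, he⟩ := ZZ_sq_mul_DS h hu1 hv hX (fun n => ((LibZM.tau (β / 2) n : ℝ) : ℂ))
  rw [← parseval (cv4_zero _ _ _ _ _) hs]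
  refine integral_congr_ae (Eventually.of_forall fun x => ?_)
  show ‖ZZ s u v x‖ ^ 4 * ‖R8g β u v κ x‖ ^ 2 = ‖∑' n, cv4 s u v (Real.exp (κ * Real.log v))
    (fun n => ((LibZM.tau (β / 2) n : ℝ) : ℂ)) n * ch x n‖ ^ 2
  rw [← he x, norm_mul, mul_pow, norm_pow, ← pow_mul]
  rfl

/-- the bound for the series -/
theorem B15_bound {β : ℝ} (hβ : 0 < β) {s : ℂ} {L u v X : ℝ} (h : Adm s L) (hu : Real.sqrt 2 ≤ u)
    (huv : u ≤ v) (hv : v ≤ Real.exp L) :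
    (Summable fun n => ‖cv4 s u v X (fun n => ((LibZM.tau (β / 2) n : ℝ) : ℂ)) n‖ ^ 2) ∧
    ∑' n, ‖cv4 s u v X (fun n => ((LibZM.tau (β / 2) n : ℝ) : ℂ)) n‖ ^ 2 ≤
      ∏ p ∈ prm u v, LibZM.Gsum ((β + 4) / 2) ((p : ℝ)⁻¹ * (p : ℝ) ^ (2 * |s.re|)) := by
  have h2 : (1 : ℝ) ≤ Real.sqrt 2 := Real.one_le_sqrt.2 (by norm_num)
  have hu1 : 1 ≤ u := h2.trans hu
  have hv1 : 1 ≤ v := hu1.trans huv
  have hl : 0 ≤ Real.log v := Real.log_nonneg hv1
  have hlL : Real.log v ≤ L := by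
    have := Real.log_le_log (by linarith) hv
    rwa [Real.log_exp] at this
  have ht := (h.re_log hl hlL).1
  have hS := hasSum_twist (κ := (β + 4) / 2) (τ := |s.re|) (u := u) (v := v) (by positivity)
    (abs_nonneg _) ht hv1
  have hS' : HasSum ((Nat.factoredNumbers (prm u v)).indicator fun m : ℕ =>
      (m : ℝ) ^ (2 * |s.re|) * (LibZM.tau ((β + 4) / 2) m ^ 2 / m))
      (∏ p ∈ prm u v, LibZM.Gsum ((β + 4) / 2) ((p : ℝ)⁻¹ * (p : ℝ) ^ (2 * |s.re|))) := by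
    rw [← hasSum_subtype_iff_indicator]
    exact hS
  have hle : ∀ n : ℕ, ‖cv4 s u v X (fun n => ((LibZM.tau (β / 2) n : ℝ) : ℂ)) n‖ ^ 2 ≤
      (Nat.factoredNumbers (prm u v)).indicator (fun m : ℕ =>
      (m : ℝ) ^ (2 * |s.re|) * (LibZM.tau ((β + 4) / 2) m ^ 2 / m)) n := by
    intro n
    by_cases hn : n ∈ Nat.factoredNumbers (prm u v)
    · rw [Set.indicator_of_mem hn]
      have h3 := norm_cv4_le hβ.le s u v X n
      have h4 : ‖cv4 s u v X (fun n => ((LibZM.tau (β / 2) n : ℝ) : ℂ)) n‖ ^ 2 ≤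
          ((n : ℝ) ^ |s.re| * (LibZM.tau ((β + 4) / 2) n * (Real.sqrt n)⁻¹)) ^ 2 :=
        pow_le_pow_left₀ (norm_nonneg _) h3 2
      refine h4.trans (le_of_eq ?_)
      have hn0 : (0 : ℝ) ≤ n := Nat.cast_nonneg n
      rw [mul_pow, mul_pow, inv_pow, Real.sq_sqrt hn0, ← Real.rpow_natCast, ← Real.rpow_mul hn0]
      congr 1
      congr 1
      push_cast
      ring
    · rw [Set.indicator_of_notMem hn, cv4_out _ _ _ _ _ hn]
      simp
  have hs : Summable fun n => ‖cv4 s u v X (fun n => ((LibZM.tau (β / 2) n : ℝ) : ℂ)) n‖ ^ 2 :=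
    Summable.of_nonneg_of_le (fun n => by positivity) hle hS'.summable
  refine ⟨hs, ?_⟩
  rw [← hS'.tsum_eq]
  exact hs.tsum_le_tsum hle hS'.summable

theorem mean_b_le {β : ℝ} (hβ : 0 < β) : ∃ C : ℝ, 1 ≤ C ∧ ∀ (s : ℂ) (L u v κ : ℝ), Adm s L → Real.sqrt 2 ≤ u →
    u ≤ v → v ≤ Real.exp L → 1 ≤ κ → ∫ x, ‖R8g β u v κ x‖ ^ 2 ∂(nu4 s L) ≤
      PS (β + 4) u v * nz4 0 u v * Real.exp (C * ‖s‖ * Real.log v) := by
  obtain ⟨C1, hC1, hr⟩ := nz_ratio
  obtain ⟨C2, hC2, hg⟩ := Gsum_ratio (κ := (β + 4) / 2) (by positivity)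
  refine ⟨C1 + C2, by linarith, fun s L u v κ h hu huv hv hκ => ?_⟩
  have h2 : (1 : ℝ) ≤ Real.sqrt 2 := Real.one_le_sqrt.2 (by norm_num)
  have hu1 : 1 ≤ u := h2.trans hu
  have hv1 : 1 ≤ v := hu1.trans huv
  have hl : 0 ≤ Real.log v := Real.log_nonneg hv1
  have hlL : Real.log v ≤ L := by
    have := Real.log_le_log (by linarith) hv
    rwa [Real.log_exp] at this
  have ht := (h.re_log hl hlL).1
  have hnz := nz_pos h hv (u := u)
  rw [B15_series h hu huv hv hκ]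
  have hb := (B15_bound hβ (X := Real.exp (κ * Real.log v)) h hu huv hv).2
  have hg' := hg u v |s.re| hu huv (abs_nonneg _) ht
  have hPS : ∏ p ∈ prm u v, LibZM.Gsum ((β + 4) / 2) ((p : ℝ)⁻¹) = PS (β + 4) u v := rfl
  rw [hPS] at hg'
  have hr' := (hr s L u v h hu huv hv).1
  have hPS1 := one_le_PS (k := β + 4) (by positivity) u v
  have hre : |s.re| ≤ ‖s‖ := Complex.abs_re_le_norm s
  have hT0 : 0 ≤ ∑' n, ‖cv4 s u v (Real.exp (κ * Real.log v))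
      (fun n => ((LibZM.tau (β / 2) n : ℝ) : ℂ)) n‖ ^ 2 := tsum_nonneg fun n => by positivity
  set Sm : ℝ := ∑' n, ‖cv4 s u v (Real.exp (κ * Real.log v))
      (fun n => ((LibZM.tau (β / 2) n : ℝ) : ℂ)) n‖ ^ 2 with hSm
  calc nz4 s u v * Sm ≤ (nz4 0 u v * Real.exp (C1 * ‖s‖ * Real.log v)) *
        (PS (β + 4) u v * Real.exp (C2 * |s.re| * Real.log v)) :=
        mul_le_mul hr' (hb.trans hg') hT0 (hnz.le.trans hr')
    _ ≤ (nz4 0 u v * Real.exp (C1 * ‖s‖ * Real.log v)) *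
        (PS (β + 4) u v * Real.exp (C2 * ‖s‖ * Real.log v)) := by
        refine mul_le_mul_of_nonneg_left ?_ (hnz.le.trans hr')
        refine mul_le_mul_of_nonneg_left (Real.exp_le_exp.2 ?_) (by linarith)
        gcongr
    _ = PS (β + 4) u v * nz4 0 u v * Real.exp ((C1 + C2) * ‖s‖ * Real.log v) := by
        have : (C1 + C2) * ‖s‖ * Real.log v = C1 * ‖s‖ * Real.log v + C2 * ‖s‖ * Real.log v := by
          ring
        rw [this, Real.exp_add]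
        ring

theorem le_mean_b {β : ℝ} (hβ : 0 < β) : ∃ C : ℝ, 1 ≤ C ∧ ∀ (L u v κ : ℝ), 1 ≤ L → Real.sqrt 2 ≤ u →
    u ≤ v → Real.log v ≤ 2 * Real.log u → v ≤ Real.exp L → 1 ≤ κ →
    PS (β + 4) u v * nz4 0 u v * (1 - C * Real.exp (-κ / 20)) ≤ ∫ x, ‖R8g β u v κ x‖ ^ 2 ∂(nu4 0 L) := by
  obtain ⟨C, hC, hm⟩ := g_meanSq (k := β + 4) (by positivity)
  refine ⟨C + 1, by linarith, fun L u v κ hL hu huv huv2 hv hκ => ?_⟩
  have h2 : (1 : ℝ) < Real.sqrt 2 := by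
    rw [Real.lt_sqrt (by norm_num)]
    norm_num
  have hu1 : 1 < u := h2.trans_le hu
  have hv1 : 1 < v := hu1.trans_le huv
  have hl : 0 < Real.log v := Real.log_pos hv1
  have hX : 1 ≤ Real.exp (κ * Real.log v) := Real.one_le_exp (by positivity)
  have h : Adm 0 L := ⟨hL, by rw [norm_zero]; positivity⟩
  have hnz := nz_pos h hv (u := u)
  rw [B15_series h hu huv hv hκ]
  have hs := (B15_bound hβ (X := Real.exp (κ * Real.log v)) h hu huv hv).1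
  obtain ⟨-, hm2⟩ := hm u v (Real.exp (κ * Real.log v)) hu huv huv2 hX
  have hpos : ∀ n ∈ smo u v (Real.exp (κ * Real.log v)), 1 ≤ n := fun n hn =>
    Nat.pos_of_ne_zero (Nat.ne_zero_of_mem_factoredNumbers (t13_mem_smo hn))
  rw [integral_norm_sq _ hpos, Real.log_exp] at hm2
  have e1 : -(κ * Real.log v) / (5 * Real.log v) = -κ / 5 := by
    field_simp
  rw [e1] at hm2
  have hsum : ∑ n ∈ smo u v (Real.exp (κ * Real.log v)), ‖((LibZM.tau ((β + 4) / 2) n : ℝ) : ℂ)‖ ^ 2 / n ≤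
      ∑' n, ‖cv4 0 u v (Real.exp (κ * Real.log v)) (fun n => ((LibZM.tau (β / 2) n : ℝ) : ℂ)) n‖ ^ 2 := by
    refine le_trans (le_of_eq ?_) (hs.sum_le_tsum (smo u v (Real.exp (κ * Real.log v)))
      fun n _ => by positivity)
    refine Finset.sum_congr rfl fun n hn => ?_
    rw [norm_cv4_eq hβ.le hn, mul_pow, inv_pow, Real.sq_sqrt (Nat.cast_nonneg n), Complex.norm_real,
      Real.norm_eq_abs, sq_abs]
    rfl
  have hPS1 := one_le_PS (k := β + 4) (by positivity) u v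
  have he : Real.exp (-κ / 5) ≤ Real.exp (-κ / 20) := Real.exp_le_exp.2 (by linarith)
  have he0 : 0 < Real.exp (-κ / 20) := Real.exp_pos _
  have h5 : PS (β + 4) u v * (1 - (C + 1) * Real.exp (-κ / 20)) ≤
      ∑' n, ‖cv4 0 u v (Real.exp (κ * Real.log v)) (fun n => ((LibZM.tau (β / 2) n : ℝ) : ℂ)) n‖ ^ 2 := by
    refine le_trans ?_ (hm2.trans hsum)
    have h6 : C * Real.exp (-κ / 5) ≤ (C + 1) * Real.exp (-κ / 20) :=
      mul_le_mul (by linarith) he (Real.exp_pos _).le (by linarith)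
    have h7 : (C + 1) * Real.exp (-κ / 20) ≤ PS (β + 4) u v * ((C + 1) * Real.exp (-κ / 20)) :=
      le_mul_of_one_le_left (by positivity) hPS1
    nlinarith
  calc PS (β + 4) u v * nz4 0 u v * (1 - (C + 1) * Real.exp (-κ / 20))
      = nz4 0 u v * (PS (β + 4) u v * (1 - (C + 1) * Real.exp (-κ / 20))) := by ring
    _ ≤ _ := mul_le_mul_of_nonneg_left h5 hnz.le

end Pool.Agent.LibFG78
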