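import Mathlib
import Pool.Agent.LibFG78.B06
import Pool.Agent.LibFG78.B08
import Pool.Agent.LibFG78.B09
import Pool.Agent.LibFG78.B10
import Pool.Agent.LibFG78.B15
import Pool.Agent.LibFG78.B18
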