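import Mathlib
import Pool.Agent.LibFG78.A2
import Pool.Agent.LibFG78.A1g
import Pool.Agent.LibFG78.BAll
import Pool.Agent.LibMM99.T18
import Pool.Agent.LibMM99.T29

set_option autoImplicit false

namespace Pool.Agent.LibFG78

open MeasureTheory Filter Topology Pool.Agent.LibMM99 Pool.Agent.LibTG78
open scoped ComplexConjugate

/-- A1' -/
theorem growth_nu {β : ℝ} (hβ : 0 < β) (C0 : ℝ) (hC0 : 1 ≤ C0) : ∃ Cg : ℝ, 1 ≤ Cg ∧ ∀ (l0 K L : ℝ) (J : ℕ),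
    Real.log 2 / 2 ≤ l0 → l0 ≤ Real.log 2 → 1 ≤ L → l0 * 2 ^ J ≤ L → ∀ (b e : ℕ → Om → ℝ),
    (∀ i < J, ScaleT4 β C0 (tj l0 i) (tj l0 (i + 1)) (kap K J i) (b i) (e i)) →
    ∃ G : ℕ → ℝ, (∀ i < J, 0 ≤ G i) ∧ (∀ j ≤ J, ∏ i ∈ Finset.range j, G i ≤ Cg * (l0 * 2 ^ j) ^ gam4 β) ∧
      ∀ i < J, ScaleDataN (NN4 L) β C0 (tj l0 i) (tj l0 (i + 1)) (kap K J i) (G i) (b i) (e i) := by
  obtain ⟨Cz, hCz, hz⟩ := nz_le
  exact A1g_core hβ C0 hC0 hCz hz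

/-- A1'' -/
theorem scale_product_mean_nu {β : ℝ} (hβ : 0 < β) {C0 : ℝ} (hC0 : 1 ≤ C0) :
    ∃ C K1 : ℝ, 1 ≤ C ∧ 1 ≤ K1 ∧ ∀ (l0 K L : ℝ) (J : ℕ),
    Real.log 2 / 2 ≤ l0 → l0 < Real.log 2 → K1 ≤ K → 1 ≤ L → l0 * 2 ^ J ≤ L → ∀ b e : ℕ → Om → ℝ,
    (∀ i < J, ScaleT4 β C0 (tj l0 i) (tj l0 (i + 1)) (kap K J i) (b i) (e i)) →
    (1 - C * Real.exp (-K / 20)) * (PS (β + 4) 1 (tj l0 J) * nz4 0 1 (tj l0 J)) ≤ ∫ x, BB b J x ∂(nu4 0 L) ∧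
    ∫ x, BB b J x ∂(nu4 0 L) ≤ PS (β + 4) 1 (tj l0 J) * nz4 0 1 (tj l0 J) :=
  A1m_core hβ hC0 fun _ hL => isProd_nu (A1m_adm hL)

theorem A3_one_le_kap {K : ℝ} (hK : 1 ≤ K) (J j : ℕ) : 1 ≤ kap K J j := by
  unfold kap
  have : (1 : ℝ) ≤ (3 / 2 : ℝ) ^ (J - 1 - j) := one_le_pow₀ (by norm_num)
  nlinarith

theorem A3_exists_data {β C0 : ℝ} (hS : ∀ u v κ : ℝ, Real.sqrt 2 ≤ u → u ≤ v →
    Real.log v ≤ 2 * Real.log u → 1 ≤ κ → ∃ b e : Om → ℝ, ScaleT4 β C0 u v κ b e)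
    {l0 K : ℝ} (J : ℕ) (h : Real.log 2 / 2 ≤ l0) (hK : 1 ≤ K) :
    ∃ b e : ℕ → Om → ℝ, ∀ i, ScaleT4 β C0 (tj l0 i) (tj l0 (i + 1)) (kap K J i) (b i) (e i) := by
  have hlog2 : 0 < Real.log 2 := Real.log_pos (by norm_num)
  have h0 : 0 ≤ l0 := by linarith
  have h1 : ∀ i, ∃ b e : Om → ℝ, ScaleT4 β C0 (tj l0 i) (tj l0 (i + 1)) (kap K J i) b e := by
    intro i
    apply hS _ _ _ (sqrt_two_le_tj h i) (tj_mono h0 (Nat.le_succ i)) _ (A3_one_le_kap hK J i)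
    rw [log_tj, log_tj, pow_succ]
    linarith
  choose b e hbe using h1
  exact ⟨b, e, hbe⟩

/-- the exponent `r` with `β ≤ 2r < β+2` -/
theorem A3_exists_r {β : ℝ} (hβ : 0 < β) : ∃ r : ℕ, β ≤ 2 * r ∧ 2 * r < β + 2 ∧ β * (r + 3) / 2 < gam4 β := by
  refine ⟨⌈β / 2⌉₊, ?_, ?_, ?_⟩
  · have := Nat.le_ceil (β / 2); linarith
  · have := Nat.ceil_lt_add_one (a := β / 2) (by positivity); linarith
  · have h := Nat.ceil_lt_add_one (a := β / 2) (by positivity)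
    have h2 : β * ((⌈β / 2⌉₊ : ℝ) + 3) < β * (β / 2 + 1 + 3) := mul_lt_mul_of_pos_left (by linarith) hβ
    unfold gam4
    nlinarith

theorem A3_gam_nonneg {β : ℝ} (hβ : 0 < β) : 0 ≤ gam4 β := by
  unfold gam4; positivity

/-- the machine at one level for the family of the tilted measures: all the data together -/
theorem A3_machine {β : ℝ} (hβ : 0 < β) (Λ : ℝ) {r : ℕ} (hr : β ≤ 2 * r) (hr' : β * (r + 3) / 2 < gam4 β) :
    ∃ C0 Ca K1 : ℝ, 1 ≤ C0 ∧ 1 ≤ Ca ∧ 1 ≤ K1 ∧ ∀ (w : ℝ → ℂ), IsWeight w Λ → ∀ (l0 K L : ℝ) (J : ℕ),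
    Real.log 2 / 2 ≤ l0 → l0 < Real.log 2 → K1 ≤ K → 1 ≤ L → l0 * 2 ^ J ≤ L →
    (∀ j < J, Real.exp (-(kap K J j) / 5) ≤ l0 * 2 ^ (j + 1) / L) →
    ∃ b e : ℕ → Om → ℝ, ∃ Ξ : Om → ℝ,
      (∀ i, ScaleT4 β C0 (tj l0 i) (tj l0 (i + 1)) (kap K J i) (b i) (e i)) ∧
      (∀ x, |‖Fj l0 K J J x‖ ^ β - BB b J x| ≤ UU r l0 K J b e J x) ∧
      (∀ s : ℂ, Adm s L → ∫ x, BB b J x ∂(nu4 s L) ≤ Ca * (l0 * 2 ^ J) ^ gam4 β) ∧
      (∀ s : ℂ, Adm s L → ∫ x, UU r l0 K J b e J x ∂(nu4 s L) ≤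
        Ca * Real.exp (-K / 20) * (l0 * 2 ^ J) ^ gam4 β) ∧
      (∀ x, ‖RR w l0 K L L J x‖ ^ β ≤ Ξ x) ∧
      (∀ s : ℂ, Adm s L → ∫ x, Ξ x ∂(nu4 s L) ≤
        Ca * (l0 * 2 ^ J) ^ gam4 β * (L / (l0 * 2 ^ J)) ^ (β * (r + 3) / 2)) ∧
      IsPolyR (Ca * K * L) Ξ ∧ DependsOn Ξ (coo 1 (Real.exp L)) ∧
      (∀ s : ℂ, Adm s L → (1 - Ca * Real.exp (-K / 20)) * (PS (β + 4) 1 (tj l0 J) * nz4 0 1 (tj l0 J)) ≤
        ∫ x, BB b J x ∂(nu4 0 L)) ∧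
      (∀ s : ℂ, Adm s L → ∫ x, BB b J x ∂(nu4 0 L) ≤ PS (β + 4) 1 (tj l0 J) * nz4 0 1 (tj l0 J)) ∧
      IsPolyR (Ca * K * (l0 * 2 ^ J)) (BB b J) ∧ IsPolyR (Ca * K * (l0 * 2 ^ J)) (UU r l0 K J b e J) := by
  obtain ⟨C0, hC0, hS⟩ := hasScale_nu hβ
  obtain ⟨Cg, hCg, hg⟩ := growth_nu hβ C0 hC0
  obtain ⟨Cψ, hCψ, hψ⟩ := psi_moment_nu r
  obtain ⟨CE, hCE, hE⟩ := E_moment_nu r Λ
  obtain ⟨C1, K1, hC1, hK1, H1⟩ := scale_product_N hβ hr hC0 hCψ hCg (A3_gam_nonneg hβ)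
  obtain ⟨C2, K2, hC2, hK2, H2⟩ := R_majorant_N hβ hr hC0 hCψ hCg hCE hr' Λ
  obtain ⟨C3, K3, hC3, hK3, H3⟩ := scale_product_mean_nu hβ hC0
  obtain ⟨C4, hC4, H4⟩ := A0_product_poly r hC0
  refine ⟨C0, Cg + C1 + C2 + C3 + C4, max (max K1 K2) K3, hC0, by linarith,
    le_max_of_le_left (le_max_of_le_left hK1), ?_⟩
  intro w hw l0 K L J hl hl' hK hL hJL hcond
  have hKK1 : K1 ≤ K := (le_max_left _ _).trans ((le_max_left _ _).trans hK)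
  have hKK2 : K2 ≤ K := (le_max_right _ _).trans ((le_max_left _ _).trans hK)
  have hKK3 : K3 ≤ K := (le_max_right _ _).trans hK
  have hK1' : 1 ≤ K := hK1.trans hKK1
  have hlog2 : 0 < Real.log 2 := Real.log_pos (by norm_num)
  have hl00 : 0 < l0 := lt_of_lt_of_le (by positivity) hl
  have hL0 : 0 < L := by linarith
  have hjL : ∀ j ≤ J, l0 * 2 ^ j ≤ L := by
    intro j hj
    refine le_trans ?_ hJL
    exact mul_le_mul_of_nonneg_left (pow_le_pow_right₀ (by norm_num) hj) hl00.le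
  obtain ⟨b, e, hbe⟩ := A3_exists_data hS J hl hK1'
  obtain ⟨G, hG0, hGp, hGS⟩ := hg l0 K L J hl hl'.le hL hJL b e fun i _ => hbe i
  have hN : ∀ ν ∈ NN4 L, IsProd ν := by
    rintro ν ⟨s, hs, rfl⟩
    exact isProd_nu hs
  have hψ' : ∀ ν ∈ NN4 L, ∀ i < J, ∫ x, ‖psi l0 K J i x‖ ^ (2 * r) ∂ν ≤ Cψ := by
    rintro ν ⟨s, hs, rfl⟩ i hi
    exact hψ s L l0 K J i hs hl hK1' hi (hjL (i + 1) hi)
  have hE' : ∀ ν ∈ NN4 L, ∀ j < J, ∫ x, ‖Ej w l0 K L L J j x‖ ^ (2 * r) ∂ν ≤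
      (CE * (L / L) * (L / (l0 * 2 ^ (j + 1))) ^ (r + 3 : ℝ)) ^ r := by
    rintro ν ⟨s, hs, rfl⟩ j hj
    exact hE w hw s l0 K L L J j hs hl hK1' hj (hjL (j + 1) hj) le_rfl (hcond j hj)
  obtain ⟨a1, a2, a3⟩ := H1 (NN4 L) hN l0 K J hl hl'.le hKK1 G b e hG0 hGp hGS hψ' J le_rfl
  obtain ⟨Ξ, c1, c2, c3, c4⟩ := H2 (NN4 L) hN w hw l0 K L L J hl hl'.le hKK2 hJL le_rfl G b e hG0 hGp hGS hψ' hE'
  obtain ⟨d1, d2⟩ := H3 l0 K L J hl hl' hKK3 hL hJL b e fun i _ => hbe i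
  obtain ⟨e1, e2⟩ := H4 l0 K J hl hl'.le hK1' b e (fun i _ => (hbe i).b_poly) (fun i _ => (hbe i).e_poly) J le_rfl
  have hy : 0 < l0 * 2 ^ J := by positivity
  have hp : 0 ≤ (l0 * 2 ^ J) ^ gam4 β := Real.rpow_nonneg hy.le _
  have hq : 0 ≤ (L / (l0 * 2 ^ J)) ^ (β * (r + 3) / 2) := Real.rpow_nonneg (by positivity) _
  have hE0 : 0 < Real.exp (-K / 20) := Real.exp_pos _
  have hPz : 0 ≤ PS (β + 4) 1 (tj l0 J) * nz4 0 1 (tj l0 J) :=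
    mul_nonneg (zero_le_one.trans (one_le_PS (by linarith) _ _)) (A1m_nz_pos _ _).le
  refine ⟨b, e, Ξ, hbe, a1, ?_, ?_, c1, ?_, ?_, c4, ?_, fun _ _ => d2, ?_, ?_⟩
  · intro s hs
    refine (a2 _ ⟨s, hs, rfl⟩).trans (mul_le_mul_of_nonneg_right (by linarith) hp)
  · intro s hs
    refine (a3 _ ⟨s, hs, rfl⟩).trans (mul_le_mul_of_nonneg_right (mul_le_mul_of_nonneg_right (by linarith) hE0.le) hp)
  · intro s hs
    have h := c2 _ ⟨s, hs, rfl⟩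
    rw [div_self hL0.ne', Real.one_rpow, mul_one] at h
    refine h.trans (mul_le_mul_of_nonneg_right (mul_le_mul_of_nonneg_right (by linarith) hp) hq)
  · refine c3.mono ?_
    exact mul_le_mul_of_nonneg_right (mul_le_mul_of_nonneg_right (by linarith) (by linarith)) hL0.le
  · intro s hs
    refine le_trans (mul_le_mul_of_nonneg_right ?_ hPz) d1
    have : C3 * Real.exp (-K / 20) ≤ (Cg + C1 + C2 + C3 + C4) * Real.exp (-K / 20) :=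
      mul_le_mul_of_nonneg_right (by linarith) hE0.le
    linarith
  · refine e1.mono ?_
    exact mul_le_mul_of_nonneg_right (mul_le_mul_of_nonneg_right (by linarith) (by linarith)) hy.le
  · refine e2.mono ?_
    exact mul_le_mul_of_nonneg_right (mul_le_mul_of_nonneg_right (by linarith) (by linarith)) hy.le

/-- A3 -/
theorem apriori_nu {β : ℝ} (hβ : 0 < β) (Λ : ℝ) : ∃ C : ℝ, 1 ≤ C ∧ ∀ (w : ℝ → ℂ), IsWeight w Λ →
    ∀ (s : ℂ) (L : ℝ), Adm s L → ∫ x, ‖SS w L x‖ ^ β ∂(nu4 s L) ≤ C * L ^ gam4 β := by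
  obtain ⟨r, hr1, hr2, hr3⟩ := A3_exists_r hβ
  obtain ⟨C0, Ca, K1, hC0, hCa, hK1, H⟩ := A3_machine hβ Λ hr1 hr3
  set K := max K1 10 with hK
  have hKK1 : K1 ≤ K := le_max_left _ _
  have hK10 : 10 ≤ K := le_max_right _ _
  have h2k : (1:ℝ) ≤ 2 ^ β := Real.one_le_rpow (by norm_num) hβ.le
  refine ⟨2 ^ β * (Ca + Ca + Ca), by nlinarith, fun w hw s L hs => ?_⟩
  have := (isProd_nu hs).prob
  have hL : 1 ≤ L := hs.1
  have hlog2 : Real.log 2 ≤ 1 := by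
    have := Real.log_two_lt_d9
    linarith
  have hlog2' : 0 < Real.log 2 := Real.log_pos (by norm_num)
  obtain ⟨l0, J, hl1, hl2, hl3⟩ := exists_scales (lam := L) (by linarith)
  have hl0 : 0 < l0 := by linarith
  have hL0 : 0 < L := by linarith
  have hcond := kap_cond (K := K) (δ := 1) one_pos le_rfl (by simpa using hK10) (l0 := l0) (L := L) (J := J) hL0 (by rw [one_mul]; exact hl3)
  obtain ⟨b, e, Ξ, hbe, F1, F2, F3, G1, G2, G3, -, -, -, -, -⟩ := H w hw l0 K L J hl1 hl2 hKK1 hL hl3.le hcond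
  have hSS : ∀ x, SS w L x = Fj l0 K J J x + - RR w l0 K L L J x := by
    intro x
    have h1 := telescoping w l0 K L L J x
    rw [AA_zero hl0 hl2 hL0.le] at h1
    have h2 := AA_top' hw.zero (l0 := l0) (J := J) hL0 x
    rw [hl3] at h2
    rw [h1, h2]; ring
  have hpt : ∀ x, ‖SS w L x‖ ^ β ≤ 2 ^ β * (BB b J x + UU r l0 K J b e J x + Ξ x) := by
    intro x
    rw [hSS x]
    refine (norm_add_rpow_le hβ _ _).trans ?_
    refine mul_le_mul_of_nonneg_left ?_ (by positivity)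
    rw [norm_neg]
    have h1 := (abs_le.1 (F1 x)).2
    have h2 := G1 x
    linarith
  have cb : ∀ i < J, Continuous (b i) := fun i _ => (hbe i).b_poly.continuous
  have ce : ∀ i < J, Continuous (e i) := fun i _ => (hbe i).e_poly.continuous
  have iB : Integrable (fun x => BB b J x) (nu4 s L) := A0_int (continuous_BB cb)
  have iU : Integrable (fun x => UU r l0 K J b e J x) (nu4 s L) := A0_int (continuous_UU cb ce)
  have iX : Integrable (fun x => Ξ x) (nu4 s L) := A0_int G3.continuous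
  have cS : Continuous (SS w L) := continuous_DS _ _
  have iS : Integrable (fun x => ‖SS w L x‖ ^ β) (nu4 s L) :=
    A0_int (cS.norm.rpow_const fun x => Or.inr hβ.le)
  calc ∫ x, ‖SS w L x‖ ^ β ∂(nu4 s L) ≤ ∫ x, 2 ^ β * (BB b J x + UU r l0 K J b e J x + Ξ x) ∂(nu4 s L) :=
        integral_mono iS (((iB.add iU).add iX).const_mul _) hpt
    _ = 2 ^ β * (∫ x, BB b J x ∂(nu4 s L) + ∫ x, UU r l0 K J b e J x ∂(nu4 s L) + ∫ x, Ξ x ∂(nu4 s L)) := by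
        have iBU : Integrable (fun x => BB b J x + UU r l0 K J b e J x) (nu4 s L) := iB.add iU
        rw [integral_const_mul, integral_add iBU iX, integral_add iB iU]
    _ ≤ 2 ^ β * (Ca * L ^ gam4 β + Ca * L ^ gam4 β + Ca * L ^ gam4 β) := by
        refine mul_le_mul_of_nonneg_left ?_ (by positivity)
        have F2' := F2 s hs
        have F3' := F3 s hs
        have G2' := G2 s hs
        rw [hl3] at F2' F3' G2'
        rw [div_self hL0.ne', Real.one_rpow, mul_one] at G2'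
        have hLp : 0 < L ^ gam4 β := by positivity
        have h3 : Ca * Real.exp (-K / 20) * L ^ gam4 β ≤ Ca * L ^ gam4 β := by
          refine mul_le_mul_of_nonneg_right ?_ hLp.le
          have : Real.exp (-K / 20) ≤ 1 := Real.exp_le_one_iff.2 (by linarith)
          nlinarith
        linarith
    _ = _ := by ring

end Pool.Agent.LibFG78
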