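import Mathlib
import Pool.Agent.LibTG78.C0b
import Pool.Agent.LibFG78.Defs

/-! # Mixed moments of sums of small independent variables with small second pseudo-moments -/

set_option autoImplicit false

namespace Pool.Agent.LibFG78

open MeasureTheory Filter Topology Pool.Agent.LibMM99 Pool.Agent.LibTG78
open scoped ComplexConjugate

/-- independent small centred variables with vanishing pseudovariance, on the sample space -/
structure SteinData (ν : Measure Om) (S : Finset ℕ) (Y : ℕ → Om → ℂ) (η V : ℝ) (B : ℕ → ℝ) : Prop where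
  prob : IsProbabilityMeasure ν
  cont : ∀ p ∈ S, Continuous (Y p)
  eta_nonneg : 0 ≤ η
  eta_le : η ≤ 1
  bdd : ∀ p ∈ S, ∀ x, ‖Y p x‖ ≤ η
  mean : ∀ p ∈ S, ∫ x, Y p x ∂ν = 0
  sq : ∀ p ∈ S, ‖∫ x, Y p x ^ 2 ∂ν‖ ≤ η * ∫ x, ‖Y p x‖ ^ 2 ∂ν
  var : ∑ p ∈ S, ∫ x, ‖Y p x‖ ^ 2 ∂ν ≤ V
  mom : ∀ s, ∫ x, ‖∑ p ∈ S, Y p x‖ ^ (2 * s) ∂ν ≤ B s
  indep : ∀ p ∈ S, ∀ f g : ℂ → ℂ, Continuous f → Continuous g →
    ∫ x, f (Y p x) * g (∑ q ∈ S.erase p, Y q x) ∂ν =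
      (∫ x, f (Y p x) ∂ν) * ∫ x, g (∑ q ∈ S.erase p, Y q x) ∂ν

namespace SteinData

variable {ν : Measure Om} {S : Finset ℕ} {Y : ℕ → Om → ℂ} {η V : ℝ} {B : ℕ → ℝ}

theorem cont_sum (h : SteinData ν S Y η V B) {T : Finset ℕ} (hT : T ⊆ S) :
    Continuous fun x => ∑ p ∈ T, Y p x :=
  continuous_finsetSum _ fun p hp => h.cont p (hT hp)

theorem split (_h : SteinData ν S Y η V B) {p : ℕ} (hp : p ∈ S) (x : Om) :
    ∑ q ∈ S, Y q x = (∑ q ∈ S.erase p, Y q x) + Y p x := by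
  rw [Finset.sum_erase_add _ _ hp]

theorem norm_erase (h : SteinData ν S Y η V B) {p : ℕ} (hp : p ∈ S) (x : Om) :
    1 + ‖∑ q ∈ S.erase p, Y q x‖ ≤ 2 + ‖∑ q ∈ S, Y q x‖ := by
  have h1 : ∑ q ∈ S.erase p, Y q x = (∑ q ∈ S, Y q x) - Y p x := by
    rw [h.split hp x]; ring
  have h2 : ‖∑ q ∈ S.erase p, Y q x‖ ≤ ‖∑ q ∈ S, Y q x‖ + ‖Y p x‖ := by
    rw [h1]; exact norm_sub_le _ _
  have h3 := h.bdd p hp x
  have h4 := h.eta_le
  linarith

theorem int_erase (h : SteinData ν S Y η V B) {p : ℕ} (hp : p ∈ S) (N : ℕ) :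
    ∫ x, (1 + ‖∑ q ∈ S.erase p, Y q x‖) ^ N ∂ν ≤ DB B N := by
  have := h.prob
  have hc1 : Continuous fun x => ∑ q ∈ S.erase p, Y q x := h.cont_sum (Finset.erase_subset _ _)
  have hc2 : Continuous fun x => ∑ q ∈ S, Y q x := h.cont_sum subset_rfl
  have i1 : Integrable (fun x => (1 + ‖∑ q ∈ S.erase p, Y q x‖) ^ N) ν :=
    c0_integrable ν ((continuous_const.add hc1.norm).pow _)
  have i2 : Integrable (fun x => (6 : ℝ) ^ N * (1 + ‖∑ q ∈ S, Y q x‖ ^ (2 * N))) ν :=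
    c0_integrable ν (continuous_const.mul (continuous_const.add (hc2.norm.pow _)))
  refine (integral_mono i1 i2 fun x => ?_).trans ?_
  · refine (pow_le_pow_left₀ (by positivity) (h.norm_erase hp x) N).trans ?_
    exact c0b_growth (norm_nonneg _) N
  · have i3 : Integrable (fun x => ‖∑ q ∈ S, Y q x‖ ^ (2 * N)) ν := c0_integrable ν (hc2.norm.pow _)
    rw [integral_const_mul, integral_add (integrable_const _) i3]
    unfold DB
    have h1 := h.mom N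
    have h2 : ∫ _x : Om, (1 : ℝ) ∂ν = 1 := by simp
    rw [h2]
    gcongr

theorem DB_nonneg (h : SteinData ν S Y η V B) (N : ℕ) : 0 ≤ DB B N := by
  unfold DB
  have h1 := h.mom N
  have h2 : 0 ≤ ∫ x, ‖∑ p ∈ S, Y p x‖ ^ (2 * N) ∂ν := integral_nonneg fun x => by positivity
  have h3 : 0 ≤ B N := h2.trans h1
  positivity

theorem V_nonneg (h : SteinData ν S Y η V B) : 0 ≤ V :=
  (Finset.sum_nonneg fun p _ => integral_nonneg fun x => by positivity).trans h.var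

/-- independence for real functions -/
theorem indepR (h : SteinData ν S Y η V B) {p : ℕ} (hp : p ∈ S) {f g : ℂ → ℝ} (hf : Continuous f)
    (hg : Continuous g) : ∫ x, f (Y p x) * g (∑ q ∈ S.erase p, Y q x) ∂ν =
      (∫ x, f (Y p x) ∂ν) * ∫ x, g (∑ q ∈ S.erase p, Y q x) ∂ν := by
  have h1 := h.indep p hp (fun u => ((f u : ℝ) : ℂ)) (fun u => ((g u : ℝ) : ℂ))
    (Complex.continuous_ofReal.comp hf) (Complex.continuous_ofReal.comp hg)
  have e1 : ∫ x, ((f (Y p x) : ℝ) : ℂ) ∂ν = ((∫ x, f (Y p x) ∂ν : ℝ) : ℂ) := integral_complex_ofReal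
  have e2 : ∫ x, ((g (∑ q ∈ S.erase p, Y q x) : ℝ) : ℂ) ∂ν =
      ((∫ x, g (∑ q ∈ S.erase p, Y q x) ∂ν : ℝ) : ℂ) := integral_complex_ofReal
  have e3 : ∫ x, ((f (Y p x) : ℝ) : ℂ) * ((g (∑ q ∈ S.erase p, Y q x) : ℝ) : ℂ) ∂ν =
      ((∫ x, f (Y p x) * g (∑ q ∈ S.erase p, Y q x) ∂ν : ℝ) : ℂ) := by
    rw [← integral_complex_ofReal]
    congr 1
    funext x
    push_cast
    rfl
  rw [e1, e2, e3] at h1
  exact_mod_cast h1

/-- the contribution of one variable -/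
theorem one_var (h : SteinData ν S Y η V B) {p : ℕ} (hp : p ∈ S) (a b : ℕ) :
    ‖∫ x, Y p x * mn a b (∑ q ∈ S, Y q x) ∂ν -
      b * ((∫ x, ‖Y p x‖ ^ 2 ∂ν : ℝ) : ℂ) * ∫ x, mn a (b - 1) (∑ q ∈ S, Y q x) ∂ν‖ ≤
      ((a * b + (a : ℝ) ^ 2 + (1 + a) * (b : ℝ) ^ 2) * DB B (a + b) +
        b * ((a + (b - 1 : ℕ) + a * (b - 1 : ℕ) + (a : ℝ) ^ 2 + (1 + a) * ((b - 1 : ℕ) : ℝ) ^ 2) *
          DB B (a + (b - 1))) + a * DB B (a - 1 + b)) * η * ∫ x, ‖Y p x‖ ^ 2 ∂ν := by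
  have := h.prob
  set Sp : Om → ℂ := fun x => ∑ q ∈ S.erase p, Y q x with hSp
  have hcY : Continuous (Y p) := h.cont p hp
  have hcS : Continuous Sp := h.cont_sum (Finset.erase_subset _ _)
  have hcT : Continuous fun x => ∑ q ∈ S, Y q x := h.cont_sum subset_rfl
  have hY1 : ∀ x, ‖Y p x‖ ≤ 1 := fun x => (h.bdd p hp x).trans h.eta_le
  set C1 : ℝ := a * b + (a : ℝ) ^ 2 + (1 + a) * (b : ℝ) ^ 2 with hC1
  have hC10 : 0 ≤ C1 := by positivity
  set C2 : ℝ := a + (b - 1 : ℕ) + a * (b - 1 : ℕ) + (a : ℝ) ^ 2 + (1 + a) * ((b - 1 : ℕ) : ℝ) ^ 2 with hC2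
  have hC20 : 0 ≤ C2 := by positivity
  set Vp : ℝ := ∫ x, ‖Y p x‖ ^ 2 ∂ν with hVp
  have hVp0 : 0 ≤ Vp := integral_nonneg fun x => by positivity
  -- the expansion
  have e1 : ∀ x, Y p x * mn a b (∑ q ∈ S, Y q x) = Y p x * mn a b (Sp x) +
      (a * (Y p x ^ 2 * mn (a - 1) b (Sp x)) + b * (((‖Y p x‖ ^ 2 : ℝ) : ℂ) * mn a (b - 1) (Sp x))) +
      Y p x * (mn a b (Sp x + Y p x) - mn a b (Sp x) -
        (a * mn (a - 1) b (Sp x) * Y p x + b * mn a (b - 1) (Sp x) * conj (Y p x))) := by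
    intro x
    rw [h.split hp x]
    have h1 : ((‖Y p x‖ ^ 2 : ℝ) : ℂ) = Y p x * conj (Y p x) := by
      rw [Complex.mul_conj, Complex.normSq_eq_norm_sq]
    rw [h1]
    simp only [hSp]
    ring
  set R : Om → ℂ := fun x => Y p x * (mn a b (Sp x + Y p x) - mn a b (Sp x) -
        (a * mn (a - 1) b (Sp x) * Y p x + b * mn a (b - 1) (Sp x) * conj (Y p x))) with hR
  have hcm : ∀ i j : ℕ, Continuous fun x => mn i j (Sp x) := fun i j => (continuous_mn i j).comp hcS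
  have hcR : Continuous R := by
    refine hcY.mul ((((continuous_mn a b).comp (hcS.add hcY)).sub (hcm a b)).sub
      (((continuous_const.mul (hcm (a - 1) b)).mul hcY).add
        ((continuous_const.mul (hcm a (b - 1))).mul (Complex.continuous_conj.comp hcY))))
  have i0 : Integrable (fun x => Y p x * mn a b (Sp x)) ν := c0_integrable ν (hcY.mul (hcm a b))
  have i1 : Integrable (fun x => (a : ℂ) * (Y p x ^ 2 * mn (a - 1) b (Sp x))) ν :=
    c0_integrable ν (continuous_const.mul ((hcY.pow 2).mul (hcm (a - 1) b)))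
  have i2 : Integrable (fun x => (b : ℂ) * (((‖Y p x‖ ^ 2 : ℝ) : ℂ) * mn a (b - 1) (Sp x))) ν :=
    c0_integrable ν (continuous_const.mul ((Complex.continuous_ofReal.comp (hcY.norm.pow 2)).mul (hcm a (b - 1))))
  have iR : Integrable R ν := c0_integrable ν hcR
  have v0 : ∫ x, Y p x * mn a b (Sp x) ∂ν = 0 := by
    have := h.indep p hp (fun u => u) (mn a b) continuous_id (continuous_mn a b)
    rw [this, h.mean p hp, zero_mul]
  set X1 : ℂ := ∫ x, Y p x ^ 2 * mn (a - 1) b (Sp x) ∂ν with hX1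
  have v1 : ‖X1‖ ≤ DB B (a - 1 + b) * η * Vp := by
    have h0 := h.indep p hp (fun u => u ^ 2) (mn (a - 1) b) (continuous_id.pow 2) (continuous_mn _ b)
    have h1 : X1 = (∫ x, Y p x ^ 2 ∂ν) * ∫ x, mn (a - 1) b (Sp x) ∂ν := h0
    rw [h1, norm_mul]
    have h2 : ‖∫ x, mn (a - 1) b (Sp x) ∂ν‖ ≤ DB B (a - 1 + b) := by
      refine (norm_integral_le_integral_norm _).trans (le_trans ?_ (h.int_erase hp (a - 1 + b)))
      refine integral_mono (c0_integrable ν (hcm _ _)).norm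
        (c0_integrable ν ((continuous_const.add hcS.norm).pow _)) fun x => ?_
      show ‖mn (a - 1) b (Sp x)‖ ≤ (1 + ‖Sp x‖) ^ (a - 1 + b)
      rw [norm_mn]
      exact pow_le_pow_left₀ (norm_nonneg _) (by linarith) _
    calc ‖∫ x, Y p x ^ 2 ∂ν‖ * ‖∫ x, mn (a - 1) b (Sp x) ∂ν‖ ≤ (η * Vp) * DB B (a - 1 + b) :=
          mul_le_mul (h.sq p hp) h2 (norm_nonneg _) (mul_nonneg h.eta_nonneg hVp0)
      _ = _ := by ring
  have v2 : ∫ x, ((‖Y p x‖ ^ 2 : ℝ) : ℂ) * mn a (b - 1) (Sp x) ∂ν = ((Vp : ℝ) : ℂ) * ∫ x, mn a (b - 1) (Sp x) ∂ν := by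
    have := h.indep p hp (fun u => ((‖u‖ ^ 2 : ℝ) : ℂ)) (mn a (b - 1))
      (Complex.continuous_ofReal.comp (continuous_norm.pow 2)) (continuous_mn _ _)
    rw [this, hVp, ← integral_complex_ofReal]
  have e2 : ∫ x, Y p x * mn a b (∑ q ∈ S, Y q x) ∂ν =
      a * X1 + b * (((Vp : ℝ) : ℂ) * ∫ x, mn a (b - 1) (Sp x) ∂ν) + ∫ x, R x ∂ν := by
    have e3 : (fun x => Y p x * mn a b (∑ q ∈ S, Y q x)) = fun x => Y p x * mn a b (Sp x) +
      (a * (Y p x ^ 2 * mn (a - 1) b (Sp x)) + b * (((‖Y p x‖ ^ 2 : ℝ) : ℂ) * mn a (b - 1) (Sp x))) + R x := by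
      funext x
      exact e1 x
    have i12 : Integrable (fun x => (a : ℂ) * (Y p x ^ 2 * mn (a - 1) b (Sp x)) +
        b * (((‖Y p x‖ ^ 2 : ℝ) : ℂ) * mn a (b - 1) (Sp x))) ν := i1.add i2
    have i012 : Integrable (fun x => Y p x * mn a b (Sp x) +
      (a * (Y p x ^ 2 * mn (a - 1) b (Sp x)) + b * (((‖Y p x‖ ^ 2 : ℝ) : ℂ) * mn a (b - 1) (Sp x)))) ν := i0.add i12
    rw [e3, integral_add i012 iR, integral_add i0 i12, integral_add i1 i2, integral_const_mul, integral_const_mul,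
      v0, v2, ← hX1]
    ring
  -- the remainder
  have hRb : ‖∫ x, R x ∂ν‖ ≤ C1 * DB B (a + b) * η * Vp := by
    have h1 : ∀ x, ‖R x‖ ≤ C1 * η * (‖Y p x‖ ^ 2 * (1 + ‖Sp x‖) ^ (a + b)) := by
      intro x
      rw [hR]
      simp only
      rw [norm_mul]
      have h2 := c0b_mn a b (Sp x) (Y p x) (hY1 x)
      have h3 := h.bdd p hp x
      have h4 := h.eta_nonneg
      calc ‖Y p x‖ * _ ≤ η * (C1 * (1 + ‖Sp x‖) ^ (a + b) * ‖Y p x‖ ^ 2) := by gcongr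
        _ = _ := by ring
    have i3 : Integrable (fun x => C1 * η * (‖Y p x‖ ^ 2 * (1 + ‖Sp x‖) ^ (a + b))) ν :=
      c0_integrable ν (continuous_const.mul ((hcY.norm.pow 2).mul ((continuous_const.add hcS.norm).pow _)))
    refine (norm_integral_le_integral_norm _).trans ((integral_mono iR.norm i3 h1).trans ?_)
    rw [integral_const_mul]
    have h5 := h.indepR hp (f := fun u => ‖u‖ ^ 2) (g := fun u => (1 + ‖u‖) ^ (a + b))
      (continuous_norm.pow 2) ((continuous_const.add continuous_norm).pow _)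
    rw [h5]
    have h6 := h.int_erase hp (a + b)
    have h7 := h.eta_nonneg
    calc C1 * η * (Vp * ∫ x, (1 + ‖∑ q ∈ S.erase p, Y q x‖) ^ (a + b) ∂ν) ≤ C1 * η * (Vp * DB B (a + b)) := by
          gcongr
      _ = _ := by ring
  -- replacing `Sp` by the full sum
  have hdiff : ‖(∫ x, mn a (b - 1) (Sp x) ∂ν) - ∫ x, mn a (b - 1) (∑ q ∈ S, Y q x) ∂ν‖ ≤
      C2 * DB B (a + (b - 1)) * η := by
    have i4 : Integrable (fun x => mn a (b - 1) (Sp x)) ν := c0_integrable ν (hcm _ _)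
    have i5 : Integrable (fun x => mn a (b - 1) (∑ q ∈ S, Y q x)) ν :=
      c0_integrable ν ((continuous_mn _ _).comp hcT)
    rw [← integral_sub i4 i5]
    have h1 : ∀ x, ‖mn a (b - 1) (Sp x) - mn a (b - 1) (∑ q ∈ S, Y q x)‖ ≤
        C2 * η * (1 + ‖Sp x‖) ^ (a + (b - 1)) := by
      intro x
      rw [h.split hp x, norm_sub_rev]
      have h2 := c0b_mn0 a (b - 1) (Sp x) (Y p x) (hY1 x)
      have h3 := h.bdd p hp x
      refine h2.trans ?_
      calc C2 * (1 + ‖Sp x‖) ^ (a + (b - 1)) * ‖Y p x‖ ≤ C2 * (1 + ‖Sp x‖) ^ (a + (b - 1)) * η := by gcongr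
        _ = _ := by ring
    have i6 : Integrable (fun x => C2 * η * (1 + ‖Sp x‖) ^ (a + (b - 1))) ν :=
      c0_integrable ν (continuous_const.mul ((continuous_const.add hcS.norm).pow _))
    refine (norm_integral_le_integral_norm _).trans ((integral_mono (i4.sub i5).norm i6 h1).trans ?_)
    rw [integral_const_mul]
    have h6 := h.int_erase hp (a + (b - 1))
    have h7 := h.eta_nonneg
    calc C2 * η * ∫ x, (1 + ‖Sp x‖) ^ (a + (b - 1)) ∂ν ≤ C2 * η * DB B (a + (b - 1)) := by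
          apply mul_le_mul_of_nonneg_left h6 (by positivity)
      _ = _ := by ring
  rw [e2]
  have e4 : (a : ℂ) * X1 + (b : ℂ) * (((Vp : ℝ) : ℂ) * ∫ x, mn a (b - 1) (Sp x) ∂ν) + (∫ x, R x ∂ν) -
      b * ((Vp : ℝ) : ℂ) * ∫ x, mn a (b - 1) (∑ q ∈ S, Y q x) ∂ν =
      (∫ x, R x ∂ν) + b * ((Vp : ℝ) : ℂ) * ((∫ x, mn a (b - 1) (Sp x) ∂ν) - ∫ x, mn a (b - 1) (∑ q ∈ S, Y q x) ∂ν) +
        a * X1 := by
    ring
  rw [e4]
  refine (norm_add_le _ _).trans ?_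
  have h8 : ‖(b : ℂ) * ((Vp : ℝ) : ℂ) * ((∫ x, mn a (b - 1) (Sp x) ∂ν) - ∫ x, mn a (b - 1) (∑ q ∈ S, Y q x) ∂ν)‖ ≤
      b * Vp * (C2 * DB B (a + (b - 1)) * η) := by
    rw [norm_mul, norm_mul, Complex.norm_natCast, Complex.norm_real, Real.norm_of_nonneg hVp0]
    gcongr
  have h9 : ‖(a : ℂ) * X1‖ ≤ a * (DB B (a - 1 + b) * η * Vp) := by
    rw [norm_mul, Complex.norm_natCast]
    gcongr
  refine (add_le_add ((norm_add_le _ _).trans (add_le_add hRb h8)) h9).trans (le_of_eq ?_)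
  ring

end SteinData

end Pool.Agent.LibFG78
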