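import Mathlib
import Pool.Agent.LibFG78.BAll
import Pool.Agent.LibTG78.C1a

/-! # The law of one prime under the measure tilted by the fourth power -/

set_option autoImplicit false

namespace Pool.Agent.LibFG78

open MeasureTheory Filter Topology Pool.Agent.LibMM99 Pool.Agent.LibTG78
open scoped ComplexConjugate

/-- moments of one prime with the density `‖1 - r z‖ ^ (-4)` -/
theorem c1a_tilt4 {p : ℕ} (hp : p.Prime) {r : ℝ} (hr0 : 0 ≤ r) (hr1 : r < 1) (m : ℕ) :
    ∫ x, ((‖(1 - (r : ℂ) * ch x p)⁻¹‖ ^ 4 : ℝ) : ℂ) * ch x p ^ m ∂mu =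
      ((r ^ m * ((1 + r ^ 2) / (1 - r ^ 2) ^ 3 + m / (1 - r ^ 2) ^ 2) : ℝ) : ℂ) := by
  have hc : Continuous fun x : Om => ch x p := continuous_ch p
  have hn : ∀ x : Om, ‖ch x p‖ = 1 := fun x => norm_ch x p
  have hzz : ∀ x : Om, ch x p * conj (ch x p) = 1 := by
    intro x
    rw [Complex.mul_conj, Complex.normSq_eq_norm_sq, hn x]
    norm_num
  have hne : ∀ x : Om, 1 - (r : ℂ) * ch x p ≠ 0 := by
    intro x h
    have h1 : (r : ℂ) * ch x p = 1 := (sub_eq_zero.1 h).symm
    have h2 : ‖(r : ℂ) * ch x p‖ = r := by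
      rw [norm_mul, hn x, mul_one, Complex.norm_real, Real.norm_of_nonneg hr0]
    rw [h1, norm_one] at h2
    linarith
  have hlow : ∀ x : Om, 1 - r ≤ ‖1 - (r : ℂ) * ch x p‖ := by
    intro x
    have h1 := norm_sub_norm_le (1 : ℂ) ((r : ℂ) * ch x p)
    rw [norm_one, norm_mul, hn x, mul_one, Complex.norm_real, Real.norm_of_nonneg hr0] at h1
    exact h1
  have hlow2 : ∀ x : Om, ‖(1 - (r : ℂ) * ch x p)⁻¹‖ ≤ (1 - r)⁻¹ := by
    intro x
    rw [norm_inv]
    exact inv_anti₀ (by linarith) (hlow x)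
  have cI : Continuous fun x : Om => (1 - (r : ℂ) * ch x p)⁻¹ :=
    (continuous_const.sub (continuous_const.mul hc)).inv₀ hne
  have cconj : Continuous fun x : Om => conj (ch x p) := Complex.continuous_conj.comp hc
  have cq : Continuous fun x : Om => ((‖(1 - (r : ℂ) * ch x p)⁻¹‖ ^ 4 : ℝ) : ℂ) :=
    Complex.continuous_ofReal.comp (cI.norm.pow 4)
  set t : ℕ → ℂ := fun n => ∫ x, ((‖(1 - (r : ℂ) * ch x p)⁻¹‖ ^ 4 : ℝ) : ℂ) * ch x p ^ n ∂mu with ht
  have hr2 : 0 < 1 - r ^ 2 := by nlinarith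
  -- pointwise relation
  have hpt : ∀ x : Om, ((‖(1 - (r : ℂ) * ch x p)⁻¹‖ ^ 2 : ℝ) : ℂ) =
      ((‖(1 - (r : ℂ) * ch x p)⁻¹‖ ^ 4 : ℝ) : ℂ) * ((1 + (r : ℂ) ^ 2) - r * ch x p - r * conj (ch x p)) := by
    intro x
    have h1 : ((‖1 - (r : ℂ) * ch x p‖ ^ 2 : ℝ) : ℂ) = (1 + (r : ℂ) ^ 2) - r * ch x p - r * conj (ch x p) := by
      rw [← Complex.normSq_eq_norm_sq, ← Complex.mul_conj, map_sub, map_mul, map_one, Complex.conj_ofReal]
      linear_combination ((r : ℂ) ^ 2) * hzz x
    rw [← h1, ← Complex.ofReal_mul]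
    congr 1
    rw [norm_inv]
    have h2 : ‖1 - (r : ℂ) * ch x p‖ ≠ 0 := norm_ne_zero_iff.mpr (hne x)
    field_simp
  have hA := fun n => c1a_tilt hp hr0 hr1 n
  have e1 : ∀ n : ℕ, ((r ^ (n + 1) / (1 - r ^ 2) : ℝ) : ℂ) = (1 + (r : ℂ) ^ 2) * t (n + 1) - r * t (n + 2) - r * t n := by
    intro n
    rw [← hA (n + 1), ht]
    simp only
    rw [← integral_const_mul, ← integral_const_mul, ← integral_const_mul, ← integral_sub, ← integral_sub]
    · congr 1
      funext x
      rw [hpt x]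
      have h1 := hzz x
      rw [pow_succ (ch x p) (n + 1), pow_succ (ch x p) n]
      linear_combination (-(r : ℂ) * ((‖(1 - (r : ℂ) * ch x p)⁻¹‖ ^ 4 : ℝ) : ℂ) * ch x p ^ n) * h1
    · exact integrable_of_continuous ((continuous_const.mul (cq.mul (hc.pow _))).sub
        (continuous_const.mul (cq.mul (hc.pow _))))
    · exact integrable_of_continuous (continuous_const.mul (cq.mul (hc.pow _)))
    · exact integrable_of_continuous (continuous_const.mul (cq.mul (hc.pow _)))
    · exact integrable_of_continuous (continuous_const.mul (cq.mul (hc.pow _)))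
  have e0 : ((1 / (1 - r ^ 2) : ℝ) : ℂ) = (1 + (r : ℂ) ^ 2) * t 0 - r * t 1 - r * conj (t 1) := by
    have h0 := hA 0
    rw [pow_zero] at h0
    rw [← h0, ht]
    simp only
    rw [← integral_conj, ← integral_const_mul, ← integral_const_mul, ← integral_const_mul, ← integral_sub, ← integral_sub]
    · congr 1
      funext x
      rw [hpt x, map_mul, Complex.conj_ofReal]
      simp only [pow_zero, pow_one]
      ring
    · exact integrable_of_continuous ((continuous_const.mul (cq.mul (hc.pow _))).sub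
        (continuous_const.mul (cq.mul (hc.pow _))))
    · exact integrable_of_continuous (continuous_const.mul (Complex.continuous_conj.comp (cq.mul (hc.pow _))))
    · exact integrable_of_continuous (continuous_const.mul (cq.mul (hc.pow _)))
    · exact integrable_of_continuous (continuous_const.mul (cq.mul (hc.pow _)))
  have htb : ∀ n : ℕ, ‖t n‖ ≤ ((1 - r)⁻¹) ^ 4 := by
    intro n
    refine (norm_integral_le_of_norm_le_const (C := ((1 - r)⁻¹) ^ 4) (Eventually.of_forall fun x => ?_)).trans ?_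
    · rw [norm_mul, norm_pow, hn x, one_pow, mul_one, Complex.norm_real, Real.norm_of_nonneg (by positivity)]
      exact pow_le_pow_left₀ (norm_nonneg _) (hlow2 x) 4
    · simp
  -- the candidate
  set a : ℝ := (1 + r ^ 2) / (1 - r ^ 2) ^ 3 with ha
  set b : ℝ := 1 / (1 - r ^ 2) ^ 2 with hb
  set e : ℕ → ℂ := fun n => t n - ((r ^ n * (a + n * b) : ℝ) : ℂ) with he
  have r1 : ∀ n : ℕ, r ^ (n + 1) / (1 - r ^ 2) = (1 + r ^ 2) * (r ^ (n + 1) * (a + (n + 1 : ℕ) * b)) -
      r * (r ^ (n + 2) * (a + (n + 2 : ℕ) * b)) - r * (r ^ n * (a + n * b)) := by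
    intro n
    rw [ha, hb]
    push_cast
    field_simp
    ring
  have r0 : 1 / (1 - r ^ 2) = (1 + r ^ 2) * a - r * (r * (a + b)) - r * (r * (a + b)) := by
    rw [ha, hb]
    field_simp
    ring
  have f1 : ∀ n : ℕ, (1 + (r : ℂ) ^ 2) * e (n + 1) - r * e (n + 2) - r * e n = 0 := by
    intro n
    have h1 := e1 n
    rw [r1 n] at h1
    rw [he]
    simp only
    push_cast at h1 ⊢
    linear_combination -h1
  have f0 : (1 + (r : ℂ) ^ 2) * e 0 - r * e 1 - r * conj (e 1) = 0 := by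
    have h1 := e0
    rw [r0] at h1
    rw [he]
    simp only [map_sub, Complex.conj_ofReal]
    push_cast at h1 ⊢
    linear_combination -h1
  have g0 : ∀ n : ℕ, e (n + 1) - r * e n = 0 := by
    refine c1a_seq hr0 hr1 (C := 2 * ((1 - r)⁻¹) ^ 4 + b) (a := fun n => e (n + 1) - r * e n) (fun n => ?_)
      fun n => ?_
    · have hb0 : 0 ≤ b := by positivity
      have h1 : e (n + 1) - r * e n = t (n + 1) - r * t n - ((r ^ (n + 1) * b : ℝ) : ℂ) := by
        rw [he]
        simp only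
        push_cast
        ring
      show ‖e (n + 1) - r * e n‖ ≤ _
      rw [h1]
      have h2 : ‖((r ^ (n + 1) * b : ℝ) : ℂ)‖ ≤ b := by
        rw [Complex.norm_real, Real.norm_of_nonneg (by positivity)]
        exact mul_le_of_le_one_left hb0 (pow_le_one₀ hr0 hr1.le)
      have h3 : ‖(r : ℂ) * t n‖ ≤ ((1 - r)⁻¹) ^ 4 := by
        rw [norm_mul, Complex.norm_real, Real.norm_of_nonneg hr0]
        calc r * ‖t n‖ ≤ 1 * ((1 - r)⁻¹) ^ 4 := mul_le_mul hr1.le (htb n) (norm_nonneg _) (by norm_num)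
          _ = _ := one_mul _
      have h4 := norm_sub_le (t (n + 1) - r * t n) (((r ^ (n + 1) * b : ℝ) : ℂ))
      have h5 := norm_sub_le (t (n + 1)) (r * t n)
      have h6 := htb (n + 1)
      linarith
    · show e (n + 1) - r * e n = r * (e (n + 1 + 1) - r * e (n + 1))
      have h1 := f1 n
      linear_combination h1
  have he1 : e 1 = r * e 0 := by
    have := g0 0
    rw [zero_add] at this
    linear_combination this
  have he0 : e 0 = 0 := by
    rw [he1, map_mul, Complex.conj_ofReal] at f0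
    have h1 := congrArg Complex.re f0
    have h2 := congrArg Complex.im f0
    simp only [Complex.sub_re, Complex.mul_re, Complex.add_re, Complex.one_re, Complex.ofReal_re, Complex.ofReal_im,
      Complex.sub_im, Complex.mul_im, Complex.add_im, Complex.one_im, Complex.conj_re, Complex.conj_im, Complex.zero_re,
      Complex.zero_im, pow_two] at h1 h2
    have h3 : (1 - r ^ 2) * (e 0).re = 0 := by linear_combination h1
    have h4 : (1 + r ^ 2) * (e 0).im = 0 := by linear_combination h2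
    have h5 : (e 0).re = 0 := by
      rcases mul_eq_zero.mp h3 with h | h
      · linarith
      · exact h
    have h6 : (e 0).im = 0 := by
      rcases mul_eq_zero.mp h4 with h | h
      · nlinarith
      · exact h
    exact Complex.ext h5 h6
  have hall : ∀ n : ℕ, e n = 0 := by
    intro n
    induction n with
    | zero => exact he0
    | succ n ih =>
      have := g0 n
      rw [ih, mul_zero, sub_zero] at this
      exact this
  have := hall m
  rw [he] at this
  simp only at this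
  rw [sub_eq_zero] at this
  rw [ht] at this
  simp only at this
  rw [this]
  congr 1
  rw [hb]
  ring

/-- local form of the integral for complex functions -/
theorem integral_nu_locC {s : ℂ} {L : ℝ} (h : Adm s L) {u v : ℝ} (hu : 1 ≤ u) (huv : u ≤ v)
    (hv : v ≤ Real.exp L) {f : Om → ℂ} (hf : Continuous f) (hd : DependsOn f (coo u v)) :
    ∫ x, f x ∂(nu4 s L) = ((nz4 s u v : ℝ) : ℂ) * ∫ x, ((‖ZZ s u v x‖ ^ 4 : ℝ) : ℂ) * f x ∂mu := by
  have := (isProd_nu h).prob
  have cZ : Continuous (ZZ s u v) := continuous_ZZ h hv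
  have cfr : Continuous fun x => (f x).re := Complex.continuous_re.comp hf
  have cfi : Continuous fun x => (f x).im := Complex.continuous_im.comp hf
  have dec : ∀ (ν : Measure Om) [IsProbabilityMeasure ν] {F : Om → ℂ}, Continuous F → ∫ x, F x ∂ν =
      ((∫ x, (F x).re ∂ν : ℝ) : ℂ) + ((∫ x, (F x).im ∂ν : ℝ) : ℂ) * Complex.I := by
    intro ν _ F hF
    have h1 := integral_re_add_im (𝕜 := ℂ) (f := F) (μ := ν) (c0_integrable ν hF)
    rw [← h1]
    simp
  have cF : Continuous fun x => ((‖ZZ s u v x‖ ^ 4 : ℝ) : ℂ) * f x :=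
    (Complex.continuous_ofReal.comp (cZ.norm.pow 4)).mul hf
  rw [dec (nu4 s L) hf, dec mu cF, integral_nu_loc h hu huv hv cfr (fun x y hxy => congrArg Complex.re (hd hxy)),
    integral_nu_loc h hu huv hv cfi (fun x y hxy => congrArg Complex.im (hd hxy))]
  have e1 : ∀ x, (((‖ZZ s u v x‖ ^ 4 : ℝ) : ℂ) * f x).re = ‖ZZ s u v x‖ ^ 4 * (f x).re := fun x =>
    Complex.re_ofReal_mul _ _
  have e2 : ∀ x, (((‖ZZ s u v x‖ ^ 4 : ℝ) : ℂ) * f x).im = ‖ZZ s u v x‖ ^ 4 * (f x).im := fun x =>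
    Complex.im_ofReal_mul _ _
  simp only [e1, e2]
  push_cast
  ring

/-- moments of one prime under the tilted measure -/
theorem nu_ch {L : ℝ} (hL : 1 ≤ L) {p : ℕ} (hp : p.Prime) (hpL : (p : ℝ) ≤ Real.exp L) (m : ℕ) :
    ∫ x, ch x p ^ m ∂(nu4 0 L) =
      ((((Real.sqrt p)⁻¹) ^ m * (1 + m * ((1 - (p : ℝ)⁻¹) / (1 + (p : ℝ)⁻¹))) : ℝ) : ℂ) := by
  have h2 : (2 : ℝ) ≤ p := by exact_mod_cast hp.two_le
  have hprm : prm ((p : ℝ) - 1 / 2) p = {p} := by
    ext q
    rw [mem_prm, Finset.mem_singleton]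
    constructor
    · rintro ⟨h3, h4, h5⟩
      have h6 : q ≤ p := by exact_mod_cast h5
      have h7 : p ≤ q := by
        by_contra h8
        have h9 : q + 1 ≤ p := by omega
        have h10 : (q : ℝ) + 1 ≤ p := by exact_mod_cast h9
        linarith
      omega
    · rintro rfl
      exact ⟨hp, by linarith, le_rfl⟩
  have hd : DependsOn (fun x : Om => ch x p ^ m) (coo ((p : ℝ) - 1 / 2) p) := by
    intro x y hxy
    simp only
    rw [ch_prime x hp, ch_prime y hp, hxy p ⟨by linarith, le_rfl⟩]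
  rw [integral_nu_locC (adm_zero hL) (by linarith) (by linarith) hpL (f := fun x : Om => ch x p ^ m)
    ((continuous_ch p).pow m) hd]
  set r : ℝ := (Real.sqrt p)⁻¹ with hr
  have hr0 : 0 ≤ r := by positivity
  have hr2 : r ^ 2 = (p : ℝ)⁻¹ := by
    rw [hr, inv_pow, Real.sq_sqrt (by linarith)]
  have hp1 : (p : ℝ)⁻¹ < 1 := inv_lt_one_of_one_lt₀ (by linarith)
  have hr1 : r < 1 := by
    by_contra h3
    have h4 : 1 ≤ r := not_lt.1 h3
    have h5 : 1 ≤ r ^ 2 := one_le_pow₀ h4
    rw [hr2] at h5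
    linarith
  have e1 : ∀ x : Om, ZZ 0 ((p : ℝ) - 1 / 2) p x = (1 - (r : ℂ) * ch x p)⁻¹ := by
    intro x
    unfold ZZ
    rw [hprm, Finset.prod_singleton, zp_zero hp]
  have e2 : nz4 0 ((p : ℝ) - 1 / 2) p = (1 - r ^ 2) ^ 3 / (1 + r ^ 2) := by
    unfold nz4
    rw [hprm, Finset.prod_singleton, zp_zero hp, Complex.norm_real, Real.norm_of_nonneg hr0,
      Gsum_two (sq_nonneg r) (by rw [hr2]; exact hp1), inv_div]
  simp only [e1]
  rw [e2, c1a_tilt4 hp hr0 hr1 m, ← Complex.ofReal_mul]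
  congr 1
  have h3 : 1 - r ^ 2 ≠ 0 := by rw [hr2]; linarith
  have h4 : 1 + r ^ 2 ≠ 0 := by positivity
  rw [← hr2]
  field_simp

end Pool.Agent.LibFG78
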