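import Mathlib
import Pool.Agent.LibFG78.A1m
import Pool.Agent.LibFG78.BAll
import Pool.Agent.LibFG78.C1b
import Pool.Agent.LibMM99.T24
import Pool.Agent.LibMM99.K3

set_option autoImplicit false

namespace Pool.Agent.LibFG78

open MeasureTheory Filter Topology Pool.Agent.LibMM99 Pool.Agent.LibTG78
open scoped ComplexConjugate

theorem A4_core {k : ℝ} (hk : 0 < k) {δ : ℝ} (hδ : 0 < δ) (hδ1 : δ < 1) {w : ℝ → ℂ} {Λ : ℝ}
    (hw : IsWeight w Λ) {ε : ℝ} (hε : 0 < ε) :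
    ∃ (l Θ L0 : ℝ), ∀ L : ℝ, L0 ≤ L → ∃ Φ Ξ : Om → ℝ,
      DependsOn Φ (coo (Real.exp (δ * L)) (Real.exp L)) ∧ DependsOn Ξ (coo (Real.exp (δ * L)) (Real.exp L)) ∧
      (∀ x, |‖Atop w δ L x‖ ^ k - Φ x| ≤ Ξ x) ∧ (∀ s : ℂ, Adm s L → ∫ x, Ξ x ∂(nu4 s L) ≤ ε) ∧
      |∫ x, Φ x ∂(nu4 0 L) - l| ≤ ε ∧ IsPolyR (Θ * L) Φ ∧ IsPolyR (Θ * L) Ξ := by
  set m : ℕ := ⌈k⌉₊ with hm
  have hks : k ≤ m := Nat.le_ceil k
  obtain ⟨C1, hC1, h1⟩ := rpow_sub_le hk hks
  obtain ⟨Cw, h2⟩ := window_approx_nu hδ hδ1 hw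
  obtain ⟨CA, LA, hCA, h3⟩ := top_moment_nu hδ hδ1.le Λ m
  -- choice of ρ
  set W : ℝ := 1 + CA + |Cw m| with hW
  have hW0 : 0 < W := by positivity
  set ρ : ℝ := min 1 (ε / (3 * C1 * W)) with hρ
  have hρ0 : 0 < ρ := lt_min one_pos (by positivity)
  have hρ1 : ρ ≤ 1 := min_le_left _ _
  have hρ2 : C1 * ρ * W ≤ ε / 3 := by
    have : ρ ≤ ε / (3 * C1 * W) := min_le_right _ _
    calc C1 * ρ * W ≤ C1 * (ε / (3 * C1 * W)) * W := by gcongr
      _ = ε / 3 := by field_simp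
  obtain ⟨D, hD, h4⟩ := h1 ρ hρ0 hρ1
  obtain ⟨M, hM1, h5'⟩ := h2 (ε / (3 * D)) (by positivity)
  obtain ⟨LQ, h5⟩ := h5' M le_rfl
  obtain ⟨Q, hQ⟩ : ∃ Q : MvPolynomial (Fin M) ℂ, Q = Qw w δ M := ⟨_, rfl⟩
  rw [← hQ] at h5
  obtain ⟨v, LV, hv, h6⟩ := GG_moment_nu hδ hδ1
  obtain ⟨p, q, h7, h8⟩ := trig_taylor_gen M hk Q v (ε / 3) hv (by positivity)
  obtain ⟨l, hl⟩ : ∃ l : ℂ, Tendsto (fun L : ℝ => ∫ x,
      MvPolynomial.eval (Sum.elim (fun j => GG δ M L j x) (fun j => conj (GG δ M L j x))) p ∂(nu4 0 L)) atTop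
      (𝓝 l) := ⟨_, eval_tendsto_nu hδ hδ1 p⟩
  obtain ⟨L1, hL1⟩ := (Metric.tendsto_atTop.1 hl) ε hε
  obtain ⟨Θp, hΘp⟩ := eval_poly δ hδ hδ1 p
  obtain ⟨Θq, hΘq⟩ := eval_poly δ hδ hδ1 q
  obtain ⟨ΘQ, hΘQ⟩ := eval_poly δ hδ hδ1 (MvPolynomial.rename Sum.inl Q)
  have hlog2 : 0 < Real.log 2 := Real.log_pos (by norm_num)
  set Θ1 : ℝ := |Θp| + |Θq| + |ΘQ| + |Λ| + 1 with hΘ1
  have hΘ1' : 1 ≤ Θ1 := by rw [hΘ1]; have := abs_nonneg Θp; have := abs_nonneg Θq; have := abs_nonneg ΘQ; have := abs_nonneg Λ; linarith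
  refine ⟨l.re, (2 * Θ1 + 4 + 2 * m * Θ1 + |Real.log (C1 * ρ)| + |Real.log D| + 1 + Θ1 + 4), max (max LA LQ) (max L1 (max 1 LV)), ?_⟩
  intro L hL
  have hLA : LA ≤ L := le_trans (le_max_left _ _) (le_trans (le_max_left _ _) hL)
  have hLQ : LQ ≤ L := le_trans (le_max_right _ _) (le_trans (le_max_left _ _) hL)
  have hLL1 : L1 ≤ L := le_trans (le_max_left _ _) (le_trans (le_max_right _ _) hL)
  have hL2 : 1 ≤ L := le_trans (le_max_left _ _) (le_trans (le_max_right _ _) (le_trans (le_max_right _ _) hL))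
  have hL3 : LV ≤ L := le_trans (le_max_right _ _) (le_trans (le_max_right _ _) (le_trans (le_max_right _ _) hL))
  have hL0 : 0 < L := by linarith
  have hAdm0 : Adm 0 L := A1m_adm hL2
  set A : Om → ℂ := Atop w δ L with hA
  set G : Fin M → Om → ℂ := fun j => GG δ M L j with hG
  set z : Om → (Fin M ⊕ Fin M → ℂ) := fun x => Sum.elim (fun j => G j x) (fun j => conj (G j x)) with hz
  have hAc : Continuous A := continuous_DS _ _
  have hGc : ∀ j, Continuous (G j) := fun j => continuous_DS _ _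
  have hevalQ : ∀ x, MvPolynomial.eval (fun j => GG δ M L j x) Q = MvPolynomial.eval (z x) (MvPolynomial.rename Sum.inl Q) := by
    intro x
    rw [MvPolynomial.eval_rename]
    rfl
  have hΛ0 : 0 ≤ Λ := by linarith [hw.one_le]
  -- polynomials
  have hAp : IsPoly (Θ1 * L) A := by
    have := IsPoly.ds (u := Real.exp (δ * L)) (v := Real.exp L) (X := Real.exp L) (A := Λ) (Real.one_le_exp hL0.le) hΛ0
      (fun n => w (Real.log n / L)) (by
        intro n hn _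
        rw [Real.log_exp]
        calc ‖w (Real.log n / L)‖ ≤ 1 + Λ := hw.norm_le (div_nonneg (Real.log_natCast_nonneg n) hL0.le)
          _ ≤ Real.exp Λ := by linarith [Real.add_one_le_exp Λ]
          _ ≤ Real.exp (Λ * L) := by apply Real.exp_le_exp.2; nlinarith)
    rw [Real.log_exp] at this
    apply this.mono
    have h9 : Λ + 1 ≤ Θ1 := by
      rw [hΘ1]
      have := le_abs_self Λ
      have := abs_nonneg Θp; have := abs_nonneg Θq; have := abs_nonneg ΘQ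
      linarith
    gcongr
  have hPp : IsPoly (Θ1 * L) (fun x => MvPolynomial.eval (z x) p) := by
    apply (hΘp L hL2).mono
    have h9 : Θp ≤ Θ1 := by
      rw [hΘ1]
      have := le_abs_self Θp
      have := abs_nonneg Λ; have := abs_nonneg Θq; have := abs_nonneg ΘQ
      linarith
    gcongr
  have hPq : IsPoly (Θ1 * L) (fun x => MvPolynomial.eval (z x) q) := by
    apply (hΘq L hL2).mono
    have h9 : Θq ≤ Θ1 := by
      rw [hΘ1]
      have := le_abs_self Θq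
      have := abs_nonneg Λ; have := abs_nonneg Θp; have := abs_nonneg ΘQ
      linarith
    gcongr
  have hPQ : IsPoly (Θ1 * L) (fun x => MvPolynomial.eval (fun j => GG δ M L j x) Q) := by
    have h10 : (fun x => MvPolynomial.eval (fun j => GG δ M L j x) Q) = fun x => MvPolynomial.eval (z x) (MvPolynomial.rename Sum.inl Q) := by
      funext x; exact hevalQ x
    rw [h10]
    apply (hΘQ L hL2).mono
    have h9 : ΘQ ≤ Θ1 := by
      rw [hΘ1]
      have := le_abs_self ΘQ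
      have := abs_nonneg Λ; have := abs_nonneg Θq; have := abs_nonneg Θp
      linarith
    gcongr
  set B : Om → ℂ := fun x => MvPolynomial.eval (fun j => GG δ M L j x) Q with hB
  have hBc : Continuous B := hPQ.continuous
  have hΘL : 0 ≤ Θ1 * L := by positivity
  -- dependence
  have hAd : DependsOn A (coo (Real.exp (δ * L)) (Real.exp L)) := dependsOn_DS_smo _ _ _ _
  have hpd := dependsOn_eval hδ hδ1 hL0.le p
  have hqd := dependsOn_eval hδ hδ1 hL0.le q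
  have hBd : DependsOn B (coo (Real.exp (δ * L)) (Real.exp L)) := by
    have := dependsOn_eval hδ hδ1 hL0.le (MvPolynomial.rename Sum.inl Q)
    intro x y hxy
    have h10 := this hxy
    simp only [hB]
    rw [hevalQ, hevalQ]
    exact h10
  have hABp : IsPoly (Θ1 * L + 1) (fun x => A x - B x) := hAp.sub hPQ
  refine ⟨fun x => (MvPolynomial.eval (z x) p).re,
    fun x => D * ‖A x - B x‖ ^ 2 + C1 * ρ * (1 + ‖A x‖ ^ (2 * m) + ‖B x‖ ^ (2 * m)) + (MvPolynomial.eval (z x) q).re,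
    ?_, ?_, ?_, ?_, ?_, ?_, ?_⟩
  · intro x y hxy
    exact congrArg Complex.re (hpd hxy)
  · intro x y hxy
    have h13 : MvPolynomial.eval (z x) q = MvPolynomial.eval (z y) q := hqd hxy
    simp only
    rw [hAd hxy, hBd hxy, h13]
  · intro x
    have h14 := h7 (fun j => G j x)
    have h15 := h4 (A x) (B x)
    have h16 : |‖A x‖ ^ k - (MvPolynomial.eval (z x) p).re| ≤ |‖A x‖ ^ k - ‖B x‖ ^ k| + |‖B x‖ ^ k - (MvPolynomial.eval (z x) p).re| := by
      have := abs_sub_le (‖A x‖ ^ k) (‖B x‖ ^ k) ((MvPolynomial.eval (z x) p).re)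
      exact this
    exact le_trans h16 (add_le_add h15 h14)
  · intro s hs
    have := (isProd_nu hs).prob
    obtain ⟨h11, h12⟩ := h5 s L hs hLQ
    have i1 : Integrable (fun x => ‖A x - B x‖ ^ 2) (nu4 s L) := A0_int (by fun_prop)
    have i2 : Integrable (fun x => ‖A x‖ ^ (2 * m)) (nu4 s L) := A0_int (by fun_prop)
    have i3 : Integrable (fun x => ‖B x‖ ^ (2 * m)) (nu4 s L) := A0_int (by fun_prop)
    have i4 : Integrable (fun x => (MvPolynomial.eval (z x) q).re) (nu4 s L) :=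
      A0_int (Complex.continuous_re.comp hPq.continuous)
    have e1 : ∫ x, (D * ‖A x - B x‖ ^ 2 + C1 * ρ * (1 + ‖A x‖ ^ (2 * m) + ‖B x‖ ^ (2 * m)) + (MvPolynomial.eval (z x) q).re) ∂(nu4 s L) =
        D * ∫ x, ‖A x - B x‖ ^ 2 ∂(nu4 s L) + C1 * ρ * (1 + (∫ x, ‖A x‖ ^ (2 * m) ∂(nu4 s L)) + ∫ x, ‖B x‖ ^ (2 * m) ∂(nu4 s L)) +
          ∫ x, (MvPolynomial.eval (z x) q).re ∂(nu4 s L) := by
      have i5 : Integrable (fun x => D * ‖A x - B x‖ ^ 2) (nu4 s L) := i1.const_mul D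
      have i6 : Integrable (fun x => 1 + ‖A x‖ ^ (2 * m)) (nu4 s L) := (integrable_const 1).add i2
      have i7 : Integrable (fun x => 1 + ‖A x‖ ^ (2 * m) + ‖B x‖ ^ (2 * m)) (nu4 s L) := i6.add i3
      have i8 : Integrable (fun x => C1 * ρ * (1 + ‖A x‖ ^ (2 * m) + ‖B x‖ ^ (2 * m))) (nu4 s L) := i7.const_mul _
      have i9 : Integrable (fun x => D * ‖A x - B x‖ ^ 2 + C1 * ρ * (1 + ‖A x‖ ^ (2 * m) + ‖B x‖ ^ (2 * m))) (nu4 s L) := i5.add i8
      rw [integral_add i9 i4, integral_add i5 i8, integral_const_mul, integral_const_mul, integral_add i6 i3,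
        integral_add (integrable_const 1) i2]
      simp
    rw [e1]
    have e2 : D * ∫ x, ‖A x - B x‖ ^ 2 ∂(nu4 s L) ≤ ε / 3 := by
      calc D * ∫ x, ‖A x - B x‖ ^ 2 ∂(nu4 s L) ≤ D * (ε / (3 * D)) := by gcongr
        _ = ε / 3 := by field_simp
    have e3 : C1 * ρ * (1 + (∫ x, ‖A x‖ ^ (2 * m) ∂(nu4 s L)) + ∫ x, ‖B x‖ ^ (2 * m) ∂(nu4 s L)) ≤ ε / 3 := by
      refine le_trans ?_ hρ2
      have h17 := h3 w hw s L hs hLA
      have h18 := h12 m
      have h19 := le_abs_self (Cw m)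
      apply mul_le_mul_of_nonneg_left _ (by positivity)
      rw [hW]
      linarith
    have e4 : ∫ x, (MvPolynomial.eval (z x) q).re ∂(nu4 s L) ≤ ε / 3 := by
      refine (h8 Om _ (nu4 s L) inferInstance G (fun j => (hGc j).aestronglyMeasurable)
        (fun j t => A0_int (by have := hGc j; fun_prop)) ?_).2.2
      intro j t
      exact h6 s L hs hL3 M j t
    linarith
  · have := (isProd_nu hAdm0).prob
    have h23 := hL1 L hLL1
    rw [dist_eq_norm] at h23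
    have h24 : ∫ x, (MvPolynomial.eval (z x) p).re ∂(nu4 0 L) = (∫ x, MvPolynomial.eval (z x) p ∂(nu4 0 L)).re := by
      have := integral_re (𝕜 := ℂ) (f := fun x => MvPolynomial.eval (z x) p) (μ := nu4 0 L) (A0_int hPp.continuous)
      simpa using this
    rw [h24, ← Complex.sub_re]
    exact le_trans (Complex.abs_re_le_norm _) h23.le
  · apply hPp.re.mono
    have : 1 ≤ L := hL2
    have h25 : 0 ≤ |Real.log (C1 * ρ)| := abs_nonneg _
    have h26 : 0 ≤ |Real.log D| := abs_nonneg _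
    have h27 : (0 : ℝ) ≤ m := Nat.cast_nonneg m
    have h28 : Θ1 * L + 1 ≤ (Θ1 + 1) * L := by linarith
    refine le_trans h28 ?_
    apply mul_le_mul_of_nonneg_right _ hL0.le
    have : 0 ≤ 2 * (m : ℝ) * Θ1 := by positivity
    linarith
  · have j1 : IsPolyR (2 * (Θ1 * L + 1)) (fun x => ‖A x - B x‖ ^ 2) := hABp.normSq
    have j2 : IsPolyR (2 * m * (Θ1 * L)) (fun x => ‖A x‖ ^ (2 * m)) := hAp.normPow m
    have j3 : IsPolyR (2 * m * (Θ1 * L)) (fun x => ‖B x‖ ^ (2 * m)) := hPQ.normPow m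
    have j4 : IsPolyR (Θ1 * L + 1) (fun x => (MvPolynomial.eval (z x) q).re) := hPq.re
    have jD : IsPolyR |Real.log D| (fun _ => D) := by
      apply IsPolyR.const D (abs_nonneg _)
      rw [abs_of_pos hD]
      calc D = Real.exp (Real.log D) := (Real.exp_log hD).symm
        _ ≤ _ := Real.exp_le_exp.2 (le_abs_self _)
    have jC : IsPolyR |Real.log (C1 * ρ)| (fun _ => C1 * ρ) := by
      apply IsPolyR.const (C1 * ρ) (abs_nonneg _)
      have : 0 < C1 * ρ := by positivity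
      rw [abs_of_pos this]
      calc C1 * ρ = Real.exp (Real.log (C1 * ρ)) := (Real.exp_log this).symm
        _ ≤ _ := Real.exp_le_exp.2 (le_abs_self _)
    have j5 : IsPolyR (2 * m * (Θ1 * L)) (fun _ => (1 : ℝ)) := by
      apply IsPolyR.const 1 (by positivity)
      rw [abs_one]
      exact Real.one_le_exp (by positivity)
    have j6 := ((j5.add j2).add (j3.mono (by linarith : 2 * m * (Θ1 * L) ≤ 2 * m * (Θ1 * L) + 1)))
    have j7 := jC.mul j6
    have j8 := jD.mul j1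
    set m1 : ℝ := |Real.log D| + 2 * (Θ1 * L + 1) + (|Real.log (C1 * ρ)| + (2 * m * (Θ1 * L) + 1 + 1)) with hm1
    have h25 : 0 ≤ |Real.log (C1 * ρ)| := abs_nonneg _
    have h26 : 0 ≤ |Real.log D| := abs_nonneg _
    have h27 : (0 : ℝ) ≤ m := Nat.cast_nonneg m
    have h29 : 0 ≤ 2 * (m : ℝ) * (Θ1 * L) := by positivity
    have j9 := (j8.mono (show _ ≤ m1 by rw [hm1]; linarith)).add (j7.mono (show _ ≤ m1 by rw [hm1]; linarith))
    have j10 := j9.add (j4.mono (show _ ≤ m1 + 1 by rw [hm1]; linarith))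
    apply j10.mono
    rw [hm1]
    have h30 : |Real.log D| ≤ |Real.log D| * L := le_mul_of_one_le_right h26 hL2
    have h31 : |Real.log (C1 * ρ)| ≤ |Real.log (C1 * ρ)| * L := le_mul_of_one_le_right h25 hL2
    nlinarith

/-- A4: polynomial approximation of the top part -/
theorem top_approx_nu {β : ℝ} (hβ : 0 < β) {δ : ℝ} (hδ : 0 < δ) (hδ1 : δ < 1) {w : ℝ → ℂ} {Λ : ℝ}
    (hw : IsWeight w Λ) {ε : ℝ} (hε : 0 < ε) :
    ∃ (l Θ L0 : ℝ), ∀ L : ℝ, L0 ≤ L → ∃ Φ Ξ : Om → ℝ,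
      DependsOn Φ (coo (Real.exp (δ * L)) (Real.exp L)) ∧ DependsOn Ξ (coo (Real.exp (δ * L)) (Real.exp L)) ∧
      (∀ x, |‖Atop w δ L x‖ ^ β - Φ x| ≤ Ξ x) ∧ (∀ s : ℂ, Adm s L → ∫ x, Ξ x ∂(nu4 s L) ≤ ε) ∧
      |∫ x, Φ x ∂(nu4 0 L) - l| ≤ ε ∧ IsPolyR (Θ * L) Φ ∧ IsPolyR (Θ * L) Ξ :=
  A4_core hβ hδ hδ1 hw hε

end Pool.Agent.LibFG78
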