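import Mathlib
import Pool.Agent.LibFG78.B01
import Pool.Agent.LibMM99.K7

/-! # The constant of the low part -/

set_option autoImplicit false

namespace Pool.Agent.LibFG78

open MeasureTheory Filter Topology Pool.Agent.LibMM99 Pool.Agent.LibTG78
open scoped ComplexConjugate

theorem norm_zp_zero {p : ℕ} (hp : p.Prime) : ‖zp 0 p‖ ^ 2 = (p : ℝ)⁻¹ := by
  have hp0 : (0 : ℝ) < p := by exact_mod_cast hp.pos
  unfold zp
  rw [Complex.norm_natCast_cpow_of_pos hp.pos]
  have h1 : (-(1 / 2 : ℂ) - 0).re = -(1 / 2) := by norm_num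
  rw [h1, ← Real.rpow_natCast, ← Real.rpow_mul hp0.le]
  have h2 : -(1 / 2 : ℝ) * ((2 : ℕ) : ℝ) = -1 := by norm_num
  rw [h2, Real.rpow_neg_one]

/-- the constant of the low part: `PS_limit` of LibMM99/K7.lean for `k = β + 4` divided by `PS_limit` for `4` -/
theorem PSnz_limit {β : ℝ} (hβ : 0 < β) :
    Tendsto (fun t : ℝ => PS (β + 4) 1 t * nz4 0 1 t / (Real.log t) ^ gam4 β) atTop
      (𝓝 (Real.exp (Real.eulerMascheroniConstant * gam4 β) * (LibZM.Aconst ((β + 4) / 2) / LibZM.Aconst 2))) := by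
  have hk : 0 < β + 4 := by linarith
  have hg : (β + 4) ^ 2 / 4 = gam4 β + 4 := by
    unfold gam4
    ring
  have hA : 0 < LibZM.Aconst 2 := LibZM.Aconst_pos (by norm_num)
  have h4 := PS_limit (k := 4) (by norm_num)
  have e4 : (4 : ℝ) ^ 2 / 4 = 4 := by norm_num
  have e2 : (4 : ℝ) / 2 = 2 := by norm_num
  rw [e4, e2] at h4
  have h1 := (PS_limit hk).div h4 (by positivity)
  rw [hg] at h1
  have hval : Real.exp (Real.eulerMascheroniConstant * (gam4 β + 4)) * LibZM.Aconst ((β + 4) / 2) /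
      (Real.exp (Real.eulerMascheroniConstant * 4) * LibZM.Aconst 2) =
      Real.exp (Real.eulerMascheroniConstant * gam4 β) * (LibZM.Aconst ((β + 4) / 2) / LibZM.Aconst 2) := by
    rw [mul_add, Real.exp_add]
    have := (Real.exp_pos (Real.eulerMascheroniConstant * 4)).ne'
    field_simp
  rw [hval] at h1
  refine h1.congr' ?_
  filter_upwards [eventually_ge_atTop 2] with t ht
  have hlog : 0 < Real.log t := Real.log_pos (by linarith)
  simp only [Pi.div_apply]
  rw [Real.rpow_add hlog, nz_zero_eq]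
  have h2 : 0 < Real.log t ^ gam4 β := Real.rpow_pos_of_pos hlog _
  have h3 : 0 < Real.log t ^ (4 : ℝ) := Real.rpow_pos_of_pos hlog _
  have h5 : PS 4 1 t ≠ 0 := (lt_of_lt_of_le one_pos (one_le_PS (by norm_num) 1 t)).ne'
  field_simp

end Pool.Agent.LibFG78
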