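import Mathlib
import Pool.Agent.LibFG78.A3
import Pool.Agent.LibFG78.A4
import Pool.Agent.LibMM99.T25
import Pool.Agent.LibFG78.C3

set_option autoImplicit false

namespace Pool.Agent.LibFG78

open MeasureTheory Filter Topology Pool.Agent.LibMM99 Pool.Agent.LibTG78
open scoped ComplexConjugate

theorem A5_pt {k : ℝ} (hk : 0 < k) {r : ℕ} (hr : k ≤ 2 * r) {η Cη : ℝ} (hη : 0 ≤ η) (hCη : 0 ≤ Cη)
    (hpd : ∀ a b : ℂ, |‖a + b‖ ^ k - ‖a‖ ^ k| ≤ η * ‖a‖ ^ k + Cη * ‖b‖ ^ k)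
    {F A R S : ℂ} {B U Y X Z : ℝ} (tele : S = F * A - R) (nB : 0 ≤ B) (nU : 0 ≤ U) (s1 : |‖F‖ ^ k - B| ≤ U)
    (apA : |‖A‖ ^ k - Y| ≤ X) (apR : ‖R‖ ^ k ≤ Z) :
    |‖F * A‖ ^ k - B * Y| ≤ U * (1 + ‖A‖ ^ (2 * r)) + B * X ∧
    |‖S‖ ^ k - B * Y| ≤ η * (B * Y + (U * (1 + ‖A‖ ^ (2 * r)) + B * X)) + Cη * Z +
      (U * (1 + ‖A‖ ^ (2 * r)) + B * X) := by
  have pt1 : |‖F * A‖ ^ k - B * Y| ≤ U * (1 + ‖A‖ ^ (2 * r)) + B * X := by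
    have e1 : ‖F * A‖ ^ k = ‖F‖ ^ k * ‖A‖ ^ k := by
      rw [norm_mul, Real.mul_rpow (norm_nonneg _) (norm_nonneg _)]
    have e2 : ‖F‖ ^ k * ‖A‖ ^ k - B * Y = (‖F‖ ^ k - B) * ‖A‖ ^ k + B * (‖A‖ ^ k - Y) := by ring
    rw [e1, e2]
    refine le_trans (abs_add_le _ _) ?_
    rw [abs_mul, abs_mul, abs_of_nonneg nB, abs_of_nonneg (show 0 ≤ ‖A‖ ^ k by positivity)]
    have e3 := A1_rpow_le hk hr (norm_nonneg A)
    have e6 : 0 ≤ ‖A‖ ^ k := by positivity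
    apply add_le_add
    · exact mul_le_mul s1 e3 e6 nU
    · exact mul_le_mul_of_nonneg_left apA nB
  refine ⟨pt1, ?_⟩
  generalize hG : U * (1 + ‖A‖ ^ (2 * r)) + B * X = G at pt1 ⊢
  have e1 : S = F * A + (-R) := by rw [tele]; ring
  have e2 := hpd (F * A) (-R)
  rw [← e1, norm_neg] at e2
  have e3 := (abs_le.1 pt1).2
  have e5 : |‖S‖ ^ k - B * Y| ≤ |‖S‖ ^ k - ‖F * A‖ ^ k| + |‖F * A‖ ^ k - B * Y| := abs_sub_le _ _ _
  have e6 : η * ‖F * A‖ ^ k ≤ η * (B * Y + G) := mul_le_mul_of_nonneg_left (by linarith) hη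
  have e7 : Cη * ‖R‖ ^ k ≤ Cη * Z := mul_le_mul_of_nonneg_left apR hCη
  linarith

theorem A5_int1 {ν : Measure Om} (hν : IsProd ν) {r : ℕ} {A : Om → ℂ} {B U X : Om → ℝ} (cA : Continuous A) (cB : Continuous B)
    (cU : Continuous U) (cX : Continuous X) {C D : Set ℕ} (dB : DependsOn B C) (dU : DependsOn U C)
    (dA : DependsOn A D) (dX : DependsOn X D) (disj : Disjoint C D) (nU : ∀ x, 0 ≤ U x)
    (nX : ∀ x, 0 ≤ X x) {b u a ξ : ℝ} (hb : 0 ≤ b) (hu : 0 ≤ u) (iB : ∫ x, B x ∂ν ≤ b) (iU : ∫ x, U x ∂ν ≤ u)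
    (iA : ∫ x, ‖A x‖ ^ (2 * r) ∂ν ≤ a) (iX : ∫ x, X x ∂ν ≤ ξ) :
    ∫ x, (U x * (1 + ‖A x‖ ^ (2 * r)) + B x * X x) ∂ν ≤ u * (1 + a) + b * ξ := by
  have := hν.prob
  have cA2 : Continuous fun x => 1 + ‖A x‖ ^ (2 * r) := continuous_const.add (cA.norm.pow _)
  have jUA : Integrable (fun x => U x * (1 + ‖A x‖ ^ (2 * r))) ν := A0_int (cU.mul cA2)
  have jBX : Integrable (fun x => B x * X x) ν := A0_int (cB.mul cX)
  have iUA : ∫ x, U x * (1 + ‖A x‖ ^ (2 * r)) ∂ν = (∫ x, U x ∂ν) * (1 + ∫ x, ‖A x‖ ^ (2 * r) ∂ν) := by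
    rw [hν.indep U (fun x => 1 + ‖A x‖ ^ (2 * r)) _ _ cU cA2 dU (by
      intro x y hxy
      simp only
      rw [dA hxy]) disj, integral_add (integrable_const 1) (A0_int (by fun_prop))]
    simp
  have iBX : ∫ x, B x * X x ∂ν = (∫ x, B x ∂ν) * ∫ x, X x ∂ν := hν.indep _ _ _ _ cB cX dB dX disj
  have nA : 0 ≤ ∫ x, ‖A x‖ ^ (2 * r) ∂ν := integral_nonneg fun x => by positivity
  have nX' : 0 ≤ ∫ x, X x ∂ν := integral_nonneg nX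
  have nU' : 0 ≤ ∫ x, U x ∂ν := integral_nonneg nU
  rw [integral_add jUA jBX, iUA, iBX]
  exact add_le_add (mul_le_mul iU (by linarith) (by linarith) hu) (mul_le_mul iB iX nX' hb)

theorem A5_int2 {ν : Measure Om} [IsProbabilityMeasure ν] {k : ℝ} (hk : 0 < k) {A F R S : Om → ℂ} {Φ Ξ Z : Om → ℝ} (cA : Continuous A)
    (cF : Continuous F) (cR : Continuous R) (cS : Continuous S) (cΦ : Continuous Φ) (cΞ : Continuous Ξ)
    (cZ : Continuous Z) (tele : ∀ x, S x = F x * A x - R x) (pt1 : ∀ x, |‖F x * A x‖ ^ k - Φ x| ≤ Ξ x)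
    (apR : ∀ x, ‖R x‖ ^ k ≤ Z x) {s ρ ξ : ℝ} (iS : ∫ x, ‖S x‖ ^ k ∂ν ≤ s) (iZ : ∫ x, Z x ∂ν ≤ ρ)
    (iΞ : ∫ x, Ξ x ∂ν ≤ ξ) : ∫ x, |Φ x| ∂ν ≤ 2 ^ k * (s + ρ) + ξ := by
  have jΦ : Integrable (fun x => |Φ x|) ν := A0_int cΦ.abs
  have jΞ : Integrable Ξ ν := A0_int cΞ
  have jZ : Integrable Z ν := A0_int cZ
  have jS : Integrable (fun x => ‖S x‖ ^ k) ν := A0_int (by
    exact (continuous_norm.comp cS).rpow_const fun _ => Or.inr hk.le)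
  have jR : Integrable (fun x => ‖R x‖ ^ k) ν := A0_int (by
    exact (continuous_norm.comp cR).rpow_const fun _ => Or.inr hk.le)
  have jFA : Integrable (fun x => ‖F x * A x‖ ^ k) ν := A0_int (by
    exact (continuous_norm.comp (cF.mul cA)).rpow_const fun _ => Or.inr hk.le)
  have iR2 : ∫ x, ‖R x‖ ^ k ∂ν ≤ ρ := (integral_mono jR jZ apR).trans iZ
  have h2 : (0 : ℝ) ≤ 2 ^ k := by positivity
  have iFA : ∫ x, ‖F x * A x‖ ^ k ∂ν ≤ 2 ^ k * (s + ρ) := by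
    have e1 : ∀ x, ‖F x * A x‖ ^ k ≤ 2 ^ k * (‖S x‖ ^ k + ‖R x‖ ^ k) := by
      intro x
      have e2 : F x * A x = S x + R x := by rw [tele x]; ring
      rw [e2]
      exact norm_add_rpow_le hk _ _
    calc ∫ x, ‖F x * A x‖ ^ k ∂ν ≤ ∫ x, 2 ^ k * (‖S x‖ ^ k + ‖R x‖ ^ k) ∂ν :=
          integral_mono jFA ((jS.add jR).const_mul _) e1
      _ = 2 ^ k * ((∫ x, ‖S x‖ ^ k ∂ν) + ∫ x, ‖R x‖ ^ k ∂ν) := by
          rw [integral_const_mul, integral_add jS jR]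
      _ ≤ 2 ^ k * (s + ρ) := mul_le_mul_of_nonneg_left (by linarith) h2
  have e1 : ∀ x, |Φ x| ≤ ‖F x * A x‖ ^ k + Ξ x := by
    intro x
    have h1 := abs_le.1 (pt1 x)
    have h2 : 0 ≤ ‖F x * A x‖ ^ k := by positivity
    rw [abs_le]
    constructor <;> linarith [h1.1, h1.2]
  calc ∫ x, |Φ x| ∂ν ≤ ∫ x, (‖F x * A x‖ ^ k + Ξ x) ∂ν := integral_mono jΦ (jFA.add jΞ) e1
    _ = (∫ x, ‖F x * A x‖ ^ k ∂ν) + ∫ x, Ξ x ∂ν := integral_add jFA jΞ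
    _ ≤ _ := by linarith

theorem A5_int3 {ν : Measure Om} [IsProbabilityMeasure ν] {Φ Ξ Z : Om → ℝ} (cΦ : Continuous Φ) (cΞ : Continuous Ξ) (cZ : Continuous Z)
    {η Cη ε P N CR g : ℝ} (hη : 0 ≤ η) (hη1 : η ≤ 1) (hCη : 0 ≤ Cη) (hε : 0 ≤ ε) (hN : 0 ≤ N) (hη2 : η * P ≤ ε / 4)
    (hg : Cη * CR * g ≤ ε / 4) (iΦ : ∫ x, Φ x ∂ν ≤ P * N + ε / 12 * N) (iΞ : ∫ x, Ξ x ∂ν ≤ ε / 12 * N)
    (iZ : ∫ x, Z x ∂ν ≤ CR * g * N) :
    ∫ x, (η * (Φ x + Ξ x) + Cη * Z x + Ξ x) ∂ν ≤ ε * N := by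
  have jΦ : Integrable Φ ν := A0_int cΦ
  have jΞ : Integrable Ξ ν := A0_int cΞ
  have jZ : Integrable Z ν := A0_int cZ
  have j1 : Integrable (fun x => η * (Φ x + Ξ x)) ν := (jΦ.add jΞ).const_mul _
  have j2 : Integrable (fun x => Cη * Z x) ν := jZ.const_mul _
  have j3 : Integrable (fun x => η * (Φ x + Ξ x) + Cη * Z x) ν := j1.add j2
  rw [integral_add j3 jΞ, integral_add j1 j2, integral_const_mul, integral_const_mul, integral_add jΦ jΞ]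
  have hεN : 0 ≤ ε * N := mul_nonneg hε hN
  have e1 : η * ((∫ x, Φ x ∂ν) + ∫ x, Ξ x ∂ν) ≤ η * (P * N + ε / 6 * N) :=
    mul_le_mul_of_nonneg_left (by linarith) hη
  have e3 : η * (P * N) ≤ ε / 4 * N := by
    calc η * (P * N) = (η * P) * N := by ring
      _ ≤ _ := mul_le_mul_of_nonneg_right hη2 hN
  have e4 : η * (ε / 6 * N) ≤ 1 * (ε / 6 * N) := mul_le_mul_of_nonneg_right hη1 (by linarith)
  have e5 : Cη * ∫ x, Z x ∂ν ≤ ε / 4 * N := by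
    calc Cη * ∫ x, Z x ∂ν ≤ Cη * (CR * g * N) := mul_le_mul_of_nonneg_left iZ hCη
      _ = (Cη * CR * g) * N := by ring
      _ ≤ _ := mul_le_mul_of_nonneg_right hg hN
  have e2 : η * (P * N + ε / 6 * N) = η * (P * N) + η * (ε / 6 * N) := by ring
  linarith

theorem A5_mean {X Y Q c D N lA ε Ca Cb E εA : ℝ} (hε : 0 < ε) (hN : 0 < N) (hc : 0 ≤ c) (hCa : 0 < Ca)
    (hCb : 0 ≤ Cb) (hE : 0 ≤ E) (hD : 0 < D) (hDN : D ≤ N) (hX0 : 0 ≤ X) (hX : X ≤ Ca * N) (hεA : εA = ε / (24 * Ca))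
    (hY : |Y - lA| ≤ εA) (e2 : |Q / D - c| < 1) (e3 : |Q / D - c| < ε / (4 * (|lA| + 1)))
    (m1 : (1 - Cb * E) * Q ≤ X) (m2 : X ≤ (1 + Cb * E) * Q) (hK : Cb * E * (c + 1) * (|lA| + 1) ≤ ε / 4) :
    |X * Y - c * D * lA| ≤ ε * N := by
  have hlA : 0 < |lA| + 1 := by positivity
  have e4 : |Q - c * D| ≤ ε / (4 * (|lA| + 1)) * N := by
    have : Q - c * D = (Q / D - c) * D := by field_simp
    rw [this, abs_mul, abs_of_pos hD]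
    exact mul_le_mul e3.le hDN hD.le (by positivity)
  have e5 : Q ≤ (c + 1) * N := by
    have h1 : Q / D ≤ c + 1 := by
      have := (abs_lt.1 e2).2
      linarith
    rw [div_le_iff₀ hD] at h1
    exact le_trans h1 (mul_le_mul_of_nonneg_left hDN (by linarith))
  have e6 : |X - Q| ≤ Cb * E * Q := by
    rw [abs_le]
    constructor <;> linarith
  have hCE : 0 ≤ Cb * E := mul_nonneg hCb hE
  have e7 : |X - c * D| ≤ Cb * E * ((c + 1) * N) + ε / (4 * (|lA| + 1)) * N := by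
    have h1 : |X - c * D| ≤ |X - Q| + |Q - c * D| := abs_sub_le _ _ _
    have h2 : Cb * E * Q ≤ Cb * E * ((c + 1) * N) := mul_le_mul_of_nonneg_left e5 hCE
    linarith
  have e8 : X * Y - c * D * lA = X * (Y - lA) + (X - c * D) * lA := by ring
  rw [e8]
  refine le_trans (abs_add_le _ _) ?_
  rw [abs_mul, abs_mul, abs_of_nonneg hX0]
  have hεA0 : 0 < εA := by rw [hεA]; positivity
  have e9 : X * |Y - lA| ≤ (Ca * N) * εA := mul_le_mul hX hY (abs_nonneg _) (by positivity)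
  have e10 : (Ca * N) * εA = ε / 24 * N := by rw [hεA]; field_simp
  have e11 : |X - c * D| * |lA| ≤ (Cb * E * ((c + 1) * N) + ε / (4 * (|lA| + 1)) * N) * (|lA| + 1) :=
    mul_le_mul e7 (by linarith) (abs_nonneg _) (by positivity)
  have e12 : (Cb * E * ((c + 1) * N) + ε / (4 * (|lA| + 1)) * N) * (|lA| + 1) =
      (Cb * E * (c + 1) * (|lA| + 1)) * N + ε / 4 * N := by
    field_simp
  have e13 : (Cb * E * (c + 1) * (|lA| + 1)) * N ≤ ε / 4 * N := mul_le_mul_of_nonneg_right hK hN.le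
  have e14 : 0 < ε * N := by positivity
  linarith

theorem A5_poly {Θ L η Cη : ℝ} {A : Om → ℂ} {r : ℕ} {B U Y X Z : Om → ℝ} (hL : 1 ≤ L) (hΘ : 0 ≤ Θ)
    (g1 : IsPolyR (Θ * L) B) (g1' : IsPolyR (Θ * L) U) (g2 : IsPolyR (Θ * L) Y) (g2' : IsPolyR (Θ * L) X)
    (g3 : IsPolyR (Θ * L) Z) (g4 : IsPolyR (Θ * L) (fun _ => η)) (g5 : IsPolyR (Θ * L) (fun _ => Cη))
    (g6 : IsPolyR (Θ * L) (fun x => 1 + ‖A x‖ ^ (2 * r))) :
    IsPolyR ((3 * Θ + 4) * L) (fun x => B x * Y x) ∧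
    IsPolyR ((3 * Θ + 4) * L) (fun x => η * (B x * Y x + (U x * (1 + ‖A x‖ ^ (2 * r)) + B x * X x)) + Cη * Z x +
      (U x * (1 + ‖A x‖ ^ (2 * r)) + B x * X x)) := by
  have hΘL : 0 ≤ Θ * L := by positivity
  have g7 : IsPolyR (Θ * L + Θ * L) (fun x => B x * Y x) := g1.mul g2
  have g8 : IsPolyR (Θ * L + Θ * L + 1) (fun x => U x * (1 + ‖A x‖ ^ (2 * r)) + B x * X x) :=
    (g1'.mul g6).add (g1.mul g2')
  have g9 : IsPolyR (Θ * L + Θ * L + 1 + 1) (fun x => B x * Y x + (U x * (1 + ‖A x‖ ^ (2 * r)) + B x * X x)) :=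
    (g7.mono (by linarith)).add g8
  have g10 := g4.mul g9
  have g11 := (g5.mul g3).mono (show Θ * L + Θ * L ≤ Θ * L + (Θ * L + Θ * L + 1 + 1) by linarith)
  have g12 := g10.add g11
  have g8' := g8.mono (show Θ * L + Θ * L + 1 ≤ Θ * L + (Θ * L + Θ * L + 1 + 1) + 1 by linarith)
  refine ⟨g7.mono (by nlinarith), (g12.add g8').mono ?_⟩
  nlinarith

/-- choice of the parameters `η`, `δ` -/
theorem A5_par {k : ℝ} (hk : 0 < k) {γ : ℝ} (hγ0 : 0 < γ) {Cap CR ε : ℝ} (hCap : 0 < Cap)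
    (hCR : 0 < CR) (hε : 0 < ε) : ∃ η Cη δ : ℝ, 0 < η ∧ η ≤ 1 ∧ η * (2 ^ k * (Cap + CR)) ≤ ε / 4 ∧ 0 < Cη ∧
      (∀ a b : ℂ, |‖a + b‖ ^ k - ‖a‖ ^ k| ≤ η * ‖a‖ ^ k + Cη * ‖b‖ ^ k) ∧ 0 < δ ∧ δ < 1 ∧
      Cη * CR * δ ^ γ ≤ ε / 4 := by
  set P : ℝ := 2 ^ k * (Cap + CR) with hP
  have hP0 : 0 < P := by positivity
  set η : ℝ := min 1 (ε / (4 * P)) with hη
  have hη0 : 0 < η := lt_min one_pos (by positivity)
  have hη2 : η * P ≤ ε / 4 := by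
    calc η * P ≤ ε / (4 * P) * P := mul_le_mul_of_nonneg_right (min_le_right _ _) hP0.le
      _ = ε / 4 := by field_simp
  obtain ⟨Cη, hCη, hpd⟩ := pow_diff hk hη0
  have h1 : Tendsto (fun δ : ℝ => Cη * CR * δ ^ γ) (𝓝[>] 0) (𝓝 (Cη * CR * 0)) := by
    apply Tendsto.const_mul
    have h2 : Tendsto (fun x : ℝ => x ^ γ) (𝓝 0) (𝓝 ((0 : ℝ) ^ γ)) :=
      (Real.continuousAt_rpow_const 0 γ (Or.inr hγ0.le)).tendsto
    rw [Real.zero_rpow hγ0.ne'] at h2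
    exact h2.mono_left nhdsWithin_le_nhds
  rw [mul_zero] at h1
  have h3 : ∀ᶠ δ : ℝ in 𝓝[>] 0, Cη * CR * δ ^ γ < ε / 4 := h1.eventually (gt_mem_nhds (by positivity))
  have h4 : ∀ᶠ δ : ℝ in 𝓝[>] 0, δ ∈ Set.Ioo (0 : ℝ) 1 := Ioo_mem_nhdsGT one_pos
  obtain ⟨δ, h5, h6⟩ := (h3.and h4).exists
  exact ⟨η, Cη, δ, hη0, min_le_left _ _, hη2, hCη, hpd, h6.1, h6.2, h5.le⟩

/-- choice of `K` -/
theorem A5_K (Ka Kb KR d : ℝ) {Ca CA Cb c l ε : ℝ} (hε : 0 < ε) :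
    ∃ K : ℝ, Ka ≤ K ∧ Kb ≤ K ∧ KR ≤ K ∧ d ≤ K ∧
      Ca * Real.exp (-K / 20) * (1 + CA) ≤ ε / 24 ∧ Cb * Real.exp (-K / 20) * (c + 1) * (|l| + 1) ≤ ε / 4 := by
  have h1 : Tendsto (fun K : ℝ => Real.exp (-K / 20)) atTop (𝓝 0) := by
    have : (fun K : ℝ => Real.exp (-K / 20)) = fun K => Real.exp (-(K / 20)) := by
      funext K; rw [neg_div]
    rw [this]
    exact Real.tendsto_exp_neg_atTop_nhds_zero.comp (tendsto_id.atTop_div_const (by norm_num))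
  have h2 : Tendsto (fun K : ℝ => Ca * Real.exp (-K / 20) * (1 + CA)) atTop (𝓝 (Ca * 0 * (1 + CA))) :=
    (h1.const_mul _).mul_const _
  have h3 : Tendsto (fun K : ℝ => Cb * Real.exp (-K / 20) * (c + 1) * (|l| + 1)) atTop (𝓝 (Cb * 0 * (c + 1) * (|l| + 1))) :=
    ((h1.const_mul _).mul_const _).mul_const _
  rw [mul_zero, zero_mul] at h2
  rw [mul_zero, zero_mul, zero_mul] at h3
  have h4 := h2.eventually (gt_mem_nhds (show (0 : ℝ) < ε / 24 by positivity))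
  have h5 := h3.eventually (gt_mem_nhds (show (0 : ℝ) < ε / 4 by positivity))
  obtain ⟨K, h6, h7, h8, h9, h10, h11⟩ := (h4.and (h5.and ((eventually_ge_atTop Ka).and ((eventually_ge_atTop Kb).and
    ((eventually_ge_atTop KR).and (eventually_ge_atTop d)))))).exists
  exact ⟨K, h8, h9, h10, h11, h6.le, h7.le⟩

theorem A5_exp {γ e : ℝ} {δ L : ℝ} (hδ : 0 < δ) (hL : 0 < L) :
    (δ * L) ^ γ * (L / (δ * L)) ^ e = δ ^ (γ - e) * L ^ γ := by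
  have h1 : L / (δ * L) = δ⁻¹ := by field_simp
  rw [h1, Real.mul_rpow hδ.le hL.le, Real.inv_rpow hδ.le, ← Real.rpow_neg hδ.le]
  have h2 : δ ^ γ * L ^ γ * δ ^ (-e) = (δ ^ γ * δ ^ (-e)) * L ^ γ := by ring
  rw [h2, ← Real.rpow_add hδ]
  rfl

theorem A5_polyA {w : ℝ → ℂ} {Λ : ℝ} (hw : IsWeight w Λ) {L : ℝ} (hL : 1 ≤ L) (u v : ℝ) (r : ℕ) {Θ : ℝ}
    (hΘ : 2 * r * (Λ + 1) + 1 ≤ Θ) :
    IsPolyR (Θ * L) (fun x => 1 + ‖DS (smo u v (Real.exp L)) (fun n => w (Real.log n / L)) x‖ ^ (2 * r)) := by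
  have hΛ0 : 0 ≤ Λ := by linarith [hw.one_le]
  have h1 := (weighted_isPoly hw hL u v).normPow r
  have h2 : IsPolyR (2 * r * ((Λ + 1) * L)) (fun _ : Om => (1 : ℝ)) := by
    apply IsPolyR.const 1 (by positivity)
    rw [abs_one]
    exact Real.one_le_exp (by positivity)
  apply (h2.add h1).mono
  calc 2 * (r : ℝ) * ((Λ + 1) * L) + 1 ≤ (2 * (r : ℝ) * (Λ + 1) + 1) * L := by nlinarith
    _ ≤ _ := mul_le_mul_of_nonneg_right hΘ (by linarith)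

/-- the analytic part for one `L`, with all the data given -/
theorem A5_main {ν : Measure Om} (hν : IsProd ν) {k : ℝ} (hk : 0 < k) {r : ℕ} (hr : k ≤ 2 * r) {η Cη ε Cap CR Ca CA εA g N E : ℝ}
    (hη : 0 < η) (hη1 : η ≤ 1) (hη2 : η * (2 ^ k * (Cap + CR)) ≤ ε / 4) (hCη : 0 < Cη)
    (hpd : ∀ a b : ℂ, |‖a + b‖ ^ k - ‖a‖ ^ k| ≤ η * ‖a‖ ^ k + Cη * ‖b‖ ^ k) (hε : 0 < ε) (hCR : 0 < CR) (hCa : 0 < Ca)
    (hg1 : g ≤ 1) (hg : Cη * CR * g ≤ ε / 4) (hN : 0 < N) (hE : 0 ≤ E) (hεA : εA = ε / (24 * Ca))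
    (hK : Ca * E * (1 + CA) ≤ ε / 24)
    {F A R S : Om → ℂ} {B U Y X Z : Om → ℝ} (cA : Continuous A) (cF : Continuous F) (cR : Continuous R)
    (cS : Continuous S) (cB : Continuous B) (cU : Continuous U) (cY : Continuous Y) (cX : Continuous X)
    (cZ : Continuous Z) {C D : Set ℕ} (dB : DependsOn B C) (dU : DependsOn U C)
    (dA : DependsOn A D) (dX : DependsOn X D) (disj : Disjoint C D) (nB : ∀ x, 0 ≤ B x) (nU : ∀ x, 0 ≤ U x)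
    (tele : ∀ x, S x = F x * A x - R x) (s1 : ∀ x, |‖F x‖ ^ k - B x| ≤ U x) (apA : ∀ x, |‖A x‖ ^ k - Y x| ≤ X x)
    (apR : ∀ x, ‖R x‖ ^ k ≤ Z x) (iB : ∫ x, B x ∂ν ≤ Ca * N) (iU : ∫ x, U x ∂ν ≤ Ca * E * N)
    (iA : ∫ x, ‖A x‖ ^ (2 * r) ∂ν ≤ CA) (iX : ∫ x, X x ∂ν ≤ εA) (iZ : ∫ x, Z x ∂ν ≤ CR * g * N)
    (iS : ∫ x, ‖S x‖ ^ k ∂ν ≤ Cap * N) :
    ∫ x, |B x * Y x| ∂ν ≤ (2 ^ k * (Cap + CR)) * N + ε / 12 * N ∧
    ∫ x, (η * (B x * Y x + (U x * (1 + ‖A x‖ ^ (2 * r)) + B x * X x)) + Cη * Z x +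
      (U x * (1 + ‖A x‖ ^ (2 * r)) + B x * X x)) ∂ν ≤ ε * N := by
  have := hν.prob
  have pt := fun x => A5_pt (U := U x) (Y := Y x) (X := X x) (Z := Z x) hk hr hη.le hCη.le hpd (tele x) (nB x) (nU x)
    (s1 x) (apA x) (apR x)
  have nX : ∀ x, 0 ≤ X x := fun x => (abs_nonneg _).trans (apA x)
  have cΦ : Continuous fun x => B x * Y x := cB.mul cY
  have cΞ : Continuous fun x => U x * (1 + ‖A x‖ ^ (2 * r)) + B x * X x :=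
    (cU.mul (continuous_const.add (cA.norm.pow _))).add (cB.mul cX)
  have i1 : ∫ x, (U x * (1 + ‖A x‖ ^ (2 * r)) + B x * X x) ∂ν ≤ ε / 12 * N := by
    refine (A5_int1 hν cA cB cU cX dB dU dA dX disj nU nX (by positivity) (by positivity) iB iU iA iX).trans ?_
    have e4 : (Ca * E * N) * (1 + CA) = (Ca * E * (1 + CA)) * N := by ring
    have e5 : (Ca * N) * εA = ε / 24 * N := by rw [hεA]; field_simp
    have e6 : (Ca * E * (1 + CA)) * N ≤ ε / 24 * N := mul_le_mul_of_nonneg_right hK hN.le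
    linarith
  have hZ : CR * g * N ≤ CR * N := by
    have : CR * g ≤ CR := mul_le_of_le_one_right hCR.le hg1
    exact mul_le_mul_of_nonneg_right this hN.le
  have i2 : ∫ x, |B x * Y x| ∂ν ≤ (2 ^ k * (Cap + CR)) * N + ε / 12 * N := by
    refine (A5_int2 hk cA cF cR cS cΦ cΞ cZ tele (fun x => (pt x).1) apR iS (iZ.trans hZ) i1).trans (le_of_eq ?_)
    ring
  have i3 : ∫ x, B x * Y x ∂ν ≤ (2 ^ k * (Cap + CR)) * N + ε / 12 * N :=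
    (integral_mono (A0_int cΦ) (A0_int cΦ.abs) fun x => le_abs_self _).trans i2
  exact ⟨i2, A5_int3 cΦ cΞ cZ hη.le hη1 hCη.le hε.le hN.le hη2 hg i3 i1 iZ⟩

theorem A5_core {β : ℝ} (hβ : 0 < β) {w : ℝ → ℂ} {Λ : ℝ} (hw : IsWeight w Λ) :
    ∃ Ca : ℝ, 0 < Ca ∧ ∀ ε : ℝ, 0 < ε → ε ≤ 1 →
    ∃ (v Θ L0 : ℝ), 1 ≤ L0 ∧ 1 ≤ Θ ∧ ∀ L : ℝ, L0 ≤ L → ∃ Φ Ξ : Om → ℝ,
      (∀ x, |‖SS w L x‖ ^ β - Φ x| ≤ Ξ x) ∧
      (∀ s : ℂ, Adm s L → ∫ x, Ξ x ∂(nu4 s L) ≤ ε * L ^ gam4 β) ∧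
      (∀ s : ℂ, Adm s L → ∫ x, |Φ x| ∂(nu4 s L) ≤ Ca * L ^ gam4 β) ∧
      |∫ x, Φ x ∂(nu4 0 L) - v * L ^ gam4 β| ≤ ε * L ^ gam4 β ∧
      IsPolyR (Θ * L) Φ ∧ IsPolyR (Θ * L) Ξ ∧
      DependsOn Φ (coo 1 (Real.exp L)) ∧ DependsOn Ξ (coo 1 (Real.exp L)) := by
  obtain ⟨r, hr, hr2, hr'⟩ := A3_exists_r hβ
  obtain ⟨C0, Ca, K1, hC0, hCa, hK1, H⟩ := A3_machine hβ Λ hr hr'
  obtain ⟨Cap, hCap, hap⟩ := apriori_nu hβ Λ
  have hCap0 : 0 < Cap := by linarith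
  have hCa0 : 0 < Ca := by linarith
  obtain ⟨c, hPS⟩ : ∃ c : ℝ, Tendsto (fun t : ℝ => PS (β + 4) 1 t * nz4 0 1 t / (Real.log t) ^ gam4 β) atTop (𝓝 c) :=
    ⟨_, PSnz_limit hβ⟩
  have hc0 : 0 ≤ c := by
    refine ge_of_tendsto hPS ((eventually_ge_atTop (1 : ℝ)).mono fun t ht => ?_)
    have h1 : 1 ≤ PS (β + 4) 1 t := one_le_PS (by linarith) _ _
    have h2 := A1m_nz_pos 1 t
    have h3 : 0 ≤ (Real.log t) ^ gam4 β := Real.rpow_nonneg (Real.log_nonneg ht) _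
    positivity
  refine ⟨2 ^ β * (Cap + Ca) + 1, by positivity, ?_⟩
  intro ε hε hε1
  obtain ⟨η, Cη, δ, hη0, hη1, hη2, hCη, hpd, hδ, hδ1, hδ2⟩ :=
    A5_par hβ (γ := gam4 β - β * (r + 3) / 2) (by linarith) hCap0 hCa0 hε
  obtain ⟨lA, ΘA, LA, hA⟩ := top_approx_nu hβ hδ hδ1 hw (ε := ε / (24 * Ca)) (by positivity)
  obtain ⟨CA, LA', hCA, hA'⟩ := top_moment_nu hδ hδ1.le Λ r
  obtain ⟨K, hK1', -, -, hK4, hK5, hK6⟩ := A5_K K1 K1 K1 (10 + 5 * Real.log (1 / δ)) (Ca := Ca) (CA := CA)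
    (Cb := Ca) (c := c) (l := lA) hε
  have hK0 : 1 ≤ K := le_trans hK1 hK1'
  have hPS2 : Tendsto (fun L : ℝ => PS (β + 4) 1 (Real.exp (δ * L)) * nz4 0 1 (Real.exp (δ * L)) /
      (Real.log (Real.exp (δ * L))) ^ gam4 β) atTop (𝓝 c) :=
    hPS.comp (Real.tendsto_exp_atTop.comp (tendsto_id.const_mul_atTop hδ))
  have hκ0 : 0 ≤ gam4 β := A3_gam_nonneg hβ
  obtain ⟨L1, hL1⟩ := (Metric.tendsto_atTop.1 hPS2) (min 1 (ε / (4 * (|lA| + 1)))) (lt_min one_pos (by positivity))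
  obtain ⟨Θ1, hΘ1', t1, t2, t3, t4, t5, t6⟩ : ∃ Θ1 : ℝ, 0 ≤ Θ1 ∧ Ca * K ≤ Θ1 ∧ ΘA ≤ Θ1 ∧ Ca * K ≤ Θ1 ∧
      2 * (r : ℝ) * (Λ + 1) + 1 ≤ Θ1 ∧ |Real.log η| ≤ Θ1 ∧ |Real.log Cη| ≤ Θ1 := by
    have hΛ0 : 0 ≤ Λ := by linarith [hw.one_le]
    have n1 := abs_nonneg ΘA
    have n2 := abs_nonneg (Real.log η)
    have n3 := abs_nonneg (Real.log Cη)
    have n5 : 0 ≤ Ca * K := by positivity
    have n6 : 0 ≤ 2 * (r : ℝ) * (Λ + 1) := by positivity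
    have n7 := le_abs_self ΘA
    clear H hap hA hA' hPS hPS2 hL1 hpd
    refine ⟨Ca * K + |ΘA| + 2 * r * (Λ + 1) + 1 + |Real.log η| + |Real.log Cη|, ?_, ?_, ?_, ?_, ?_, ?_, ?_⟩ <;>
      linarith
  refine ⟨c * δ ^ gam4 β * lA, 3 * Θ1 + 4, max (max LA LA') (max L1 (max 1 (Real.log 2 / 2 / δ))),
    le_max_of_le_right (le_max_of_le_right (le_max_left _ _)), by linarith, ?_⟩
  intro L hL
  have hLA : LA ≤ L := le_trans (le_max_left _ _) (le_trans (le_max_left _ _) hL)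
  have hLA' : LA' ≤ L := le_trans (le_max_right _ _) (le_trans (le_max_left _ _) hL)
  have hLL1 : L1 ≤ L := le_trans (le_max_left _ _) (le_trans (le_max_right _ _) hL)
  have hL2 : 1 ≤ L := le_trans (le_max_left _ _) (le_trans (le_max_right _ _) (le_trans (le_max_right _ _) hL))
  have hL3 : Real.log 2 / 2 / δ ≤ L := le_trans (le_max_right _ _) (le_trans (le_max_right _ _) (le_trans (le_max_right _ _) hL))
  clear hL
  have hL0 : 0 < L := by linarith only [hL2]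
  obtain ⟨l0, J, h0, h0', hJ⟩ := exists_scales (lam := δ * L) (by rw [div_le_iff₀ hδ] at hL3; linarith only [hL3])
  have hlog2 : 0 < Real.log 2 := Real.log_pos (by norm_num)
  have hl0 : 0 < l0 := by linarith only [h0, hlog2]
  have hδL : δ * L ≤ L := mul_le_of_le_one_left hL0.le hδ1.le
  obtain ⟨b, e, ΞR, hbe, s1, s2, s3, apR, iR, pR, dR, m1, m2, q1, q2⟩ :=
    H w hw l0 K L J h0 h0' hK1' hL2 (by rw [hJ]; exact hδL) (kap_cond hδ hδ1.le hK4 hL0 hJ)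
  obtain ⟨ΦA, ΞA, dΦA, dΞA, apA, iΞA, iΦA, pΦA, pΞA⟩ := hA L hLA
  have tJ : tj l0 J = Real.exp (δ * L) := by unfold tj; rw [hJ]
  have tele := fun x => telescoping w l0 K L L J x
  rw [AA_zero hl0 h0' hL0.le] at tele
  have hAA : AA w l0 L L J = Atop w δ L := by
    unfold AA Atop
    rw [tJ]
  rw [hAA] at tele
  have iA : ∀ s : ℂ, Adm s L → ∫ x, ‖Atop w δ L x‖ ^ (2 * r) ∂(nu4 s L) ≤ CA := fun s hs => hA' w hw s L hs hLA'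
  have iS : ∀ s : ℂ, Adm s L → ∫ x, ‖SS w L x‖ ^ β ∂(nu4 s L) ≤ Cap * L ^ gam4 β := fun s hs => hap w hw s L hs
  have e1 := hL1 L hLL1
  clear H hap hA hA' hPS hPS2 hL1 hAA
  have hAdm0 : Adm 0 L := A1m_adm hL2
  have bc : ∀ i < J, Continuous (b i) := fun i _ => (hbe i).b_poly.continuous
  have ec : ∀ i < J, Continuous (e i) := fun i _ => (hbe i).e_poly.continuous
  have nB : ∀ x, 0 ≤ BB b J x := BB_nonneg fun i _ => (hbe i).b_nonneg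
  have nU : ∀ x, 0 ≤ UU r l0 K J b e J x := UU_nonneg (fun i _ => (hbe i).b_nonneg) (fun i _ => (hbe i).e_nonneg)
  have dB : DependsOn (BB b J) (coo 1 (tj l0 J)) := dependsOn_BB hl0.le fun i _ => (hbe i).b_dep
  have dU : DependsOn (UU r l0 K J b e J) (coo 1 (tj l0 J)) :=
    dependsOn_UU hl0.le (fun i _ => (hbe i).b_dep) (fun i _ => (hbe i).e_dep)
  rw [tJ] at dB dU
  have disj : Disjoint (coo 1 (Real.exp (δ * L))) (coo (Real.exp (δ * L)) (Real.exp L)) := coo_disjoint le_rfl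
  have hN0 : 0 < L ^ gam4 β := Real.rpow_pos_of_pos hL0 _
  have hδκ1 : δ ^ gam4 β ≤ 1 := Real.rpow_le_one hδ.le hδ1.le hκ0
  have hδN : (δ * L) ^ gam4 β = δ ^ gam4 β * L ^ gam4 β := Real.mul_rpow hδ.le hL0.le
  have hδN1 : (δ * L) ^ gam4 β ≤ L ^ gam4 β := by rw [hδN]; exact mul_le_of_le_one_left hN0.le hδκ1
  have hδN0 : 0 < (δ * L) ^ gam4 β := Real.rpow_pos_of_pos (mul_pos hδ hL0) _
  rw [hJ] at s2 s3 iR
  have hE0 : 0 < Real.exp (-K / 20) := Real.exp_pos _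
  have iB : ∀ s : ℂ, Adm s L → ∫ x, BB b J x ∂(nu4 s L) ≤ Ca * L ^ gam4 β := fun s hs =>
    le_trans (s2 s hs) (mul_le_mul_of_nonneg_left hδN1 hCa0.le)
  have iU : ∀ s : ℂ, Adm s L → ∫ x, UU r l0 K J b e J x ∂(nu4 s L) ≤ Ca * Real.exp (-K / 20) * L ^ gam4 β := fun s hs =>
    le_trans (s3 s hs) (mul_le_mul_of_nonneg_left hδN1 (mul_nonneg hCa0.le hE0.le))
  have iZ : ∀ s : ℂ, Adm s L → ∫ x, ΞR x ∂(nu4 s L) ≤ Ca * δ ^ (gam4 β - β * (r + 3) / 2) * L ^ gam4 β := by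
    intro s hs
    calc ∫ x, ΞR x ∂(nu4 s L) ≤ _ := iR s hs
      _ = Ca * ((δ * L) ^ gam4 β * (L / (δ * L)) ^ (β * (r + 3) / 2)) := by ring
      _ = _ := by rw [A5_exp hδ hL0]; ring
  have main := fun (s : ℂ) (hs : Adm s L) => A5_main (isProd_nu hs) (C := coo 1 (Real.exp (δ * L)))
    (D := coo (Real.exp (δ * L)) (Real.exp L)) hβ hr hη0 hη1
    hη2 hCη hpd hε hCa0 hCa0
    (Real.rpow_le_one hδ.le hδ1.le (by linarith only [hr'])) hδ2 hN0 hE0.le rfl hK5 (continuous_DS _ _ : Continuous (Atop w δ L))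
    continuous_Fj continuous_RR (continuous_DS _ _ : Continuous (SS w L)) (continuous_BB bc) (continuous_UU bc ec) pΦA.continuous
    pΞA.continuous pR.continuous dB dU (dependsOn_DS_smo _ _ _ _) dΞA disj nB nU tele s1 apA apR (iB s hs) (iU s hs)
    (iA s hs) (iΞA s hs) (iZ s hs) (iS s hs)
  have pt := fun x => A5_pt (U := UU r l0 K J b e J x) (Y := ΦA x) (X := ΞA x) (Z := ΞR x) hβ hr hη0.le hCη.le hpd
    (tele x) (nB x) (nU x) (s1 x) (apA x) (apR x)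
  have hΘ1L : Θ1 ≤ Θ1 * L := le_mul_of_one_le_right hΘ1' hL2
  have hKδ : Ca * K * (l0 * 2 ^ J) ≤ Θ1 * L := by
    rw [hJ]
    calc Ca * K * (δ * L) ≤ Ca * K * L := mul_le_mul_of_nonneg_left hδL (mul_nonneg hCa0.le (by linarith only [hK0]))
      _ ≤ _ := mul_le_mul_of_nonneg_right t1 hL0.le
  obtain ⟨p1, p2⟩ := A5_poly (A := Atop w δ L) (r := r) hL2 hΘ1' (q1.mono hKδ) (q2.mono hKδ)
    (pΦA.mono (mul_le_mul_of_nonneg_right t2 hL0.le))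
    (pΞA.mono (mul_le_mul_of_nonneg_right t2 hL0.le)) (pR.mono (mul_le_mul_of_nonneg_right t3 hL0.le))
    (isPolyR_const_of_pos hη0 (le_trans t5 hΘ1L)) (isPolyR_const_of_pos hCη (le_trans t6 hΘ1L))
    (A5_polyA hw hL2 (Real.exp (δ * L)) (Real.exp L) r t4)
  have sub1 : coo 1 (Real.exp (δ * L)) ⊆ coo 1 (Real.exp L) := fun p hp =>
    ⟨hp.1, hp.2.trans (Real.exp_le_exp.2 hδL)⟩
  have sub2 : coo (Real.exp (δ * L)) (Real.exp L) ⊆ coo 1 (Real.exp L) := fun p hp =>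
    ⟨lt_of_le_of_lt (Real.one_le_exp (mul_pos hδ hL0).le) hp.1, hp.2⟩
  have dA : DependsOn (Atop w δ L) (coo (Real.exp (δ * L)) (Real.exp L)) := dependsOn_DS_smo _ _ _ _
  refine ⟨_, _, fun x => (pt x).2, fun s hs => (main s hs).2, ?_, ?_, p1, p2, ?_, ?_⟩
  · intro s hs
    refine (main s hs).1.trans ?_
    have h1 : ε / 12 * L ^ gam4 β ≤ 1 * L ^ gam4 β := mul_le_mul_of_nonneg_right (by linarith only [hε1]) hN0.le
    linarith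
  · have := (isProd_nu hAdm0).prob
    have iΦ : ∫ x, BB b J x * ΦA x ∂(nu4 0 L) = (∫ x, BB b J x ∂(nu4 0 L)) * ∫ x, ΦA x ∂(nu4 0 L) :=
      (isProd_nu hAdm0).indep _ _ _ _ (continuous_BB bc) pΦA.continuous dB dΦA disj
    rw [iΦ]
    rw [Real.log_exp, dist_eq_norm, Real.norm_eq_abs, lt_min_iff] at e1
    have m1' := m1 0 hAdm0
    have m2' := m2 0 hAdm0
    rw [tJ] at m1' m2'
    have hQ0 : 0 ≤ PS (β + 4) 1 (Real.exp (δ * L)) * nz4 0 1 (Real.exp (δ * L)) :=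
      mul_nonneg (zero_le_one.trans (one_le_PS (by linarith) _ _)) (A1m_nz_pos _ _).le
    have m3 : ∫ x, BB b J x ∂(nu4 0 L) ≤ (1 + Ca * Real.exp (-K / 20)) *
        (PS (β + 4) 1 (Real.exp (δ * L)) * nz4 0 1 (Real.exp (δ * L))) := by
      refine m2'.trans (le_mul_of_one_le_left hQ0 ?_)
      have : 0 ≤ Ca * Real.exp (-K / 20) := mul_nonneg hCa0.le hE0.le
      linarith
    have h9 := A5_mean hε hN0 hc0 hCa0 hCa0.le hE0.le hδN0 hδN1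
      (integral_nonneg nB) (iB 0 hAdm0) rfl iΦA e1.1 e1.2 m1' m3 hK6
    rw [hδN] at h9
    have e8 : c * (δ ^ gam4 β * L ^ gam4 β) * lA = c * δ ^ gam4 β * lA * L ^ gam4 β := by ring
    rw [e8] at h9
    exact h9
  · intro x y hxy
    have h1 : BB b J x = BB b J y := dB fun p hp => hxy p (sub1 hp)
    have h2 : ΦA x = ΦA y := dΦA fun p hp => hxy p (sub2 hp)
    simp only [h1, h2]
  · intro x y hxy
    have h1 : BB b J x = BB b J y := dB fun p hp => hxy p (sub1 hp)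
    have h2 : ΦA x = ΦA y := dΦA fun p hp => hxy p (sub2 hp)
    have h3 : UU r l0 K J b e J x = UU r l0 K J b e J y := dU fun p hp => hxy p (sub1 hp)
    have h4 : ΞA x = ΞA y := dΞA fun p hp => hxy p (sub2 hp)
    have h5 : Atop w δ L x = Atop w δ L y := dA fun p hp => hxy p (sub2 hp)
    have h6 : ΞR x = ΞR y := dR hxy
    simp only [h1, h2, h3, h4, h5, h6]

/-- A5 -/
theorem approx_nu {β : ℝ} (hβ : 0 < β) {w : ℝ → ℂ} {Λ : ℝ} (hw : IsWeight w Λ) :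
    ∃ Ca : ℝ, 0 < Ca ∧ ∀ ε : ℝ, 0 < ε →
    ∃ (v Θ L0 : ℝ), 1 ≤ L0 ∧ 1 ≤ Θ ∧ ∀ L : ℝ, L0 ≤ L → ∃ Φ Ξ : Om → ℝ,
      (∀ x, |‖SS w L x‖ ^ β - Φ x| ≤ Ξ x) ∧
      (∀ s : ℂ, Adm s L → ∫ x, Ξ x ∂(nu4 s L) ≤ ε * L ^ gam4 β) ∧
      (∀ s : ℂ, Adm s L → ∫ x, |Φ x| ∂(nu4 s L) ≤ Ca * L ^ gam4 β) ∧
      |∫ x, Φ x ∂(nu4 0 L) - v * L ^ gam4 β| ≤ ε * L ^ gam4 β ∧
      IsPolyR (Θ * L) Φ ∧ IsPolyR (Θ * L) Ξ ∧
      DependsOn Φ (coo 1 (Real.exp L)) ∧ DependsOn Ξ (coo 1 (Real.exp L)) := by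
  obtain ⟨Ca, hCa, H⟩ := A5_core hβ hw
  refine ⟨Ca, hCa, fun ε hε => ?_⟩
  obtain ⟨v, Θ, L0, hL0, hΘ, h⟩ := H (min ε 1) (lt_min hε one_pos) (min_le_right _ _)
  refine ⟨v, Θ, L0, hL0, hΘ, fun L hL => ?_⟩
  obtain ⟨Φ, Ξ, h1, h2, h3, h4, h5, h6, h7, h8⟩ := h L hL
  have hp : 0 ≤ L ^ gam4 β := Real.rpow_nonneg (by linarith) _
  have hle : min ε 1 * L ^ gam4 β ≤ ε * L ^ gam4 β := mul_le_mul_of_nonneg_right (min_le_left _ _) hp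
  exact ⟨Φ, Ξ, h1, fun s hs => (h2 s hs).trans hle, h3, h4.trans hle, h5, h6, h7, h8⟩

end Pool.Agent.LibFG78
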