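import Mathlib
import Pool.Agent.LibFG78.BAll
import Pool.Agent.LibFG78.A3
import Pool.Agent.LibFG78.A1m
import Pool.Agent.LibTG78.C0

/-! # Restriction to smooth numbers under the tilted measure -/

set_option autoImplicit false

namespace Pool.Agent.LibFG78

open MeasureTheory Filter Topology Pool.Agent.LibMM99 Pool.Agent.LibTG78
open scoped ComplexConjugate

/-- rotations of the coordinates above `e ^ V` do not change functions of the lower coordinates -/
theorem c5a_rot {V θ : ℝ} {P : Om → ℝ} (dP : DependsOn P (coo 1 (Real.exp V))) (x : Om) :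
    P (T20a.rot V θ x) = P x := by
  apply dP
  intro p hp
  unfold T20a.rot T20a.shf
  rw [if_neg (not_lt.2 hp.2), add_zero]

/-- subharmonicity with a factor depending only on the lower coordinates -/
theorem c5a_smooth {k : ℝ} (hk : 0 < k) (w : ℝ → ℂ) {l0 V L : ℝ} (h2 : l0 < Real.log 2)
    {P : Om → ℝ} (cP : Continuous P) (hP : ∀ x, 0 ≤ P x) (dP : DependsOn P (coo 1 (Real.exp V))) :
    ∫ x, P x * ‖AA w l0 V L 0 x‖ ^ k ∂mu ≤ ∫ x, P x * ‖SS w L x‖ ^ k ∂mu := by
  have hSc : Continuous (fun x : Om => P x * ‖SS w L x‖ ^ k) := by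
    have h1 : Continuous (SS w L) := continuous_DS _ _
    exact cP.mul (h1.norm.rpow_const (fun x => Or.inr hk.le))
  have hAc : Continuous (fun x : Om => P x * ‖AA w l0 V L 0 x‖ ^ k) := by
    have h1 : Continuous (AA w l0 V L 0) := continuous_DS _ _
    exact cP.mul (h1.norm.rpow_const (fun x => Or.inr hk.le))
  have hSc2 : Continuous (fun z : Om × ℝ => P (T20a.rot V z.2 z.1) * ‖SS w L (T20a.rot V z.2 z.1)‖ ^ k) :=
    hSc.comp (T20a.continuous_rot V)
  have hpt : ∀ x, P x * ‖AA w l0 V L 0 x‖ ^ k ≤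
      (2 * Real.pi)⁻¹ * ∫ θ in (0 : ℝ)..(2 * Real.pi), P (T20a.rot V θ x) * ‖SS w L (T20a.rot V θ x)‖ ^ k := by
    intro x
    have := T20a.coeff_zero_rpow_le (T20a.Px w V L x) hk
    rw [T20a.coeff_Px w h2] at this
    simp_rw [T20a.eval_Px] at this
    simp_rw [c5a_rot dP x]
    rw [intervalIntegral.integral_const_mul]
    calc P x * ‖AA w l0 V L 0 x‖ ^ k ≤
        P x * ((2 * Real.pi)⁻¹ * ∫ θ in (0 : ℝ)..(2 * Real.pi), ‖SS w L (T20a.rot V θ x)‖ ^ k) :=
          mul_le_mul_of_nonneg_left this (hP x)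
      _ = _ := by ring
  have hbd : ∃ C : ℝ, ∀ x, P x * ‖SS w L x‖ ^ k ≤ C := by
    obtain ⟨C, hC⟩ := (isCompact_univ (X := Om)).exists_bound_of_continuousOn hSc.continuousOn
    refine ⟨C, fun x => ?_⟩
    exact (le_abs_self _).trans (hC x (Set.mem_univ x))
  obtain ⟨C, hC⟩ := hbd
  have hnn : ∀ x, 0 ≤ P x * ‖SS w L x‖ ^ k := fun x => mul_nonneg (hP x) (Real.rpow_nonneg (norm_nonneg _) _)
  have hpi : (0 : ℝ) ≤ 2 * Real.pi := by positivity
  have hintp : Integrable (Function.uncurry fun (x : Om) (θ : ℝ) =>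
      P (T20a.rot V θ x) * ‖SS w L (T20a.rot V θ x)‖ ^ k)
      (mu.prod (volume.restrict (Set.Ioc 0 (2 * Real.pi)))) := by
    refine Integrable.of_bound (C := C) ?_ ?_
    · exact hSc2.aestronglyMeasurable
    · refine Eventually.of_forall fun z => ?_
      simp only [Function.uncurry]
      rw [Real.norm_eq_abs, abs_of_nonneg (hnn _)]
      exact hC _
  have hswap : ∫ x, (2 * Real.pi)⁻¹ * (∫ θ in (0 : ℝ)..(2 * Real.pi),
      P (T20a.rot V θ x) * ‖SS w L (T20a.rot V θ x)‖ ^ k) ∂mu = ∫ x, P x * ‖SS w L x‖ ^ k ∂mu := by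
    rw [integral_const_mul]
    simp_rw [intervalIntegral.integral_of_le hpi]
    rw [integral_integral_swap hintp]
    have h3 : ∀ θ : ℝ, ∫ x, P (T20a.rot V θ x) * ‖SS w L (T20a.rot V θ x)‖ ^ k ∂mu =
        ∫ x, P x * ‖SS w L x‖ ^ k ∂mu := fun θ => T20a.integral_rot V θ hSc
    simp_rw [h3]
    rw [setIntegral_const]
    simp only [smul_eq_mul]
    rw [Measure.real, Real.volume_Ioc, sub_zero, ENNReal.toReal_ofReal hpi, ← mul_assoc,
      inv_mul_cancel₀ (by positivity), one_mul]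
  rw [← hswap]
  refine integral_mono (integrable_of_continuous hAc) ?_ hpt
  refine Integrable.const_mul ?_ _
  simp_rw [intervalIntegral.integral_of_le hpi]
  exact hintp.integral_prod_left

/-- the mean of the inverse fourth power of one factor of the Euler product -/
theorem c5a_inv_one {p : ℕ} (hp : p.Prime) (z : ℂ) :
    ∫ x, ‖1 - z * ch x p‖ ^ 4 ∂mu = 1 + 4 * ‖z‖ ^ 2 + ‖z‖ ^ 4 := by
  have hc : Continuous fun x : Om => ch x p := continuous_ch p
  have hpp : p * p ≠ 0 := mul_ne_zero hp.ne_zero hp.ne_zero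
  have e1 : ∀ x : Om, ‖1 - z * ch x p‖ ^ 4 = (1 + 4 * ‖z‖ ^ 2 + ‖z‖ ^ 4) -
      4 * (1 + ‖z‖ ^ 2) * (z * (ch x p * conj (ch x 1))).re + 2 * (z ^ 2 * (ch x (p * p) * conj (ch x 1))).re := by
    intro x
    have h1 : ‖ch x p‖ = 1 := norm_ch x p
    have h2 : ‖1 - z * ch x p‖ ^ 2 = 1 + ‖z‖ ^ 2 - 2 * (z * ch x p).re := by
      rw [← Complex.normSq_eq_norm_sq, Complex.normSq_sub, map_one, Complex.normSq_mul,
        Complex.normSq_eq_norm_sq z, Complex.normSq_eq_norm_sq (ch x p), h1, one_mul, Complex.conj_re]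
      ring
    have h3 : (z * ch x p).re ^ 2 = (‖z‖ ^ 2 + (z ^ 2 * (ch x p * ch x p)).re) / 2 := by
      have h4 : (z * ch x p).re * (z * ch x p).re + (z * ch x p).im * (z * ch x p).im = ‖z‖ ^ 2 := by
        have := Complex.normSq_eq_norm_sq (z * ch x p)
        rw [Complex.normSq_apply, norm_mul, h1, mul_one] at this
        exact this
      have h5 : z ^ 2 * (ch x p * ch x p) = (z * ch x p) * (z * ch x p) := by ring
      rw [h5, Complex.mul_re (z * ch x p) (z * ch x p)]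
      linarith
    rw [ch_one, map_one, mul_one, mul_one, ch_mul x hp.ne_zero hp.ne_zero]
    calc ‖1 - z * ch x p‖ ^ 4 = (‖1 - z * ch x p‖ ^ 2) ^ 2 := by ring
      _ = (1 + ‖z‖ ^ 2) ^ 2 - 4 * (1 + ‖z‖ ^ 2) * (z * ch x p).re + 4 * (z * ch x p).re ^ 2 := by
        rw [h2]; ring
      _ = _ := by rw [h3]; ring
  simp only [e1]
  have c1 : Continuous fun x : Om => z * (ch x p * conj (ch x 1)) :=
    continuous_const.mul (hc.mul (Complex.continuous_conj.comp (continuous_ch 1)))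
  have c2 : Continuous fun x : Om => z ^ 2 * (ch x (p * p) * conj (ch x 1)) :=
    continuous_const.mul ((continuous_ch (p * p)).mul (Complex.continuous_conj.comp (continuous_ch 1)))
  have i1 : Integrable (fun x : Om => 4 * (1 + ‖z‖ ^ 2) * (z * (ch x p * conj (ch x 1))).re) mu :=
    integrable_of_continuous (continuous_const.mul (Complex.continuous_re.comp c1))
  have i2 : Integrable (fun x : Om => 2 * (z ^ 2 * (ch x (p * p) * conj (ch x 1))).re) mu :=
    integrable_of_continuous (continuous_const.mul (Complex.continuous_re.comp c2))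
  have i3 : Integrable (fun _ : Om => 1 + 4 * ‖z‖ ^ 2 + ‖z‖ ^ 4) mu := integrable_const _
  have i4 : Integrable (fun x : Om => (1 + 4 * ‖z‖ ^ 2 + ‖z‖ ^ 4) -
      4 * (1 + ‖z‖ ^ 2) * (z * (ch x p * conj (ch x 1))).re) mu := i3.sub i1
  rw [integral_add i4 i2, integral_sub i3 i1, integral_const_mul, integral_const_mul]
  have e2 : ∀ (c : ℂ) (n : ℕ), n ≠ 0 → n ≠ 1 → ∫ x : Om, (c * (ch x n * conj (ch x 1))).re ∂mu = 0 := by
    intro c n hn hn1
    have i5 : Integrable (fun x : Om => c * (ch x n * conj (ch x 1))) mu :=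
      integrable_of_continuous (continuous_const.mul ((continuous_ch n).mul
        (Complex.continuous_conj.comp (continuous_ch 1))))
    have e3 : ∫ x : Om, (c * (ch x n * conj (ch x 1))).re ∂mu = (∫ x : Om, c * (ch x n * conj (ch x 1)) ∂mu).re := by
      have := integral_re (𝕜 := ℂ) (f := fun x : Om => c * (ch x n * conj (ch x 1))) (μ := mu) i5
      simpa using this
    rw [e3, integral_const_mul, integral_ch hn one_ne_zero, if_neg hn1, mul_zero, Complex.zero_re]
  have h6 : p * p ≠ 1 := by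
    have := hp.one_lt
    nlinarith
  rw [e2 z p hp.ne_zero hp.one_lt.ne', e2 (z ^ 2) (p * p) hpp h6]
  simp

theorem c5a_inv (s : ℂ) (S : Finset ℕ) (hS : ∀ p ∈ S, p.Prime) :
    ∫ x, ‖∏ p ∈ S, (1 - zp s p * ch x p)‖ ^ 4 ∂mu = ∏ p ∈ S, (1 + 4 * ‖zp s p‖ ^ 2 + ‖zp s p‖ ^ 4) := by
  classical
  induction S using Finset.induction_on with
  | empty => simp
  | insert a S ha ih =>
    have hcp : ∀ p : ℕ, Continuous fun x : Om => 1 - zp s p * ch x p := fun p =>
      continuous_const.sub (continuous_const.mul (continuous_ch p))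
    have e1 : ∀ x : Om, ‖∏ p ∈ insert a S, (1 - zp s p * ch x p)‖ ^ 4 =
        ‖1 - zp s a * ch x a‖ ^ 4 * ‖∏ p ∈ S, (1 - zp s p * ch x p)‖ ^ 4 := by
      intro x
      rw [Finset.prod_insert ha, norm_mul, mul_pow]
    have dch : ∀ p : ℕ, p.Prime → DependsOn (fun x : Om => ch x p) {p} := by
      intro p hp x y hxy
      simp only
      rw [ch_prime x hp, ch_prime y hp, hxy p rfl]
    simp only [e1]
    rw [integral_mul_indep (f := fun x : Om => ‖1 - zp s a * ch x a‖ ^ 4)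
      (g := fun x : Om => ‖∏ p ∈ S, (1 - zp s p * ch x p)‖ ^ 4) (S := {a}) (T := (S : Set ℕ))
      ((hcp a).norm.pow 4) ((continuous_finsetProd _ fun p _ => hcp p).norm.pow 4) ?_ ?_ ?_,
      c5a_inv_one (hS a (Finset.mem_insert_self a S)), ih fun p hp => hS p (Finset.mem_insert_of_mem hp),
      Finset.prod_insert ha]
    · intro x y hxy
      have := dch a (hS a (Finset.mem_insert_self a S)) hxy
      simp only at this ⊢
      rw [this]
    · intro x y hxy
      simp only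
      congr 2
      refine Finset.prod_congr rfl fun p hp => ?_
      have := dch p (hS p (Finset.mem_insert_of_mem hp)) (x := x) (y := y) (fun q hq => by
        rw [Set.mem_singleton_iff] at hq
        subst hq
        exact hxy q (Finset.mem_coe.2 hp))
      simp only at this
      rw [this]
    · rw [Set.disjoint_singleton_left]
      exact fun h => ha (Finset.mem_coe.1 h)

/-- the mean of the reciprocal of the density of the upper primes is bounded -/
theorem c5a_H {δ : ℝ} (hδ : 0 < δ) (hδ1 : δ ≤ 1) : ∃ C : ℝ, 1 ≤ C ∧ ∀ L : ℝ, 1 ≤ L → Real.log 2 / 2 ≤ δ * L →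
    ∫ x, (nz4 0 (Real.exp (δ * L)) (Real.exp L) * ‖ZZ 0 (Real.exp (δ * L)) (Real.exp L) x‖ ^ 4)⁻¹ ∂mu ≤ C := by
  obtain ⟨C1, hC1, h1⟩ := sum_inv_prime_le
  obtain ⟨c, hc, h2⟩ := nz_ge
  refine ⟨max 1 ((c * δ ^ 4)⁻¹ * (1 / δ * Real.exp C1) ^ 4), le_max_left _ _, fun L hL hδL => ?_⟩
  have hL0 : 0 < L := by linarith
  have hA := adm_zero hL
  have hu : Real.sqrt 2 ≤ Real.exp (δ * L) := sqrt_two_le_exp hδL
  have huv : Real.exp (δ * L) ≤ Real.exp L := Real.exp_le_exp.2 (by nlinarith)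
  have e0 : ∀ x : Om, (nz4 0 (Real.exp (δ * L)) (Real.exp L) * ‖ZZ 0 (Real.exp (δ * L)) (Real.exp L) x‖ ^ 4)⁻¹ =
      (nz4 0 (Real.exp (δ * L)) (Real.exp L))⁻¹ *
        ‖∏ p ∈ prm (Real.exp (δ * L)) (Real.exp L), (1 - zp 0 p * ch x p)‖ ^ 4 := by
    intro x
    unfold ZZ
    rw [mul_inv, Finset.prod_inv_distrib, norm_inv, inv_pow, inv_inv]
  simp only [e0]
  have hprm : ∀ p ∈ prm (Real.exp (δ * L)) (Real.exp L), p.Prime := fun p hp => (mem_prm.1 hp).1
  rw [integral_const_mul, c5a_inv 0 _ hprm]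
  have h3 := h2 0 L _ _ hA hu huv le_rfl
  rw [Real.log_exp, Real.log_exp] at h3
  have h4 : δ * L / L = δ := by field_simp
  rw [h4] at h3
  have hcδ : 0 < c * δ ^ 4 := by positivity
  have h5 : (nz4 0 (Real.exp (δ * L)) (Real.exp L))⁻¹ ≤ (c * δ ^ 4)⁻¹ := inv_anti₀ hcδ h3
  have h6 : ∏ p ∈ prm (Real.exp (δ * L)) (Real.exp L), (1 + 4 * ‖zp 0 p‖ ^ 2 + ‖zp 0 p‖ ^ 4) ≤
      (1 / δ * Real.exp C1) ^ 4 := by
    have h7 := h1 _ _ hu huv
    rw [Real.log_exp, Real.log_exp] at h7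
    have h8 : L / (δ * L) = 1 / δ := by field_simp
    rw [h8] at h7
    calc ∏ p ∈ prm (Real.exp (δ * L)) (Real.exp L), (1 + 4 * ‖zp 0 p‖ ^ 2 + ‖zp 0 p‖ ^ 4) ≤
        ∏ p ∈ prm (Real.exp (δ * L)) (Real.exp L), Real.exp (4 * (p : ℝ)⁻¹) := by
          refine Finset.prod_le_prod (fun p _ => by positivity) fun p hp => ?_
          have h9 := norm_zp_sq 0 (p := p) (hprm p hp).one_le
          have h10 : ‖zp 0 p‖ ^ 4 = (‖zp 0 p‖ ^ 2) ^ 2 := by ring
          rw [h10, h9]
          simp only [Complex.zero_re, mul_zero, neg_zero, Real.rpow_zero, mul_one]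
          have h11 : 0 ≤ (p : ℝ)⁻¹ := by positivity
          have h12 := Real.quadratic_le_exp_of_nonneg (x := 4 * (p : ℝ)⁻¹) (by positivity)
          nlinarith
      _ = Real.exp (4 * ∑ p ∈ prm (Real.exp (δ * L)) (Real.exp L), (p : ℝ)⁻¹) := by
          rw [Finset.mul_sum, Real.exp_sum]
      _ ≤ Real.exp (4 * (Real.log (1 / δ) + C1)) := Real.exp_le_exp.2 (by linarith)
      _ = (Real.exp (Real.log (1 / δ) + C1)) ^ 4 := by
          rw [← Real.exp_nat_mul]
          norm_num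
      _ = (1 / δ * Real.exp C1) ^ 4 := by rw [Real.exp_add, Real.exp_log (by positivity)]
  refine le_trans ?_ (le_max_right _ _)
  have h10 : 0 ≤ ∏ p ∈ prm (Real.exp (δ * L)) (Real.exp L), (1 + 4 * ‖zp 0 p‖ ^ 2 + ‖zp 0 p‖ ^ 4) :=
    Finset.prod_nonneg fun p _ => by positivity
  exact mul_le_mul h5 h6 h10 (by positivity)

/-- restriction to smooth numbers (`V = δ L`) costs at most a constant under the tilted measure -/
theorem smooth_le_nu {β : ℝ} (hβ : 0 < β) {δ : ℝ} (hδ : 0 < δ) (hδ1 : δ ≤ 1) : ∃ C : ℝ, 1 ≤ C ∧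
    ∀ (w : ℝ → ℂ) (l0 L : ℝ), 0 < l0 → l0 < Real.log 2 → 1 ≤ L → Real.log 2 / 2 ≤ δ * L →
    ∫ x, ‖AA w l0 (δ * L) L 0 x‖ ^ β ∂(nu4 0 L) ≤ C * ∫ x, ‖SS w L x‖ ^ β ∂(nu4 0 L) := by
  obtain ⟨C, hC, hH⟩ := c5a_H hδ hδ1
  refine ⟨C, hC, fun w l0 L hl0 hl2 hL hδL => ?_⟩
  have hL0 : 0 < L := by linarith
  have hA := adm_zero hL
  have hβ2 : 0 < β / 2 := by positivity
  set V : ℝ := δ * L with hV
  have hV0 : 0 ≤ V := by positivity
  have hVL : Real.exp V ≤ Real.exp L := Real.exp_le_exp.2 (by rw [hV]; nlinarith)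
  have h1V : 1 ≤ Real.exp V := Real.one_le_exp hV0
  have hH' := hH L hL hδL
  -- the functions
  set Rl : Om → ℝ := fun x => nz4 0 1 (Real.exp V) * ‖ZZ 0 1 (Real.exp V) x‖ ^ 4 with hRl
  set Rh : Om → ℝ := fun x => nz4 0 (Real.exp V) (Real.exp L) * ‖ZZ 0 (Real.exp V) (Real.exp L) x‖ ^ 4 with hRh
  set f : Om → ℝ := fun x => ‖AA w l0 V L 0 x‖ ^ (β / 2) with hf
  set g : Om → ℝ := fun x => ‖SS w L x‖ ^ (β / 2) with hg
  have cZl : Continuous (ZZ 0 1 (Real.exp V)) := continuous_ZZ hA hVL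
  have cZh : Continuous (ZZ 0 (Real.exp V) (Real.exp L)) := continuous_ZZ hA le_rfl
  have cRl : Continuous Rl := continuous_const.mul (cZl.norm.pow 4)
  have cRh : Continuous Rh := continuous_const.mul (cZh.norm.pow 4)
  have nl := nz_pos hA (u := 1) hVL
  have nh := nz_pos hA (u := Real.exp V) (v := Real.exp L) le_rfl
  have Rl0 : ∀ x, 0 ≤ Rl x := fun x => by positivity
  have Rh0 : ∀ x, 0 < Rh x := fun x => by
    have h1 : ZZ 0 (Real.exp V) (Real.exp L) x ≠ 0 := ZZ_ne_zero hA le_rfl x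
    have h2 : 0 < ‖ZZ 0 (Real.exp V) (Real.exp L) x‖ := norm_pos_iff.2 h1
    positivity
  have cf : Continuous f := by
    have h1 : Continuous (AA w l0 V L 0) := continuous_DS _ _
    exact h1.norm.rpow_const (fun x => Or.inr hβ2.le)
  have cg : Continuous g := by
    have h1 : Continuous (SS w L) := continuous_DS _ _
    exact h1.norm.rpow_const (fun x => Or.inr hβ2.le)
  have f0 : ∀ x, 0 ≤ f x := fun x => Real.rpow_nonneg (norm_nonneg _) _
  have g0 : ∀ x, 0 ≤ g x := fun x => Real.rpow_nonneg (norm_nonneg _) _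
  have hsq : ∀ t : ℝ, 0 ≤ t → t ^ β = (t ^ (β / 2)) ^ 2 := by
    intro t ht
    rw [← Real.rpow_natCast, ← Real.rpow_mul ht]
    congr 1
    push_cast
    ring
  have ff : ∀ x, ‖AA w l0 V L 0 x‖ ^ β = f x ^ 2 := fun x => hsq _ (norm_nonneg _)
  have gg : ∀ x, ‖SS w L x‖ ^ β = g x ^ 2 := fun x => hsq _ (norm_nonneg _)
  have dAA : DependsOn (AA w l0 V L 0) (coo 1 (Real.exp V)) := by
    intro x y hxy
    have h1 : DependsOn (AA w l0 V L 0) (coo (tj l0 0) (Real.exp V)) := dependsOn_DS_smo _ _ _ _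
    apply h1
    intro p hp
    apply hxy
    refine ⟨lt_of_le_of_lt ?_ hp.1, hp.2⟩
    unfold tj
    rw [pow_zero, mul_one]
    exact Real.one_le_exp hl0.le
  have df : DependsOn f (coo 1 (Real.exp V)) := by
    intro x y hxy
    simp only [hf]
    rw [dAA hxy]
  have dRl : DependsOn Rl (coo 1 (Real.exp V)) := by
    intro x y hxy
    simp only [hRl]
    rw [dependsOn_ZZ 0 1 (Real.exp V) hxy]
  have dRh : DependsOn Rh (coo (Real.exp V) (Real.exp L)) := by
    intro x y hxy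
    simp only [hRh]
    rw [dependsOn_ZZ 0 (Real.exp V) (Real.exp L) hxy]
  -- the integrals
  set X : ℝ := ∫ x, Rl x * f x ^ 2 ∂mu with hX
  set Z : ℝ := ∫ x, Rl x * Rh x * g x ^ 2 ∂mu with hZ
  set H : ℝ := ∫ x, (Rh x)⁻¹ ∂mu with hHdef
  have eX : ∫ x, ‖AA w l0 V L 0 x‖ ^ β ∂(nu4 0 L) = X := by
    have h1 : Continuous fun x : Om => ‖AA w l0 V L 0 x‖ ^ β := by
      have h1 : Continuous (AA w l0 V L 0) := continuous_DS _ _
      exact h1.norm.rpow_const (fun x => Or.inr hβ.le)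
    rw [integral_nu_loc hA le_rfl h1V hVL h1 (fun x y hxy => by rw [dAA hxy]), hX,
      ← integral_const_mul]
    congr 1
    funext x
    rw [ff x, hRl]
    ring
  have eZ : ∫ x, ‖SS w L x‖ ^ β ∂(nu4 0 L) = Z := by
    have h1 : Continuous fun x : Om => ‖SS w L x‖ ^ β := by
      have h1 : Continuous (SS w L) := continuous_DS _ _
      exact h1.norm.rpow_const (fun x => Or.inr hβ.le)
    rw [integral_nu hA h1, hZ, ← integral_const_mul]
    congr 1
    funext x
    rw [gg x, hRl, hRh, ← ZZ_mul 0 h1V hVL x, ← nz_mul 0 h1V hVL, norm_mul, mul_pow]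
    ring
  rw [eX, eZ]
  have hZ0 : 0 ≤ Z := integral_nonneg fun x => by
    have := Rl0 x; have := (Rh0 x).le
    positivity
  have hX0 : 0 ≤ X := integral_nonneg fun x => by
    have := Rl0 x
    positivity
  -- first step: rotation
  have step1 : X ≤ ∫ x, Rl x * f x * g x ∂mu := by
    have h1 := c5a_smooth hβ2 w (l0 := l0) (V := V) (L := L) hl2 (P := fun x => Rl x * f x) (cRl.mul cf)
      (fun x => mul_nonneg (Rl0 x) (f0 x)) (fun x y hxy => by simp only; rw [dRl hxy, df hxy])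
    have h2 : X = ∫ x, Rl x * f x * ‖AA w l0 V L 0 x‖ ^ (β / 2) ∂mu := by
      rw [hX]
      congr 1
      funext x
      simp only [hf]
      ring
    rw [h2]
    exact h1
  -- second step: Cauchy-Schwarz through the arithmetic-geometric mean inequality
  have cRi : Continuous fun x => (Rh x)⁻¹ := cRh.inv₀ fun x => (Rh0 x).ne'
  have iX : Integrable (fun x => Rl x * f x ^ 2 * (Rh x)⁻¹) mu :=
    integrable_of_continuous ((cRl.mul (cf.pow 2)).mul cRi)
  have iZ : Integrable (fun x => Rl x * Rh x * g x ^ 2) mu :=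
    integrable_of_continuous ((cRl.mul cRh).mul (cg.pow 2))
  have eW : ∫ x, Rl x * f x ^ 2 * (Rh x)⁻¹ ∂mu = X * H := by
    have h1 := integral_mul_indep (f := fun x => Rl x * f x ^ 2) (g := fun x => (Rh x)⁻¹)
      (S := coo 1 (Real.exp V)) (T := coo (Real.exp V) (Real.exp L)) (cRl.mul (cf.pow 2)) cRi
      (fun x y hxy => by simp only; rw [dRl hxy, df hxy]) (fun x y hxy => by simp only; rw [dRh hxy])
      (coo_disjoint le_rfl)
    rw [hX, hHdef]
    exact h1
  have key : ∀ lam : ℝ, 0 < lam → 2 * X ≤ lam * Z + lam⁻¹ * (X * H) := by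
    intro lam hlam
    have h1 : ∀ x, 2 * (Rl x * f x * g x) ≤ lam * (Rl x * Rh x * g x ^ 2) + lam⁻¹ * (Rl x * f x ^ 2 * (Rh x)⁻¹) := by
      intro x
      have h2 := Rh0 x
      have h3 : lam * (Rl x * Rh x * g x ^ 2) + lam⁻¹ * (Rl x * f x ^ 2 * (Rh x)⁻¹) - 2 * (Rl x * f x * g x) =
          Rl x * (lam * Rh x)⁻¹ * (lam * Rh x * g x - f x) ^ 2 := by
        field_simp
        ring
      have h4 : 0 ≤ Rl x * (lam * Rh x)⁻¹ * (lam * Rh x * g x - f x) ^ 2 := by
        have := Rl0 x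
        positivity
      linarith
    have i1 : Integrable (fun x => 2 * (Rl x * f x * g x)) mu :=
      integrable_of_continuous (continuous_const.mul ((cRl.mul cf).mul cg))
    have i2 := integral_mono i1 ((iZ.const_mul lam).add (iX.const_mul lam⁻¹)) h1
    rw [integral_const_mul] at i2
    have i3 : ∫ x, ((fun x => lam * (Rl x * Rh x * g x ^ 2)) + fun x => lam⁻¹ * (Rl x * f x ^ 2 * (Rh x)⁻¹)) x ∂mu =
        lam * Z + lam⁻¹ * (X * H) := by
      have i4 := integral_add (iZ.const_mul lam) (iX.const_mul lam⁻¹)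
      rw [integral_const_mul, integral_const_mul, eW] at i4
      exact i4
    have i5 : 2 * ∫ x, Rl x * f x * g x ∂mu ≤ lam * Z + lam⁻¹ * (X * H) := by
      rw [← i3]
      exact i2
    linarith
  have hCpos : 0 < C := by linarith
  have h1 := key C hCpos
  have h2 : C⁻¹ * (X * H) ≤ X := by
    have h3 : H ≤ C := hH'
    calc C⁻¹ * (X * H) ≤ C⁻¹ * (X * C) := by gcongr
      _ = X := by field_simp
  linarith

end Pool.Agent.LibFG78
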