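import Mathlib
import Pool.Agent.LibFG78.BAll
import Pool.Agent.LibFG78.A3
import Pool.Agent.LibFG78.A1m
import Pool.Agent.LibFG78.C3
import Pool.Agent.LibFG78.C5a

/-! # Positivity -/

set_option autoImplicit false

namespace Pool.Agent.LibFG78

open MeasureTheory Filter Topology Pool.Agent.LibMM99 Pool.Agent.LibTG78
open scoped ComplexConjugate

private theorem c5_scales {β C0 : ℝ}
    (hS : ∀ u v κ : ℝ, Real.sqrt 2 ≤ u → u ≤ v → Real.log v ≤ 2 * Real.log u → 1 ≤ κ →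
      ∃ b e : Om → ℝ, ScaleT4 β C0 u v κ b e) {l0 K : ℝ} {J : ℕ}
    (h0 : Real.log 2 / 2 ≤ l0) (hK : 1 ≤ K) :
    ∃ b e : ℕ → Om → ℝ, ∀ i, ScaleT4 β C0 (tj l0 i) (tj l0 (i + 1)) (kap K J i) (b i) (e i) := by
  have h : ∀ i : ℕ, ∃ b e : Om → ℝ, ScaleT4 β C0 (tj l0 i) (tj l0 (i + 1)) (kap K J i) b e := by
    intro i
    have hl0 : 0 ≤ l0 := by
      have := Real.log_pos (by norm_num : (1 : ℝ) < 2)
      linarith
    refine hS _ _ _ (sqrt_two_le_tj h0 i) (tj_mono hl0 (Nat.le_succ i)) ?_ ?_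
    · rw [log_tj, log_tj, pow_succ]
      linarith
    · unfold kap
      have h1 : (1 : ℝ) ≤ (3 / 2 : ℝ) ^ (J - 1 - i) := one_le_pow₀ (by norm_num)
      nlinarith
  choose b e hbe using h
  exact ⟨b, e, hbe⟩

/-- positivity. Adaptation of `lower_bound_g` in LibMM99/T20b.lean: `smooth_le` is replaced by `smooth_le_nu` (C5a; its
constant `C(δ)` is chosen after `δ`), `PS_asymp` by `PSnz_limit` (C3), `scale_product`, `scale_product_mean`, `R_majorant_g`
by `scale_product_N`, `scale_product_mean_nu`, `R_majorant_N` for `N = NN4 L`, `γ = gam4 β`, `r = ⌈β/2⌉₊`, `V = δ L = l0 2^J`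
(inputs `hasScale_nu`, `growth_nu`, `psi_moment_nu`, `E_moment_nu` in IfaceC.lean), `exp(-K/10)` by `exp(-K/20)`; measure
`nu4 0 L` with `adm_zero`, `isProd_nu`. `E_moment_nu` needs `exp(-kap/5) ≤ l0 2^(j+1)/L`: `kap_cond` as in T20b. -/
theorem lower_bound_nu {β : ℝ} (hβ : 0 < β) (Λ : ℝ) : ∃ c L1 : ℝ, 0 < c ∧ 1 ≤ L1 ∧ ∀ (w : ℝ → ℂ), IsWeight w Λ →
    ∀ L : ℝ, L1 ≤ L → c * L ^ gam4 β ≤ ∫ x, ‖SS w L x‖ ^ β ∂(nu4 0 L) := by
  set r : ℕ := ⌈β / 2⌉₊ with hr_def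
  have hr : β ≤ 2 * r := by
    have := Nat.le_ceil (β / 2)
    linarith
  have hr' : 2 * (r : ℝ) < β + 2 := by
    have := Nat.ceil_lt_add_one (by positivity : 0 ≤ β / 2)
    linarith
  have hγ0 : 0 ≤ gam4 β := by unfold gam4; positivity
  have hγ : β * (r + 3) / 2 < gam4 β := by
    unfold gam4
    nlinarith
  obtain ⟨C0, hC0, hS⟩ := hasScale_nu hβ
  obtain ⟨Cψ, hCψ, Hψ⟩ := psi_moment_nu r
  obtain ⟨Cg, hCg, Hg⟩ := growth_nu hβ C0 hC0
  obtain ⟨CE, hCE, HE⟩ := E_moment_nu r Λ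
  obtain ⟨Cp, Kp, hCp, hKp, Hp⟩ := scale_product_N hβ hr hC0 hCψ hCg hγ0
  obtain ⟨Cm, Km, hCm, hKm, Hm⟩ := scale_product_mean_nu hβ hC0
  obtain ⟨CR, KR, hCR, hKR, HR⟩ := R_majorant_N hβ hr hC0 hCψ hCg hCE hγ Λ
  have HP := PSnz_limit hβ
  set cP : ℝ := Real.exp (Real.eulerMascheroniConstant * gam4 β) *
    (LibZM.Aconst ((β + 4) / 2) / LibZM.Aconst 2) with hcP_def
  have hcP : 0 < cP := mul_pos (Real.exp_pos _) (div_pos (LibZM.Aconst_pos (by positivity)) (LibZM.Aconst_pos (by norm_num)))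
  -- the small parameter
  set A : ℝ := cP / (16 * 2 ^ β) / CR with hA
  have h2k : (0 : ℝ) < 2 ^ β := Real.rpow_pos_of_pos (by norm_num) β
  have hApos : 0 < A := by positivity
  set δ : ℝ := min 1 (A ^ (2 / β)) with hδ_def
  have hδ0 : 0 < δ := lt_min one_pos (Real.rpow_pos_of_pos hApos _)
  have hδ1 : δ ≤ 1 := min_le_left _ _
  have hδA : CR * δ ^ (β / 2) ≤ cP / (16 * 2 ^ β) := by
    have h1 : δ ^ (β / 2) ≤ (A ^ (2 / β)) ^ (β / 2) :=
      Real.rpow_le_rpow hδ0.le (min_le_right _ _) (by positivity)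
    rw [← Real.rpow_mul hApos.le] at h1
    have h2 : 2 / β * (β / 2) = 1 := by field_simp
    rw [h2, Real.rpow_one] at h1
    calc CR * δ ^ (β / 2) ≤ CR * A := mul_le_mul_of_nonneg_left h1 (by linarith)
      _ = cP / (16 * 2 ^ β) := by
        rw [hA]; field_simp
  obtain ⟨Cs, hCs, Hs⟩ := smooth_le_nu hβ hδ0 hδ1
  -- the large parameter
  have hexp : ∀ ε : ℝ, 0 < ε → ∀ᶠ K : ℝ in atTop, Real.exp (-K / 20) ≤ ε := by
    intro ε hε
    have h1 : Tendsto (fun K : ℝ => Real.exp (-K / 20)) atTop (𝓝 0) := by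
      have h2 : Tendsto (fun K : ℝ => -K / 20) atTop atBot := by
        have h3 : (fun K : ℝ => -K / 20) = fun K : ℝ => -(K / 20) := by funext K; ring
        rw [h3]
        exact tendsto_neg_atTop_atBot.comp (tendsto_id.atTop_div_const (by norm_num))
      exact Real.tendsto_exp_atBot.comp h2
    exact (h1.eventually (ge_mem_nhds hε))
  obtain ⟨K, hK1, hK2, hK3, hK4, hK5, hK6, hK7⟩ : ∃ K : ℝ, Kp ≤ K ∧ Km ≤ K ∧ KR ≤ K ∧
      10 + 5 * Real.log (1 / δ) ≤ K ∧ 1 ≤ K ∧ Real.exp (-K / 20) ≤ 1 / (2 * Cm) ∧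
      Real.exp (-K / 20) ≤ cP / (8 * Cp) := by
    have h := ((eventually_ge_atTop Kp).and ((eventually_ge_atTop Km).and
      ((eventually_ge_atTop KR).and ((eventually_ge_atTop (10 + 5 * Real.log (1 / δ))).and
      ((eventually_ge_atTop (1 : ℝ)).and ((hexp (1 / (2 * Cm)) (by positivity)).and
      (hexp (cP / (8 * Cp)) (by positivity))))))))
    obtain ⟨K, hK⟩ := h.exists
    exact ⟨K, hK⟩
  -- the lower bound for the Euler product
  obtain ⟨t0, ht0⟩ : ∃ t0 : ℝ, ∀ t, t0 ≤ t →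
      cP / 2 * (Real.log t) ^ gam4 β ≤ PS (β + 4) 1 t * nz4 0 1 t := by
    have h1 : ∀ᶠ t : ℝ in atTop, cP / 2 < PS (β + 4) 1 t * nz4 0 1 t / (Real.log t) ^ gam4 β :=
      HP.eventually (lt_mem_nhds (by linarith))
    have h2 : ∀ᶠ t : ℝ in atTop, 1 < t := eventually_gt_atTop 1
    obtain ⟨t0, h3⟩ := eventually_atTop.1 (h1.and h2)
    refine ⟨t0, fun t ht => ?_⟩
    obtain ⟨h4, h5⟩ := h3 t ht
    have h6 : 0 < (Real.log t) ^ gam4 β := Real.rpow_pos_of_pos (Real.log_pos h5) _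
    rw [lt_div_iff₀ h6] at h4
    exact h4.le
  set c : ℝ := cP / (16 * 2 ^ β) * δ ^ gam4 β / Cs with hc
  have hcpos : 0 < c := by
    have := Real.rpow_pos_of_pos hδ0 (gam4 β)
    have : 0 < Cs := by linarith
    positivity
  set L1 : ℝ := max 1 (max (Real.log (max t0 1) / δ) (Real.log 2 / 2 / δ)) with hL1
  refine ⟨c, L1, hcpos, le_max_left _ _, ?_⟩
  intro w hw L hL
  have hL_1 : 1 ≤ L := le_trans (le_max_left _ _) hL
  have hL0 : 0 < L := by linarith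
  have hL_2 : Real.log (max t0 1) ≤ δ * L := by
    have : Real.log (max t0 1) / δ ≤ L := le_trans (le_trans (le_max_left _ _) (le_max_right _ _)) hL
    rwa [div_le_iff₀ hδ0, mul_comm] at this
  have hL_3 : Real.log 2 / 2 ≤ δ * L := by
    have : Real.log 2 / 2 / δ ≤ L := le_trans (le_trans (le_max_right _ _) (le_max_right _ _)) hL
    rwa [div_le_iff₀ hδ0, mul_comm] at this
  obtain ⟨l0, J, hl1, hl2, hlJ⟩ := exists_scales hL_3
  have hlog2 := Real.log_pos (by norm_num : (1 : ℝ) < 2)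
  have hl0pos : 0 < l0 := by linarith
  obtain ⟨b, e, hbe⟩ := c5_scales (J := J) hS hl1 hK5
  have hδL : 0 < δ * L := by positivity
  have hδLL : δ * L ≤ L := by nlinarith
  have hlJL : l0 * 2 ^ J ≤ L := by rw [hlJ]; exact hδLL
  -- the measure
  have hadm : Adm 0 L := adm_zero hL_1
  have hpr : IsProbabilityMeasure (nu4 0 L) := (isProd_nu hadm).prob
  have hmem : nu4 0 L ∈ NN4 L := ⟨0, hadm, rfl⟩
  have hN : ∀ ν ∈ NN4 L, IsProd ν := by
    rintro ν ⟨s, hs, rfl⟩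
    exact isProd_nu hs
  have hjle : ∀ j < J, l0 * 2 ^ (j + 1) ≤ δ * L := by
    intro j hj
    rw [← hlJ]
    exact mul_le_mul_of_nonneg_left (pow_le_pow_right₀ (by norm_num) hj) hl0pos.le
  have hψ : ∀ ν ∈ NN4 L, ∀ i < J, ∫ x, ‖psi l0 K J i x‖ ^ (2 * r) ∂ν ≤ Cψ := by
    rintro ν ⟨s, hs, rfl⟩ i hi
    exact Hψ s L l0 K J i hs hl1 hK5 hi ((hjle i hi).trans hδLL)
  have hkap := kap_cond hδ0 hδ1 hK4 hL0 hlJ
  have hE : ∀ ν ∈ NN4 L, ∀ j < J, ∫ x, ‖Ej w l0 K (δ * L) L J j x‖ ^ (2 * r) ∂ν ≤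
      (CE * (δ * L / L) * (δ * L / (l0 * 2 ^ (j + 1))) ^ (r + 3 : ℝ)) ^ r := by
    rintro ν ⟨s, hs, rfl⟩ j hj
    exact HE w hw s l0 K (δ * L) L J j hs hl1 hK5 hj (hjle j hj) hδLL (hkap j hj)
  obtain ⟨G, hG0, hG1, hG2⟩ := Hg l0 K L J hl1 hl2.le hL_1 hlJL b e (fun i _ => hbe i)
  -- continuity
  have hcb : ∀ i, Continuous (b i) := fun i => (hbe i).b_poly.continuous
  have hce : ∀ i, Continuous (e i) := fun i => (hbe i).e_poly.continuous
  have hcB : Continuous (BB b J) := continuous_BB fun i _ => hcb i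
  have hcU : Continuous (UU r l0 K J b e J) := continuous_UU (fun i _ => hcb i) (fun i _ => hce i)
  obtain ⟨hp1, -, hp3⟩ := Hp (NN4 L) hN l0 K J hl1 hl2.le hK1 G b e hG0 hG1 hG2 hψ J le_rfl
  obtain ⟨hm1, -⟩ := Hm l0 K L J hl1 hl2 hK2 hL_1 hlJL b e (fun i _ => hbe i)
  obtain ⟨Ξ, hΞ1, hΞ2, hΞ3, -⟩ := HR (NN4 L) hN w hw l0 K (δ * L) L J hl1 hl2.le hK3 hlJ.le hδLL
    G b e hG0 hG1 hG2 hψ hE
  have hcΞ : Continuous Ξ := hΞ3.continuous
  replace hp3 := hp3 _ hmem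
  replace hΞ2 := hΞ2 _ hmem
  -- the size of the Euler product
  have hPS : cP / 2 * (δ * L) ^ gam4 β ≤ PS (β + 4) 1 (tj l0 J) * nz4 0 1 (tj l0 J) := by
    have h1 := ht0 (tj l0 J) ?_
    · rwa [log_tj, hlJ] at h1
    · have h2 : max t0 1 ≤ tj l0 J := by
        unfold tj
        rw [hlJ]
        have h3 : (0 : ℝ) < max t0 1 := lt_of_lt_of_le one_pos (le_max_right _ _)
        calc max t0 1 = Real.exp (Real.log (max t0 1)) := (Real.exp_log h3).symm
          _ ≤ Real.exp (δ * L) := Real.exp_le_exp.2 hL_2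
      exact le_trans (le_max_left _ _) h2
  set P : ℝ := (δ * L) ^ gam4 β with hP
  have hPpos : 0 < P := Real.rpow_pos_of_pos hδL _
  have hexp0 := Real.exp_pos (-K / 20)
  -- lower bound for the moment of F_J
  have hF : cP / 8 * P ≤ ∫ x, ‖Fj l0 K J J x‖ ^ β ∂(nu4 0 L) := by
    have h1 : ∫ x, (BB b J x - UU r l0 K J b e J x) ∂(nu4 0 L) ≤ ∫ x, ‖Fj l0 K J J x‖ ^ β ∂(nu4 0 L) := by
      refine integral_mono (c0_integrable _ (hcB.sub hcU)) ?_ ?_
      · refine c0_integrable _ ?_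
        exact (continuous_Fj.norm).rpow_const fun x => Or.inr hβ.le
      · intro x
        have := (abs_le.1 (hp1 x)).1
        simp only
        linarith
    rw [integral_sub (c0_integrable _ hcB) (c0_integrable _ hcU)] at h1
    rw [hlJ] at hp3
    have h2 : Cm * Real.exp (-K / 20) ≤ 1 / 2 := by
      have := mul_le_mul_of_nonneg_left hK6 (by linarith : (0 : ℝ) ≤ Cm)
      have h3 : Cm * (1 / (2 * Cm)) = 1 / 2 := by field_simp
      linarith
    have h4 : Cp * Real.exp (-K / 20) ≤ cP / 8 := by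
      have := mul_le_mul_of_nonneg_left hK7 (by linarith : (0 : ℝ) ≤ Cp)
      have h3 : Cp * (cP / (8 * Cp)) = cP / 8 := by field_simp
      linarith
    have h5 : Cp * Real.exp (-K / 20) * P ≤ cP / 8 * P := mul_le_mul_of_nonneg_right h4 hPpos.le
    have h6 : 1 / 2 * (cP / 2 * P) ≤
        (1 - Cm * Real.exp (-K / 20)) * (PS (β + 4) 1 (tj l0 J) * nz4 0 1 (tj l0 J)) := by
      have h7 : 0 < cP / 2 * P := by positivity
      apply mul_le_mul (by linarith) hPS h7.le (by linarith)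
    linarith
  -- upper bound for the error
  have hRle : ∫ x, Ξ x ∂(nu4 0 L) ≤ cP / (16 * 2 ^ β) * P := by
    have h1 : δ * L / L = δ := by field_simp
    have h2 : δ * L / (l0 * 2 ^ J) = 1 := by rw [hlJ]; exact div_self hδL.ne'
    rw [h1, h2, Real.one_rpow, mul_one, hlJ] at hΞ2
    calc ∫ x, Ξ x ∂(nu4 0 L) ≤ CR * P * δ ^ (β / 2) := hΞ2
      _ = (CR * δ ^ (β / 2)) * P := by ring
      _ ≤ cP / (16 * 2 ^ β) * P := mul_le_mul_of_nonneg_right hδA hPpos.le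
  -- assembly
  have hfin : 1 / 2 ^ β * (∫ x, ‖Fj l0 K J J x‖ ^ β ∂(nu4 0 L)) ≤
      ∫ x, ‖AA w l0 (δ * L) L 0 x‖ ^ β ∂(nu4 0 L) + ∫ x, Ξ x ∂(nu4 0 L) := by
    rw [← integral_const_mul, ← integral_add]
    · refine integral_mono ?_ ?_ ?_
      · refine (c0_integrable _ ?_).const_mul _
        exact (continuous_Fj.norm).rpow_const fun x => Or.inr hβ.le
      · refine c0_integrable _ (Continuous.add ?_ hcΞ)
        exact (continuous_AA.norm).rpow_const fun x => Or.inr hβ.le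
      · intro x
        have h1 := telescoping w l0 K (δ * L) L J x
        have h2 : AA w l0 (δ * L) L J x = 1 := by
          rw [← hlJ]
          exact AA_top' hw.zero hL0 x
        rw [h2, mul_one] at h1
        have h3 : Fj l0 K J J x = AA w l0 (δ * L) L 0 x + RR w l0 K (δ * L) L J x := by
          rw [h1]; ring
        simp only
        rw [h3]
        have h4 := norm_add_rpow_le hβ (AA w l0 (δ * L) L 0 x) (RR w l0 K (δ * L) L J x)
        have h5 := hΞ1 x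
        rw [one_div, inv_mul_le_iff₀ h2k]
        refine le_trans h4 (mul_le_mul_of_nonneg_left ?_ h2k.le)
        linarith
    · refine c0_integrable _ ?_
      exact (continuous_AA.norm).rpow_const fun x => Or.inr hβ.le
    · exact c0_integrable _ hcΞ
  have hsm := Hs w l0 L hl0pos hl2 hL_1 hL_3
  have h8 : 1 / 2 ^ β * (cP / 8 * P) ≤ 1 / 2 ^ β * ∫ x, ‖Fj l0 K J J x‖ ^ β ∂(nu4 0 L) :=
    mul_le_mul_of_nonneg_left hF (by positivity)
  have hCs0 : 0 < Cs := by linarith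
  have h9 : c * L ^ gam4 β = cP / (16 * 2 ^ β) * P / Cs := by
    rw [hc, hP, Real.mul_rpow hδ0.le hL0.le]
    ring
  rw [h9, div_le_iff₀ hCs0]
  have h10 : 1 / 2 ^ β * (cP / 8 * P) = 2 * (cP / (16 * 2 ^ β) * P) := by
    field_simp
    ring
  linarith

end Pool.Agent.LibFG78
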