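import Mathlib
import Pool.Agent.LibF4.O35
import Pool.Agent.LibF4.O26
import Pool.Agent.LibF4.O31
import Pool.Agent.LibF4.O18
import Pool.Agent.LibF4.O19
import Pool.Agent.LibF4J.JFin
import Pool.Agent.LibTG78.D1
import Pool.Agent.LibTG78.D4
import Pool.Agent.LibTG78.D5a

/-! The fourth moment of zeta twisted by a short polynomial in terms of the tilted model -/

set_option autoImplicit false

namespace Pool.Agent.LibFG78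

open MeasureTheory Filter Topology Pool.Agent.LibMM99 Pool.Agent.LibTG78
open scoped ComplexConjugate

lemma NT4_JD_symm (m n : ℕ) (z : ℂ) : LibF4.JD m n z = LibF4.JD n m z := by
  unfold LibF4.JD LibF4.DD
  rw [Nat.mul_comm m n]

lemma NT4_crit (t : ℝ) : LibZM.crit t = 1 / 2 + t * Complex.I := by
  unfold LibZM.crit
  ring

/-- integral of one character -/
lemma NT4_one {m n : ℕ} (hm : 1 ≤ m) (hn : 1 ≤ n) (d t : ℝ) :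
    ((‖riemannZeta (1 / 2 + t * Complex.I)‖ ^ 4 * Real.exp (-(2 * d * t)) : ℝ) : ℂ) *
      (ch (xt t) m * conj (ch (xt t) n)) =
    ((‖riemannZeta (LibZM.crit t)‖ ^ 4 * Real.exp (-(2 * d * t)) : ℝ) : ℂ) *
      Complex.exp ((t * (Real.log ((n / Nat.gcd m n : ℕ) : ℝ) - Real.log ((m / Nat.gcd m n : ℕ) : ℝ)) : ℝ) * Complex.I) := by
  rw [D4_ch hm hn, NT4_crit]
  congr 1
  have hg : 1 ≤ Nat.gcd m n := Nat.gcd_pos_of_pos_left _ hm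
  have hm' : 1 ≤ m / Nat.gcd m n := Nat.div_pos (Nat.le_of_dvd hm (Nat.gcd_dvd_left _ _)) hg
  have hn' : 1 ≤ n / Nat.gcd m n := Nat.div_pos (Nat.le_of_dvd hn (Nat.gcd_dvd_right _ _)) hg
  rw [D4_e_gcd hg hm' hn' (Nat.mul_div_cancel' (Nat.gcd_dvd_left m n)).symm
    (Nat.mul_div_cancel' (Nat.gcd_dvd_right m n)).symm]
  unfold TW.tw_e
  congr 1
  push_cast
  ring

/-- the moment as a sum -/
lemma NT4_sum {d : ℝ} (h0 : 0 < d) (h1 : d ≤ 1/4) (S : Finset (ℕ × ℕ)) (c : ℕ × ℕ → ℂ) (Φ : Om → ℝ)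
    (hS : ∀ q ∈ S, 1 ≤ q.1 ∧ 1 ≤ q.2) (hrep : ∀ x, ((Φ x : ℝ) : ℂ) = ∑ q ∈ S, c q * ch x q.1 * conj (ch x q.2)) :
    (((∫ t in Set.Ioi (0 : ℝ), ‖riemannZeta (1 / 2 + t * Complex.I)‖ ^ 4 * Real.exp (-(2 * d * t)) * Φ (xt t)) : ℝ) : ℂ) =
    ∑ q ∈ S, c q * LibF4.I4p d (q.2 / Nat.gcd q.1 q.2) (q.1 / Nat.gcd q.1 q.2) := by
  obtain ⟨C, _, hI⟩ := LibF4.I4_half
  have hint := (hI d h0 h1 1 1 le_rfl le_rfl).1
  have hint' : IntegrableOn (fun t : ℝ => ((‖riemannZeta (1 / 2 + t * Complex.I)‖ ^ 4 * Real.exp (-(2 * d * t)) : ℝ) : ℂ))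
      (Set.Ioi 0) := by
    have h2 := hint.ofReal (𝕜 := ℂ)
    refine h2.congr (Eventually.of_forall fun t => ?_)
    simp only [NT4_crit]
    rfl
  have hq : ∀ q ∈ S, IntegrableOn (fun t : ℝ => c q * (((‖riemannZeta (1 / 2 + t * Complex.I)‖ ^ 4 *
      Real.exp (-(2 * d * t)) : ℝ) : ℂ) * (ch (xt t) q.1 * conj (ch (xt t) q.2)))) (Set.Ioi 0) := by
    intro q hq
    refine Integrable.const_mul ?_ _
    have hc : Continuous fun t : ℝ => ch (xt t) q.1 * conj (ch (xt t) q.2) :=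
      ((continuous_ch q.1).comp continuous_xt).mul (Complex.continuous_conj.comp ((continuous_ch q.2).comp continuous_xt))
    refine Integrable.mul_bdd (c := 1) hint' hc.aestronglyMeasurable (Eventually.of_forall fun t => ?_)
    rw [D4_ch (hS q hq).1 (hS q hq).2, TW.tw_e_norm]
  rw [← integral_complex_ofReal]
  have h2 : (∫ t in Set.Ioi (0:ℝ), (((‖riemannZeta (1 / 2 + t * Complex.I)‖ ^ 4 * Real.exp (-(2 * d * t)) * Φ (xt t)) : ℝ) : ℂ)) =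
      ∫ t in Set.Ioi (0:ℝ), ∑ q ∈ S, c q * (((‖riemannZeta (1 / 2 + t * Complex.I)‖ ^ 4 *
      Real.exp (-(2 * d * t)) : ℝ) : ℂ) * (ch (xt t) q.1 * conj (ch (xt t) q.2))) := by
    refine integral_congr_ae (Eventually.of_forall fun t => ?_)
    beta_reduce
    rw [Complex.ofReal_mul, hrep, Finset.mul_sum]
    exact Finset.sum_congr rfl fun q _ => by ring
  rw [h2, integral_finsetSum _ hq]
  refine Finset.sum_congr rfl fun q hq => ?_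
  rw [integral_const_mul]
  congr 1
  unfold LibF4.I4p
  refine integral_congr_ae (Eventually.of_forall fun t => ?_)
  beta_reduce
  rw [NT4_one (hS q hq).1 (hS q hq).2]

/-- the theorem with the error terms collected -/
theorem mom4 : ∃ C η d0 : ℝ, 0 < C ∧ 0 < η ∧ 0 < d0 ∧ d0 ≤ 1 / 4 ∧ ∀ (a L A d : ℝ) (Φ : Om → ℝ), 1 ≤ L →
    0 < d → d ≤ d0 → a ≤ η * Real.log (1 / d) → L ≤ Real.log (1 / d) → IsPolyR a Φ →
    DependsOn Φ (coo 1 (Real.exp L)) → (∀ s : ℂ, Adm s L → ∫ x, |Φ x| ∂(nu4 s L) ≤ A) →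
    |d * (∫ t in Set.Ioi (0 : ℝ), ‖riemannZeta (1 / 2 + t * Complex.I)‖ ^ 4 * Real.exp (-(2 * d * t)) * Φ (xt t)) -
      1 / (4 * Real.pi ^ 2) * Real.log (1 / d) ^ 4 * ∫ x, Φ x ∂(nu4 0 L)| ≤
      C * L * Real.log (1 / d) ^ 3 * A + C * d ^ η := by
  obtain ⟨cF, CF, hcF, hcF1, hCF, hoff⟩ := LibF4J.J_off
  obtain ⟨cD, CD, hcD, hcD1, hCD, hdiag⟩ := LibF4J.J_diag
  obtain ⟨C5, hC5, h35⟩ := LibF4.O35_sum
  obtain ⟨C6, hC6, h26⟩ := LibF4.O26_small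
  obtain ⟨c, hcdef⟩ : ∃ c, c = min cF cD := ⟨_, rfl⟩
  have hc0 : 0 < c := by rw [hcdef]; exact lt_min hcF hcD
  have hccF : c ≤ cF := by rw [hcdef]; exact min_le_left _ _
  have hccD : c ≤ cD := by rw [hcdef]; exact min_le_right _ _
  have hc8 : c ≤ 1/8 := hccF.trans hcF1
  obtain ⟨κ, hκdef⟩ : ∃ κ, κ = c / 8 := ⟨_, rfl⟩
  have hκ0 : 0 < κ := by rw [hκdef]; positivity
  have hκ8 : κ ≤ 1/8 := by rw [hκdef]; linarith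
  obtain ⟨C1, hC1, h31⟩ := LibF4.O31_lead κ hκ0 hκ8
  -- constants
  refine ⟨C5 * (1 + 256 * κ⁻¹ ^ 2) + C1 * (CD + 1) + C6 * CF * κ⁻¹ ^ 2 * c⁻¹ ^ 2 * Real.exp (2 * κ), 1 / 400, 1 / 16,
    by positivity, by norm_num, by norm_num, by norm_num, ?_⟩
  intro a L A d Φ hL hd0 hd1 ha hLl hΦ hdep hA
  have hΦc : Continuous Φ := hΦ.continuous
  have hdc : DependsOn (fun x => ((Φ x : ℝ) : ℂ)) (coo 1 (Real.exp L)) := by
    intro x y hxy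
    beta_reduce
    rw [hdep hxy]
  obtain ⟨S, cc, hS, hcS, hrep⟩ := smooth_rep (L := L) hΦ hdc
  have hadm0 : Adm 0 L := ⟨hL, by rw [norm_zero]; positivity⟩
  have hA0 : 0 ≤ A := le_trans (integral_nonneg fun x => abs_nonneg _) (hA 0 hadm0)
  have hI0 : |∫ x, Φ x ∂(nu4 0 L)| ≤ A := (abs_integral_le_integral_abs).trans (hA 0 hadm0)
  obtain ⟨ℓ, hℓ⟩ : ∃ ℓ, ℓ = Real.log (1 / d) := ⟨_, rfl⟩
  rw [← hℓ] at ha hLl ⊢
  have hℓ1 : 1 ≤ ℓ := hL.trans hLl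
  have hℓ0 : 0 < ℓ := by linarith
  have hL0 : 0 < L := by linarith
  obtain ⟨ρ, hρdef⟩ : ∃ ρ, ρ = κ / ℓ := ⟨_, rfl⟩
  obtain ⟨R, hRdef⟩ : ∃ R, R = c / L := ⟨_, rfl⟩
  have hρ0 : 0 < ρ := by rw [hρdef]; positivity
  have hR0 : 0 < R := by rw [hRdef]; positivity
  have hρκ : ρ ≤ κ := by rw [hρdef]; exact div_le_self hκ0.le hℓ1
  have hRc : R ≤ c := by rw [hRdef]; exact div_le_self hc0.le hL
  have hρR : 4 * ρ ≤ R := by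
    have h1 : c / ℓ ≤ c / L := div_le_div_of_nonneg_left hc0.le hL0 hLl
    have h2 : ρ = (1/8) * (c / ℓ) := by rw [hρdef, hκdef]; ring
    have h3 : 0 < c / ℓ := by positivity
    rw [hRdef]
    linarith
  have hρR2 : 2 * ρ < R := by linarith
  have hSg : ∀ q ∈ S, 1 ≤ q.1 / Nat.gcd q.1 q.2 ∧ 1 ≤ q.2 / Nat.gcd q.1 q.2 ∧
      Nat.Coprime (q.2 / Nat.gcd q.1 q.2) (q.1 / Nat.gcd q.1 q.2) ∧
      ((q.1 / Nat.gcd q.1 q.2 : ℕ) : ℝ) ≤ Real.exp a ∧ ((q.2 / Nat.gcd q.1 q.2 : ℕ) : ℝ) ≤ Real.exp a := by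
    intro q hq
    obtain ⟨h1, h2, h3, h4, -, -⟩ := hS q hq
    have hg : 0 < Nat.gcd q.1 q.2 := Nat.gcd_pos_of_pos_left _ h1
    refine ⟨Nat.div_pos (Nat.le_of_dvd h1 (Nat.gcd_dvd_left _ _)) hg, Nat.div_pos (Nat.le_of_dvd h2 (Nat.gcd_dvd_right _ _)) hg,
      (Nat.coprime_div_gcd_div_gcd hg).symm, ?_, ?_⟩
    · exact le_trans (by exact_mod_cast Nat.div_le_self _ _) h3
    · exact le_trans (by exact_mod_cast Nat.div_le_self _ _) h4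
  -- the twisted moment
  have h35' := h35 S cc (fun q => q.2 / Nat.gcd q.1 q.2) (fun q => q.1 / Nat.gcd q.1 q.2)
    (fun q hq => (hSg q hq).2.1) (fun q hq => (hSg q hq).1) (fun q hq => (hSg q hq).2.2.1) d ρ R hd0 hd1 hρ0
    (hρκ.trans hκ8) hρR2 (by linarith)
  beta_reduce at h35'
  rw [← NT4_sum hd0 (by linarith) S cc Φ (fun q hq => ⟨(hS q hq).1, (hS q hq).2.1⟩) hrep] at h35'
  obtain ⟨I, hI⟩ : ∃ I : ℝ, I = ∫ t in Set.Ioi (0 : ℝ), ‖riemannZeta (1 / 2 + t * Complex.I)‖ ^ 4 *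
    Real.exp (-(2 * d * t)) * Φ (xt t) := ⟨_, rfl⟩
  rw [← hI] at h35' ⊢
  obtain ⟨m0, hm0⟩ : ∃ m0 : ℝ, m0 = ∫ x, Φ x ∂(nu4 0 L) := ⟨_, rfl⟩
  rw [← hm0] at hI0 ⊢
  obtain ⟨JJd, hJJd⟩ : ∃ J : ℂ → ℂ, J = fun z => ∑ q ∈ S, cc q * LibF4.JD (q.2 / Nat.gcd q.1 q.2) (q.1 / Nat.gcd q.1 q.2) z :=
    ⟨_, rfl⟩
  obtain ⟨JJf, hJJf⟩ : ∃ J : ℂ → ℂ → ℂ → ℂ, J = fun α β z =>
    ∑ q ∈ S, cc q * LibF4.JF (q.2 / Nat.gcd q.1 q.2) (q.1 / Nat.gcd q.1 q.2) α β z := ⟨_, rfl⟩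
  -- the off-diagonal functional
  have hF : ∀ α β z : ℂ, ‖α‖ ≤ R → ‖β‖ ≤ R → ‖z‖ ≤ R → ‖JJf α β z‖ ≤ CF * A := by
    intro α β z h1 h2 h3
    have hRF : R ≤ cF / L := by rw [hRdef]; exact div_le_div_of_nonneg_right hccF hL0.le
    have h4 := hoff L A S cc Φ hL hΦc (fun q hq => ⟨(hS q hq).1, (hS q hq).2.1, (hS q hq).2.2.2.2.1, (hS q hq).2.2.2.2.2⟩)
      hrep hA β α z (h2.trans hRF) (h1.trans hRF) (h3.trans hRF)
    rw [hJJf]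
    refine le_of_eq_of_le ?_ h4
    congr 1
    refine Finset.sum_congr rfl fun q _ => ?_
    rw [LibF4.O18_swap]
  have h26' := h26 JJf d ρ R (CF * A) hd0 (by linarith) hρ0 hρR (by linarith) (by positivity) hF
  -- the diagonal functional
  have hD : ∀ z : ℂ, ‖z‖ = κ / ℓ → ‖JJd z - ((m0 : ℝ) : ℂ)‖ ≤ (CD * A * L) * ‖z‖ := by
    intro z hz
    have h1 : ‖z‖ ≤ cD / L := by
      have h2 : κ / ℓ ≤ c / L := by
        rw [← hρdef, ← hRdef]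
        linarith
      exact (hz.le.trans h2).trans (div_le_div_of_nonneg_right hccD hL0.le)
    have h4 := hdiag L A S cc Φ hL hΦc (fun q hq => ⟨(hS q hq).1, (hS q hq).2.1, (hS q hq).2.2.2.2.1, (hS q hq).2.2.2.2.2⟩)
      hrep hA z h1
    rw [← hm0] at h4
    rw [hJJd]
    refine le_of_eq_of_le ?_ h4
    congr 2
    refine Finset.sum_congr rfl fun q _ => ?_
    rw [NT4_JD_symm]
  have hDc : ContinuousOn JJd (Metric.closedBall 0 (1/8)) := by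
    rw [hJJd]
    refine continuousOn_finsetSum S fun q hq => continuousOn_const.mul ?_
    intro z hz
    have hz1 : -1 < z.re := by
      rw [mem_closedBall_zero_iff] at hz
      have h2 := (abs_le.1 ((Complex.abs_re_le_norm z).trans hz)).1
      linarith
    exact (LibF4.O19_JD_diff (hSg q hq).2.1 (hSg q hq).1 hz1).continuousAt.continuousWithinAt
  have h31' := h31 JJd ((m0 : ℝ) : ℂ) (CD * A * L) d hd0 hd1 (by rw [← hℓ]; exact hD) hDc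
  rw [← hℓ, ← hρdef] at h31'
  have h35'' : ‖((I : ℝ) : ℂ) - ((1 / Real.sin d : ℝ) : ℂ) * LibF4.Av ρ (fun z => z * (LibF4.Dz d z * JJd z)) -
      LibF4.Av ρ (fun α => LibF4.Av ρ (fun β => LibF4.wk α * LibF4.wk β * LibF4.cs d (α + β) *
        LibF4.Av R (fun z => z * (LibF4.Kz (α + β) z * JJf α β z))))‖ ≤
      C5 * (∑ q ∈ S, ‖cc q‖ * (((q.2 / Nat.gcd q.1 q.2 : ℕ) : ℝ) * ((q.1 / Nat.gcd q.1 q.2 : ℕ) : ℝ)) ^ 16) *
        (d ^ (-(7/8) : ℝ) + ρ⁻¹ ^ 2) := by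
    rw [hJJd, hJJf]
    exact h35'
  obtain ⟨Dg, hDg⟩ : ∃ Dg : ℂ, Dg = ((1 / Real.sin d : ℝ) : ℂ) * LibF4.Av ρ (fun z => z * (LibF4.Dz d z * JJd z)) := ⟨_, rfl⟩
  obtain ⟨Of, hOf⟩ : ∃ Of : ℂ, Of = LibF4.Av ρ (fun α => LibF4.Av ρ (fun β => LibF4.wk α * LibF4.wk β * LibF4.cs d (α + β) *
        LibF4.Av R (fun z => z * (LibF4.Kz (α + β) z * JJf α β z)))) := ⟨_, rfl⟩
  obtain ⟨E, hE⟩ : ∃ E : ℝ, E = ∑ q ∈ S, ‖cc q‖ * (((q.2 / Nat.gcd q.1 q.2 : ℕ) : ℝ) * ((q.1 / Nat.gcd q.1 q.2 : ℕ) : ℝ)) ^ 16 :=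
    ⟨_, rfl⟩
  rw [← hDg] at h31'
  rw [← hOf] at h26'
  rw [← hDg, ← hOf, ← hE] at h35''
  -- elementary estimates
  have hdexp : d = Real.exp (-ℓ) := by
    rw [hℓ, one_div, Real.log_inv, neg_neg, Real.exp_log hd0]
  have hE1 : E ≤ Real.exp (33 / 400 * ℓ) := by
    have h1 : E ≤ ∑ q ∈ S, ‖cc q‖ * Real.exp (32 * a) := by
      rw [hE]
      refine Finset.sum_le_sum fun q hq => mul_le_mul_of_nonneg_left ?_ (norm_nonneg _)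
      have h2 : ((q.2 / Nat.gcd q.1 q.2 : ℕ) : ℝ) * ((q.1 / Nat.gcd q.1 q.2 : ℕ) : ℝ) ≤ Real.exp a * Real.exp a :=
        mul_le_mul (hSg q hq).2.2.2.2 (hSg q hq).2.2.2.1 (by positivity) (by positivity)
      calc _ ≤ (Real.exp a * Real.exp a) ^ 16 := pow_le_pow_left₀ (by positivity) h2 16
        _ = Real.exp (32 * a) := by rw [← Real.exp_add, ← Real.exp_nat_mul]; congr 1; push_cast; ring
    rw [← Finset.sum_mul] at h1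
    calc E ≤ (∑ q ∈ S, ‖cc q‖) * Real.exp (32 * a) := h1
      _ ≤ Real.exp a * Real.exp (32 * a) := mul_le_mul_of_nonneg_right hcS (Real.exp_pos _).le
      _ = Real.exp (33 * a) := by rw [← Real.exp_add]; congr 1; ring
      _ ≤ _ := Real.exp_le_exp.2 (by linarith)
  have hE0 : 0 ≤ E := by
    rw [hE]
    exact Finset.sum_nonneg fun q _ => by positivity
  have hd78 : d ^ (-(7/8) : ℝ) = Real.exp (7/8 * ℓ) := by
    rw [hdexp, ← Real.exp_mul]; congr 1; ring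
  have hd400 : d ^ (1/400 : ℝ) = Real.exp (-(1/400) * ℓ) := by
    rw [hdexp, ← Real.exp_mul]; congr 1; ring
  have hρinv : ρ⁻¹ = κ⁻¹ * ℓ := by rw [hρdef, inv_div]; ring
  have hRinv : R⁻¹ = c⁻¹ * L := by rw [hRdef, inv_div]; ring
  have hℓ2 : ℓ ^ 2 ≤ 256 * Real.exp (1/8 * ℓ) := by
    have h1 : ℓ / 16 ≤ Real.exp (ℓ / 16) := by
      have := Real.add_one_le_exp (ℓ / 16)
      linarith
    have h2 : Real.exp (1/8 * ℓ) = Real.exp (ℓ / 16) ^ 2 := by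
      rw [← Real.exp_nat_mul]; congr 1; push_cast; ring
    rw [h2]
    have h3 : ℓ ≤ 16 * Real.exp (ℓ / 16) := by linarith
    calc ℓ ^ 2 ≤ (16 * Real.exp (ℓ / 16)) ^ 2 := pow_le_pow_left₀ (by linarith) h3 2
      _ = 256 * Real.exp (ℓ / 16) ^ 2 := by ring
  have hT1 : d * (C5 * E * (d ^ (-(7/8) : ℝ) + ρ⁻¹ ^ 2)) ≤ C5 * (1 + 256 * κ⁻¹ ^ 2) * d ^ (1/400 : ℝ) := by
    rw [hd78, hd400, hρinv]
    have e1 : Real.exp (7/8 * ℓ) + (κ⁻¹ * ℓ) ^ 2 ≤ (1 + 256 * κ⁻¹ ^ 2) * Real.exp (7/8 * ℓ) := by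
      have h1 : Real.exp (1/8 * ℓ) ≤ Real.exp (7/8 * ℓ) := Real.exp_le_exp.2 (by linarith)
      have h2 : (κ⁻¹ * ℓ) ^ 2 ≤ κ⁻¹ ^ 2 * (256 * Real.exp (7/8 * ℓ)) := by
        rw [mul_pow]
        exact mul_le_mul_of_nonneg_left (hℓ2.trans (by linarith)) (by positivity)
      linarith
    have e2 : d * E * Real.exp (7/8 * ℓ) ≤ Real.exp (-(1/400) * ℓ) := by
      calc d * E * Real.exp (7/8 * ℓ) ≤ d * Real.exp (33/400 * ℓ) * Real.exp (7/8 * ℓ) := by gcongr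
        _ = Real.exp (-(17/400) * ℓ) := by
          rw [hdexp, ← Real.exp_add, ← Real.exp_add]; congr 1; ring
        _ ≤ _ := Real.exp_le_exp.2 (by linarith)
    calc d * (C5 * E * (Real.exp (7/8 * ℓ) + (κ⁻¹ * ℓ) ^ 2)) ≤
          d * (C5 * E * ((1 + 256 * κ⁻¹ ^ 2) * Real.exp (7/8 * ℓ))) := by gcongr
      _ = C5 * (1 + 256 * κ⁻¹ ^ 2) * (d * E * Real.exp (7/8 * ℓ)) := by ring
      _ ≤ _ := mul_le_mul_of_nonneg_left e2 (by positivity)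
  have hT2 : d * (C1 * d⁻¹ * (CD * A * L + ‖((m0 : ℝ) : ℂ)‖) * ℓ ^ 3) ≤ C1 * (CD + 1) * (L * ℓ ^ 3 * A) := by
    have h1 : ‖((m0 : ℝ) : ℂ)‖ ≤ A := by rw [Complex.norm_real]; exact hI0
    have h2 : CD * A * L + ‖((m0 : ℝ) : ℂ)‖ ≤ (CD + 1) * (A * L) := by
      have h3 : A * 1 ≤ A * L := mul_le_mul_of_nonneg_left (by linarith) ((norm_nonneg _).trans h1)
      linarith
    calc d * (C1 * d⁻¹ * (CD * A * L + ‖((m0 : ℝ) : ℂ)‖) * ℓ ^ 3) =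
          C1 * (CD * A * L + ‖((m0 : ℝ) : ℂ)‖) * ℓ ^ 3 * (d * d⁻¹) := by ring
      _ = C1 * (CD * A * L + ‖((m0 : ℝ) : ℂ)‖) * ℓ ^ 3 := by rw [mul_inv_cancel₀ hd0.ne', mul_one]
      _ ≤ C1 * ((CD + 1) * (A * L)) * ℓ ^ 3 := by gcongr
      _ = _ := by ring
  have hT3 : d * (C6 * (CF * A) * ρ⁻¹ ^ 2 * R⁻¹ ^ 2 * d ^ (-1 - 2 * ρ)) ≤
      C6 * CF * κ⁻¹ ^ 2 * c⁻¹ ^ 2 * Real.exp (2 * κ) * (L * ℓ ^ 3 * A) := by
    have h1 : d * d ^ (-1 - 2 * ρ) = Real.exp (2 * κ) := by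
      have h2 : ρ * ℓ = κ := by rw [hρdef]; field_simp
      rw [hdexp, ← Real.exp_mul, ← Real.exp_add]
      congr 1
      linear_combination 2 * h2
    have h3 : ℓ ^ 2 * L ^ 2 ≤ L * ℓ ^ 3 := by
      have : L * (ℓ ^ 2 * L) ≤ L * (ℓ ^ 2 * ℓ) := by gcongr
      linarith
    calc d * (C6 * (CF * A) * ρ⁻¹ ^ 2 * R⁻¹ ^ 2 * d ^ (-1 - 2 * ρ)) =
          C6 * (CF * A) * ρ⁻¹ ^ 2 * R⁻¹ ^ 2 * (d * d ^ (-1 - 2 * ρ)) := by ring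
      _ = C6 * CF * κ⁻¹ ^ 2 * c⁻¹ ^ 2 * Real.exp (2 * κ) * (A * (ℓ ^ 2 * L ^ 2)) := by
          rw [h1, hρinv, hRinv]; ring
      _ ≤ C6 * CF * κ⁻¹ ^ 2 * c⁻¹ ^ 2 * Real.exp (2 * κ) * (A * (L * ℓ ^ 3)) := by gcongr
      _ = _ := by ring
  -- the sum
  have hfin : ((d * I - 1 / (4 * Real.pi ^ 2) * ℓ ^ 4 * m0 : ℝ) : ℂ) =
      ((d : ℝ) : ℂ) * ((((I : ℝ) : ℂ) - Dg - Of) +
        ((Dg - ((1 / (4 * Real.pi ^ 2 * d) * ℓ ^ 4 : ℝ) : ℂ) * ((m0 : ℝ) : ℂ)) + Of)) := by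
    have hd' : ((d : ℝ) : ℂ) ≠ 0 := by exact_mod_cast hd0.ne'
    have hπ' : ((Real.pi : ℝ) : ℂ) ≠ 0 := by exact_mod_cast Real.pi_ne_zero
    push_cast
    field_simp
    ring
  rw [← Real.norm_eq_abs, ← Complex.norm_real, hfin, norm_mul, Complex.norm_real, Real.norm_eq_abs, abs_of_pos hd0]
  have hnn : 0 ≤ L * ℓ ^ 3 * A := by positivity
  have hdη : 0 ≤ d ^ (1/400 : ℝ) := by positivity
  calc _ ≤ d * (C5 * E * (d ^ (-(7/8) : ℝ) + ρ⁻¹ ^ 2) + (C1 * d⁻¹ * (CD * A * L + ‖((m0 : ℝ) : ℂ)‖) * ℓ ^ 3 +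
          C6 * (CF * A) * ρ⁻¹ ^ 2 * R⁻¹ ^ 2 * d ^ (-1 - 2 * ρ))) :=
        mul_le_mul_of_nonneg_left ((norm_add_le _ _).trans (add_le_add h35'' ((norm_add_le _ _).trans
          (add_le_add h31' h26')))) hd0.le
    _ = d * (C5 * E * (d ^ (-(7/8) : ℝ) + ρ⁻¹ ^ 2)) + (d * (C1 * d⁻¹ * (CD * A * L + ‖((m0 : ℝ) : ℂ)‖) * ℓ ^ 3) +
          d * (C6 * (CF * A) * ρ⁻¹ ^ 2 * R⁻¹ ^ 2 * d ^ (-1 - 2 * ρ))) := by ring
    _ ≤ C5 * (1 + 256 * κ⁻¹ ^ 2) * d ^ (1/400 : ℝ) + (C1 * (CD + 1) * (L * ℓ ^ 3 * A) +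
          C6 * CF * κ⁻¹ ^ 2 * c⁻¹ ^ 2 * Real.exp (2 * κ) * (L * ℓ ^ 3 * A)) := by linarith
    _ ≤ _ := by
        obtain ⟨X1, hX1⟩ : ∃ X, X = C5 * (1 + 256 * κ⁻¹ ^ 2) := ⟨_, rfl⟩
        obtain ⟨X2, hX2⟩ : ∃ X, X = C1 * (CD + 1) := ⟨_, rfl⟩
        obtain ⟨X3, hX3⟩ : ∃ X, X = C6 * CF * κ⁻¹ ^ 2 * c⁻¹ ^ 2 * Real.exp (2 * κ) := ⟨_, rfl⟩
        have p1 : 0 ≤ X1 := by rw [hX1]; positivity
        have p2 : 0 ≤ X2 := by rw [hX2]; positivity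
        have p3 : 0 ≤ X3 := by rw [hX3]; positivity
        rw [← hX1, ← hX2, ← hX3]
        have q1 : 0 ≤ X1 * (L * ℓ ^ 3 * A) := mul_nonneg p1 hnn
        have q2 : 0 ≤ (X2 + X3) * d ^ (1/400 : ℝ) := mul_nonneg (by linarith) hdη
        have e1 : (X1 + X2 + X3) * L * ℓ ^ 3 * A + (X1 + X2 + X3) * d ^ (1/400 : ℝ) =
          X1 * d ^ (1/400 : ℝ) + (X2 * (L * ℓ ^ 3 * A) + X3 * (L * ℓ ^ 3 * A)) +
            (X1 * (L * ℓ ^ 3 * A) + (X2 + X3) * d ^ (1/400 : ℝ)) := by ring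
        rw [e1]
        linarith

end Pool.Agent.LibFG78
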