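import Mathlib
import Pool.Agent.LibFG78.Defs
import Pool.Agent.LibFG78.B06
import Pool.Agent.LibFG78.A5
import Pool.Agent.LibFG78.C2
import Pool.Agent.LibFG78.C4
import Pool.Agent.LibFG78.C5
import Pool.Agent.LibTG78.D6b
import Pool.Agent.LibF4.MAll
import Pool.Agent.LibFG78.NT4

/-! Interface of the final assembly. -/

set_option autoImplicit false

namespace Pool.Agent.LibFG78

open MeasureTheory Filter Topology Pool.Agent.LibMM99 Pool.Agent.LibTG78
open scoped ComplexConjugate

/-- integrability of the fourth power with the exponential weight (block M) -/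
theorem zeta4_int {d : ℝ} (hd : 0 < d) :
    IntegrableOn (fun t : ℝ => ‖riemannZeta (1 / 2 + t * Complex.I)‖ ^ 4 * Real.exp (-(2 * d * t))) (Set.Ioi 0) := by
  obtain ⟨C, _, h⟩ := LibF4.I4_half
  have h1 := (h (min d (1/4)) (lt_min hd (by norm_num)) (min_le_right _ _) 1 1 le_rfl le_rfl).1
  have hc : Continuous (fun t : ℝ => ‖riemannZeta (1 / 2 + t * Complex.I)‖ ^ 4 * Real.exp (-(2 * d * t))) :=
    (D5_zeta_cont.norm.pow 4).mul (by fun_prop)
  refine Integrable.mono' h1 hc.aestronglyMeasurable ?_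
  rw [ae_restrict_iff' measurableSet_Ioi]
  refine Eventually.of_forall fun t ht => ?_
  have ht0 : (0:ℝ) < t := ht
  rw [Real.norm_eq_abs, abs_of_nonneg (by positivity)]
  show ‖riemannZeta (1 / 2 + t * Complex.I)‖ ^ 4 * Real.exp (-(2 * d * t)) ≤
    ‖riemannZeta (LibZM.crit t)‖ ^ 4 * Real.exp (-(2 * min d (1/4) * t))
  refine mul_le_mul_of_nonneg_left (Real.exp_le_exp.2 ?_) (by positivity)
  have h2 := min_le_left d (1/4)
  nlinarith

end Pool.Agent.LibFG78
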