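import Mathlib
import Pool.Agent.LibFG78.FIf

/-! Final assembly: the weighted moments of short polynomials with the weight `|ζ|⁴ e^{-2dt}` -/

set_option autoImplicit false

namespace Pool.Agent.LibFG78

open MeasureTheory Filter Topology Pool.Agent.LibMM99 Pool.Agent.LibTG78
open scoped ComplexConjugate

/-- the weight -/
noncomputable def W4 (d t : ℝ) : ℝ := ‖riemannZeta (1 / 2 + t * Complex.I)‖ ^ 4 * Real.exp (-(2 * d * t))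

lemma W4_nonneg (d t : ℝ) : 0 ≤ W4 d t := by unfold W4; positivity

lemma W4_cont (d : ℝ) : Continuous (W4 d) := by
  unfold W4
  exact (D5_zeta_cont.norm.pow 4).mul (by fun_prop)

lemma W4_int {d : ℝ} (hd : 0 < d) {f : ℝ → ℝ} (hf : Continuous f) {B : ℝ} (hB : ∀ t, |f t| ≤ B) :
    IntegrableOn (fun t => W4 d t * f t) (Set.Ioi 0) := by
  have h : IntegrableOn (W4 d) (Set.Ioi 0) := zeta4_int hd
  have h2 : Integrable (fun t => f t * W4 d t) (volume.restrict (Set.Ioi 0)) :=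
    h.bdd_mul (c := B) hf.aestronglyMeasurable
      (Eventually.of_forall fun t => by rw [Real.norm_eq_abs]; exact hB t)
  refine h2.congr (Eventually.of_forall fun t => ?_)
  show f t * W4 d t = W4 d t * f t
  ring

lemma bdd_of_cont {f : Om → ℝ} (hf : Continuous f) : ∃ B : ℝ, ∀ x, |f x| ≤ B := by
  obtain ⟨B, hB⟩ := (isCompact_range hf).isBounded.exists_norm_le
  exact ⟨B, fun x => hB _ ⟨x, rfl⟩⟩

lemma W4_int_xt {d : ℝ} (hd : 0 < d) {f : Om → ℝ} (hf : Continuous f) :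
    IntegrableOn (fun t => W4 d t * f (xt t)) (Set.Ioi 0) := by
  obtain ⟨B, hB⟩ := bdd_of_cont hf
  exact W4_int hd (hf.comp continuous_xt) fun t => hB _

lemma gam4_pos {β : ℝ} (hβ : 0 < β) : 0 < gam4 β := by
  unfold gam4
  positivity

lemma F5_int {L : ℝ} (hL : 1 ≤ L) {f : Om → ℝ} (hf : Continuous f) : Integrable f (nu4 0 L) := by
  haveI := (isProd_nu (D5_adm0 hL)).prob
  exact hf.integrable_of_hasCompactSupport (HasCompactSupport.of_compactSpace f)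

/-- the weighted moments -/
theorem weighted_nu {β : ℝ} (hβ : 0 < β) {w : ℝ → ℂ} {Λ : ℝ} (hw : IsWeight w Λ) :
    ∃ C : ℝ, Tendsto (fun L : ℝ => (∫ x, ‖SS w L x‖ ^ β ∂(nu4 0 L)) / L ^ gam4 β) atTop (𝓝 C) ∧
      ∀ ε : ℝ, 0 < ε → ∃ θ L0 : ℝ, 0 < θ ∧ 1 ≤ L0 ∧ ∀ L d : ℝ, L0 ≤ L → 0 < d → L ≤ θ * Real.log (1 / d) →
      |d * (∫ t in Set.Ioi (0 : ℝ), W4 d t * ‖SS w L (xt t)‖ ^ β) -
        1 / (4 * Real.pi ^ 2) * C * L ^ gam4 β * Real.log (1 / d) ^ 4| ≤ ε * L ^ gam4 β * Real.log (1 / d) ^ 4 := by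
  obtain ⟨Ca, hCa, happ⟩ := approx_nu hβ hw
  obtain ⟨CP, δ, d0, hCP, hδ, hd0, hd01, hpoly⟩ := mom4
  have hg := gam4_pos hβ
  have hcS : ∀ L, Continuous fun x => ‖SS w L x‖ ^ β := fun L =>
    ((continuous_norm.comp (continuous_DS _ _)).rpow_const fun _ => Or.inr hβ.le)
  have hmean : ∀ (L v Θ ε : ℝ) (Φ Ξ : Om → ℝ), 1 ≤ L → (∀ x, |‖SS w L x‖ ^ β - Φ x| ≤ Ξ x) →
      ∫ x, Ξ x ∂(nu4 0 L) ≤ ε * L ^ gam4 β → |∫ x, Φ x ∂(nu4 0 L) - v * L ^ gam4 β| ≤ ε * L ^ gam4 β →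
      IsPolyR (Θ * L) Φ → IsPolyR (Θ * L) Ξ →
      |(∫ x, ‖SS w L x‖ ^ β ∂(nu4 0 L)) / L ^ gam4 β - v| ≤ 2 * ε := by
    intro L v Θ ε Φ Ξ hL h1 h2 h3 h4 h5
    have hN : 0 < L ^ gam4 β := Real.rpow_pos_of_pos (by linarith) _
    have j1 : Integrable (fun x => ‖SS w L x‖ ^ β) (nu4 0 L) := F5_int hL (hcS L)
    have j2 : Integrable Φ (nu4 0 L) := F5_int hL h4.continuous
    have j3 : Integrable Ξ (nu4 0 L) := F5_int hL h5.continuous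
    have h6 : |(∫ x, ‖SS w L x‖ ^ β ∂(nu4 0 L)) - ∫ x, Φ x ∂(nu4 0 L)| ≤ ∫ x, Ξ x ∂(nu4 0 L) := by
      rw [← integral_sub j1 j2]
      refine le_trans (abs_integral_le_integral_abs) ?_
      exact integral_mono (j1.sub j2).abs j3 h1
    have h7 : (∫ x, ‖SS w L x‖ ^ β ∂(nu4 0 L)) / L ^ gam4 β - v =
        ((∫ x, ‖SS w L x‖ ^ β ∂(nu4 0 L)) - v * L ^ gam4 β) / L ^ gam4 β := by
      field_simp
    rw [h7, abs_div, abs_of_pos hN, div_le_iff₀ hN]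
    have h8 := abs_sub_le (∫ x, ‖SS w L x‖ ^ β ∂(nu4 0 L)) (∫ x, Φ x ∂(nu4 0 L)) (v * L ^ gam4 β)
    linarith
  obtain ⟨C, hC⟩ : ∃ C, Tendsto (fun L : ℝ => (∫ x, ‖SS w L x‖ ^ β ∂(nu4 0 L)) / L ^ gam4 β) atTop
      (𝓝 C) := by
    apply exists_limit
    intro ε hε
    obtain ⟨v, Θ, L0, hL01, hΘ, h⟩ := happ (ε / 2) (by positivity)
    refine ⟨v, L0, fun L hL => ?_⟩
    have hL1 : 1 ≤ L := by linarith
    obtain ⟨Φ, Ξ, h1, h2, _, h3, h4, h5, _, _⟩ := h L hL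
    have := hmean L v Θ (ε / 2) Φ Ξ hL1 h1 (h2 0 (D5_adm0 hL1)) h3 h4 h5
    linarith
  refine ⟨C, hC, ?_⟩
  intro ε hε
  obtain ⟨ε1, hε1⟩ : ∃ ε1, ε1 = ε / (2 * (4 + CP)) := ⟨_, rfl⟩
  have hε1p : 0 < ε1 := by rw [hε1]; positivity
  obtain ⟨v, Θ, L0, hL01, hΘ, h⟩ := happ ε1 hε1p
  have hv : |C - v| ≤ 2 * ε1 := by
    have h1 : Tendsto (fun L : ℝ => |(∫ x, ‖SS w L x‖ ^ β ∂(nu4 0 L)) / L ^ gam4 β - v|) atTop
      (𝓝 |C - v|) := (hC.sub_const v).abs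
    apply le_of_tendsto h1
    filter_upwards [eventually_ge_atTop L0] with L hL
    have hL1 : 1 ≤ L := by linarith
    obtain ⟨Φ, Ξ, h1, h2, _, h3, h4, h5, _, _⟩ := h L hL
    exact hmean L v Θ ε1 Φ Ξ hL1 h1 (h2 0 (D5_adm0 hL1)) h3 h4 h5
  have hld0 : 0 ≤ Real.log (1 / d0) := Real.log_nonneg (by rw [le_div_iff₀ hd0]; linarith)
  obtain ⟨θ, hθ0, hθ1, hθ2, hθ3, hθ4⟩ : ∃ θ : ℝ, 0 < θ ∧ θ ≤ 1 ∧ θ * Θ ≤ δ ∧
      θ * (Real.log (1 / d0) + 1) ≤ 1 ∧ θ * (CP * Ca + 2 * CP) ≤ ε / 2 := by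
    obtain ⟨D, hD⟩ : ∃ D : ℝ, D = 1 + Θ / δ + (Real.log (1 / d0) + 1) + (CP * Ca + 2 * CP) / (ε / 2) :=
      ⟨_, rfl⟩
    have p1 : 0 ≤ Θ / δ := by positivity
    have p2 : 0 ≤ (CP * Ca + 2 * CP) / (ε / 2) := by positivity
    have hDp : 0 < D := by rw [hD]; linarith
    refine ⟨1 / D, by positivity, ?_, ?_, ?_, ?_⟩
    · rw [div_le_one hDp, hD]; linarith
    · rw [one_div, inv_mul_le_iff₀ hDp]
      have : Θ / δ ≤ D := by rw [hD]; linarith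
      rwa [div_le_iff₀ hδ] at this
    · rw [one_div, inv_mul_le_iff₀ hDp, hD]; linarith
    · rw [one_div, inv_mul_le_iff₀ hDp]
      have : (CP * Ca + 2 * CP) / (ε / 2) ≤ D := by rw [hD]; linarith
      rwa [div_le_iff₀ (by positivity)] at this
  refine ⟨θ, L0, hθ0, hL01, ?_⟩
  intro L d hL hd hLT
  have hL1 : 1 ≤ L := by linarith
  obtain ⟨Φ, Ξ, h1, h2, h3, h4, h5, h6, h7, h8⟩ := h L hL
  obtain ⟨D, hD⟩ : ∃ D, D = Real.log (1 / d) := ⟨_, rfl⟩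
  rw [← hD] at hLT ⊢
  have hlT : 1 ≤ θ * D := hL1.trans hLT
  have hD1 : 1 ≤ D := by nlinarith
  have hlT0 : 0 ≤ D := by linarith
  have hLlT : L ≤ D := hLT.trans (by nlinarith)
  have hdd0 : d ≤ d0 := by
    have h9 : Real.log (1 / d0) + 1 ≤ D := by
      by_contra hc
      push Not at hc
      have h10 : θ * D < θ * (Real.log (1 / d0) + 1) := mul_lt_mul_of_pos_left hc hθ0
      linarith
    have h11 : Real.log (1 / d0) ≤ Real.log (1 / d) := by rw [← hD]; linarith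
    have h12 : 1 / d0 ≤ 1 / d := (Real.log_le_log_iff (by positivity) (by positivity)).1 h11
    exact (one_div_le_one_div hd0 hd).1 h12
  have ha : Θ * L ≤ δ * D := by
    calc Θ * L ≤ Θ * (θ * D) := mul_le_mul_of_nonneg_left hLT (by linarith)
      _ = (θ * Θ) * D := by ring
      _ ≤ δ * D := mul_le_mul_of_nonneg_right hθ2 hlT0
  obtain ⟨N, hN⟩ : ∃ N, N = L ^ gam4 β := ⟨_, rfl⟩
  rw [← hN] at h2 h3 h4 ⊢
  have hN1 : 1 ≤ N := by rw [hN]; exact Real.one_le_rpow hL1 hg.le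
  have hΞ0 : ∀ x, 0 ≤ Ξ x := fun x => (abs_nonneg _).trans (h1 x)
  have pΞ := hpoly (Θ * L) L (ε1 * N) d Ξ hL1 hd hdd0 (by rw [← hD]; exact ha) (by rw [← hD]; exact hLlT) h6 h8
    (fun s hs => by
    have : ∫ x, |Ξ x| ∂(nu4 s L) = ∫ x, Ξ x ∂(nu4 s L) :=
      integral_congr_ae (Eventually.of_forall fun x => abs_of_nonneg (hΞ0 x))
    rw [this]
    exact h2 s hs)
  have pΦ := hpoly (Θ * L) L (Ca * N) d Φ hL1 hd hdd0 (by rw [← hD]; exact ha) (by rw [← hD]; exact hLlT) h5 h7 h3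
  rw [← hD] at pΞ pΦ
  have hdδ : d ^ δ ≤ 1 := Real.rpow_le_one hd.le (by linarith) hδ.le
  have ct1 : IntegrableOn (fun t : ℝ => W4 d t * ‖SS w L (xt t)‖ ^ β) (Set.Ioi 0) :=
    W4_int_xt hd (hcS L)
  have ct2 : IntegrableOn (fun t : ℝ => W4 d t * Φ (xt t)) (Set.Ioi 0) := W4_int_xt hd h5.continuous
  have ct3 : IntegrableOn (fun t : ℝ => W4 d t * Ξ (xt t)) (Set.Ioi 0) := W4_int_xt hd h6.continuous
  have i1 : |(∫ t in Set.Ioi (0 : ℝ), W4 d t * ‖SS w L (xt t)‖ ^ β) -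
      ∫ t in Set.Ioi (0 : ℝ), W4 d t * Φ (xt t)| ≤ ∫ t in Set.Ioi (0 : ℝ), W4 d t * Ξ (xt t) := by
    rw [← integral_sub ct1 ct2]
    refine le_trans abs_integral_le_integral_abs ?_
    refine integral_mono (ct1.sub ct2).abs ct3 fun t => ?_
    beta_reduce
    rw [← mul_sub, abs_mul, abs_of_nonneg (W4_nonneg d t)]
    exact mul_le_mul_of_nonneg_left (h1 (xt t)) (W4_nonneg d t)
  have i2 : |d * (∫ t in Set.Ioi (0 : ℝ), W4 d t * ‖SS w L (xt t)‖ ^ β) -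
      d * ∫ t in Set.Ioi (0 : ℝ), W4 d t * Φ (xt t)| ≤
      d * ∫ t in Set.Ioi (0 : ℝ), W4 d t * Ξ (xt t) := by
    rw [← mul_sub, abs_mul, abs_of_pos hd]
    exact mul_le_mul_of_nonneg_left i1 hd.le
  obtain ⟨X, hX⟩ : ∃ X, X = d * (∫ t in Set.Ioi (0 : ℝ), W4 d t * ‖SS w L (xt t)‖ ^ β) := ⟨_, rfl⟩
  obtain ⟨XΦ, hXΦ⟩ : ∃ X, X = d * (∫ t in Set.Ioi (0 : ℝ), W4 d t * Φ (xt t)) := ⟨_, rfl⟩
  obtain ⟨XΞ, hXΞ⟩ : ∃ X, X = d * (∫ t in Set.Ioi (0 : ℝ), W4 d t * Ξ (xt t)) := ⟨_, rfl⟩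
  have pΞ' : |XΞ - 1 / (4 * Real.pi ^ 2) * D ^ 4 * ∫ x, Ξ x ∂(nu4 0 L)| ≤
      CP * L * D ^ 3 * (ε1 * N) + CP * d ^ δ := by rw [hXΞ]; exact pΞ
  have pΦ' : |XΦ - 1 / (4 * Real.pi ^ 2) * D ^ 4 * ∫ x, Φ x ∂(nu4 0 L)| ≤
      CP * L * D ^ 3 * (Ca * N) + CP * d ^ δ := by rw [hXΦ]; exact pΦ
  rw [← hX, ← hXΦ, ← hXΞ] at i2
  rw [← hX]
  obtain ⟨c0, hc0⟩ : ∃ c0 : ℝ, c0 = 1 / (4 * Real.pi ^ 2) := ⟨_, rfl⟩
  rw [← hc0] at pΞ' pΦ' ⊢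
  have hc0p : 0 ≤ c0 := by rw [hc0]; positivity
  have hc01 : c0 ≤ 1 := by
    rw [hc0, div_le_one (by positivity)]
    have := Real.pi_gt_three
    nlinarith
  have hD4 : 0 ≤ D ^ 4 := by positivity
  have hD3 : 0 ≤ D ^ 3 := by positivity
  have hlN : D ^ 4 ≤ N * D ^ 4 := by nlinarith
  have hD14 : D ≤ D ^ 4 := by
    calc D = D ^ 1 := (pow_one D).symm
      _ ≤ D ^ 4 := pow_le_pow_right₀ hD1 (by norm_num)
  -- the majorant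
  have b1 : XΞ ≤ (ε1 + CP * ε1) * (N * D ^ 4) + CP := by
    have e1 := (abs_le.1 pΞ').2
    have e2 : c0 * D ^ 4 * ∫ x, Ξ x ∂(nu4 0 L) ≤ D ^ 4 * (ε1 * N) := by
      have hI0 : 0 ≤ ∫ x, Ξ x ∂(nu4 0 L) := integral_nonneg hΞ0
      calc c0 * D ^ 4 * ∫ x, Ξ x ∂(nu4 0 L) ≤ 1 * D ^ 4 * ∫ x, Ξ x ∂(nu4 0 L) :=
            mul_le_mul_of_nonneg_right (mul_le_mul_of_nonneg_right hc01 hD4) hI0
        _ = D ^ 4 * ∫ x, Ξ x ∂(nu4 0 L) := by ring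
        _ ≤ _ := mul_le_mul_of_nonneg_left (h2 0 (D5_adm0 hL1)) hD4
    have e3 : CP * L * D ^ 3 * (ε1 * N) ≤ CP * D * D ^ 3 * (ε1 * N) := by
      refine mul_le_mul_of_nonneg_right ?_ (by positivity)
      exact mul_le_mul_of_nonneg_right (mul_le_mul_of_nonneg_left hLlT hCP.le) hD3
    have e4 : CP * d ^ δ ≤ CP := by nlinarith
    have e5 : (ε1 + CP * ε1) * (N * D ^ 4) = D ^ 4 * (ε1 * N) + CP * D * D ^ 3 * (ε1 * N) := by ring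
    linarith
  -- the polynomial
  have b2 : |XΦ - c0 * D ^ 4 * ∫ x, Φ x ∂(nu4 0 L)| ≤ CP * Ca * θ * (N * D ^ 4) + CP := by
    have e3 : CP * L * D ^ 3 * (Ca * N) ≤ CP * (θ * D) * D ^ 3 * (Ca * N) := by
      refine mul_le_mul_of_nonneg_right ?_ (by positivity)
      exact mul_le_mul_of_nonneg_right (mul_le_mul_of_nonneg_left hLT hCP.le) hD3
    have e4 : CP * d ^ δ ≤ CP := by nlinarith
    have e5 : CP * Ca * θ * (N * D ^ 4) = CP * (θ * D) * D ^ 3 * (Ca * N) := by ring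
    linarith
  have b3 : |c0 * D ^ 4 * (∫ x, Φ x ∂(nu4 0 L)) - c0 * C * N * D ^ 4| ≤ 3 * ε1 * (N * D ^ 4) := by
    have e1 : |(∫ x, Φ x ∂(nu4 0 L)) - C * N| ≤ 3 * ε1 * N := by
      have e2 : |v * N - C * N| ≤ 2 * ε1 * N := by
        rw [← sub_mul, abs_mul, abs_of_pos (by linarith : 0 < N), abs_sub_comm]
        exact mul_le_mul_of_nonneg_right hv (by linarith)
      have e3 := abs_sub_le (∫ x, Φ x ∂(nu4 0 L)) (v * N) (C * N)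
      linarith
    have e4 : c0 * D ^ 4 * (∫ x, Φ x ∂(nu4 0 L)) - c0 * C * N * D ^ 4 =
      (c0 * D ^ 4) * ((∫ x, Φ x ∂(nu4 0 L)) - C * N) := by ring
    have hcD : 0 ≤ c0 * D ^ 4 := by positivity
    rw [e4, abs_mul, abs_of_nonneg hcD]
    have hcD1 : c0 * D ^ 4 ≤ D ^ 4 := by nlinarith
    calc (c0 * D ^ 4) * |(∫ x, Φ x ∂(nu4 0 L)) - C * N| ≤ (D ^ 4) * (3 * ε1 * N) :=
          mul_le_mul hcD1 e1 (abs_nonneg _) hD4
      _ = _ := by ring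
  have b4 : 2 * CP ≤ 2 * CP * θ * (N * D ^ 4) := by
    have e1 : 1 ≤ θ * (N * D ^ 4) := by
      calc (1:ℝ) ≤ θ * D := hlT
        _ ≤ θ * (N * D ^ 4) := mul_le_mul_of_nonneg_left (hD14.trans hlN) hθ0.le
    nlinarith
  have b5 : (ε1 + CP * ε1) + CP * Ca * θ + 3 * ε1 + 2 * CP * θ ≤ ε := by
    have e1 : ε1 * (4 + CP) = ε / 2 := by
      rw [hε1]
      field_simp
    have e2 : (ε1 + CP * ε1) + CP * Ca * θ + 3 * ε1 + 2 * CP * θ =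
      ε1 * (4 + CP) + θ * (CP * Ca + 2 * CP) := by ring
    linarith
  have hNl : 0 ≤ N * D ^ 4 := by positivity
  have e1 := abs_sub_le X XΦ (c0 * C * N * D ^ 4)
  have e2 := abs_sub_le XΦ (c0 * D ^ 4 * ∫ x, Φ x ∂(nu4 0 L)) (c0 * C * N * D ^ 4)
  calc |X - c0 * C * N * D ^ 4| ≤ ((ε1 + CP * ε1) * (N * D ^ 4) + CP) +
        ((CP * Ca * θ * (N * D ^ 4) + CP) + 3 * ε1 * (N * D ^ 4)) := by linarith
    _ ≤ ((ε1 + CP * ε1) + CP * Ca * θ + 3 * ε1 + 2 * CP * θ) * (N * D ^ 4) := by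
        have e3 : ((ε1 + CP * ε1) + CP * Ca * θ + 3 * ε1 + 2 * CP * θ) * (N * D ^ 4) =
          ((ε1 + CP * ε1) * (N * D ^ 4)) + CP * Ca * θ * (N * D ^ 4) +
          3 * ε1 * (N * D ^ 4) + 2 * CP * θ * (N * D ^ 4) := by ring
        linarith
    _ ≤ ε * (N * D ^ 4) := mul_le_mul_of_nonneg_right b5 hNl
    _ = ε * N * D ^ 4 := by ring

end Pool.Agent.LibFG78
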