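import Mathlib
import Pool.Agent.LibFG78.F5

/-! Final assembly: the pole term -/

set_option autoImplicit false

namespace Pool.Agent.LibFG78

open MeasureTheory Filter Topology Pool.Agent.LibMM99 Pool.Agent.LibTG78
open scoped ComplexConjugate

/-- the fourth moment of zeta (upper bound) -/
theorem F6_fourth : ∃ C d1 : ℝ, 0 < C ∧ 0 < d1 ∧ d1 ≤ 1 / 4 ∧ ∀ d : ℝ, 0 < d → d ≤ d1 →
    d * ∫ t in Set.Ioi (0 : ℝ), W4 d t ≤ C * (1 + Real.log (1 / d)) ^ 4 := by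
  obtain ⟨C, η, d0, hC, hη, hd0, hd01, h⟩ := mom4
  refine ⟨1 + 2 * C, min d0 (Real.exp (-1)), by positivity, lt_min hd0 (Real.exp_pos _),
    (min_le_left _ _).trans hd01, fun d hd hdd => ?_⟩
  have h1 : d ≤ d0 := hdd.trans (min_le_left _ _)
  have h2 : d ≤ Real.exp (-1) := hdd.trans (min_le_right _ _)
  obtain ⟨D, hD⟩ : ∃ D, D = Real.log (1 / d) := ⟨_, rfl⟩
  have hD1 : 1 ≤ D := by
    rw [hD, one_div, Real.log_inv]
    have := Real.log_le_log hd h2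
    rw [Real.log_exp] at this
    linarith
  have h3 := h 0 1 1 d (fun _ => 1) le_rfl hd h1 (by rw [← hD]; positivity) (by rw [← hD]; exact hD1)
    (IsPolyR.const 1 le_rfl (by simp)) (fun _ _ _ => rfl) (fun s hs => by
      haveI := (isProd_nu hs).prob
      simp)
  haveI := (isProd_nu (D5_adm0 (le_refl (1:ℝ)))).prob
  have h4 : ∫ _x : Om, (1:ℝ) ∂(nu4 0 1) = 1 := by simp
  rw [h4, ← hD] at h3
  have h5 := (abs_le.1 h3).2
  have h6 : d ^ η ≤ 1 := Real.rpow_le_one hd.le (by linarith) hη.le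
  have h7 : 1 / (4 * Real.pi ^ 2) ≤ 1 := by
    rw [div_le_one (by positivity)]
    have := Real.pi_gt_three
    nlinarith
  have hD3 : 0 ≤ D ^ 3 := by positivity
  have h8 : D ^ 3 ≤ (1 + D) ^ 4 := by
    calc D ^ 3 ≤ (1 + D) ^ 3 := pow_le_pow_left₀ (by linarith) (by linarith) 3
      _ ≤ (1 + D) ^ 4 := pow_le_pow_right₀ (by linarith) (by norm_num)
  have h9 : D ^ 4 ≤ (1 + D) ^ 4 := pow_le_pow_left₀ (by linarith) (by linarith) 4
  have h10 : 1 ≤ (1 + D) ^ 4 := one_le_pow₀ (by linarith)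
  have e1 : (d * ∫ t in Set.Ioi (0 : ℝ), ‖riemannZeta (1 / 2 + t * Complex.I)‖ ^ 4 *
      Real.exp (-(2 * d * t)) * 1) = d * ∫ t in Set.Ioi (0 : ℝ), W4 d t := by
    simp only [mul_one, W4]
  rw [e1] at h5
  rw [← hD]
  have e2 : 1 / (4 * Real.pi ^ 2) * D ^ 4 * 1 ≤ (1 + D) ^ 4 := by
    rw [mul_one]
    calc 1 / (4 * Real.pi ^ 2) * D ^ 4 ≤ 1 * D ^ 4 := mul_le_mul_of_nonneg_right h7 (by positivity)
      _ ≤ _ := by linarith
  have e3 : C * 1 * D ^ 3 * 1 ≤ C * (1 + D) ^ 4 := by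
    calc C * 1 * D ^ 3 * 1 = C * D ^ 3 := by ring
      _ ≤ _ := mul_le_mul_of_nonneg_left h8 hC.le
  have e4 : C * d ^ η ≤ C * (1 + D) ^ 4 :=
    mul_le_mul_of_nonneg_left (h6.trans h10) hC.le
  have e5 : (1 + 2 * C) * (1 + D) ^ 4 = (1 + D) ^ 4 + C * (1 + D) ^ 4 + C * (1 + D) ^ 4 := by ring
  rw [e5]
  linarith

/-- the pole term in mean, weighted by `|ζ|⁴` -/
theorem F6_pole {β : ℝ} (hβ : 0 < β) {φ : ℝ → ℂ} (hφ : Integrable φ)
    (hφ1 : Integrable fun u : ℝ => (u : ℂ) * φ u) {B : ℝ} (hB : 0 < B)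
    (hsupp : ∀ y : ℝ, B ≤ |y| → ∫ u : ℝ, φ u * Complex.exp (-((y * u : ℝ) : ℂ) * Complex.I) = 0) :
    ∃ C d1 : ℝ, 0 ≤ C ∧ 0 < d1 ∧ d1 ≤ 1 / 4 ∧ ∀ d h : ℝ, 0 < h → 0 < d → d ≤ d1 →
      β * (B / h) ≤ min 1 β / 2 * Real.log (1 / d) →
      IntegrableOn (fun t => W4 d t * ‖T28.PP φ B h t‖ ^ β) (Set.Ioi 0) ∧
      d * (∫ t in Set.Ioi (0 : ℝ), W4 d t * ‖T28.PP φ B h t‖ ^ β) ≤
        C * (1 + Real.log (1 / d)) ^ 4 * d ^ (min 1 β / 4) := by
  obtain ⟨C2, d2, hC2, hd2, hd24, h2⟩ := F6_fourth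
  obtain ⟨M1, hM1⟩ : ∃ M1 : ℝ, M1 = ∫ u : ℝ, ‖(u : ℂ) * φ u‖ := ⟨_, rfl⟩
  have hM0 : 0 ≤ M1 := by rw [hM1]; exact integral_nonneg fun u => norm_nonneg _
  obtain ⟨c0, hc0⟩ : ∃ c0 : ℝ, c0 = min 1 β / 2 := ⟨_, rfl⟩
  have hc0p : 0 < c0 := by rw [hc0]; exact div_pos (lt_min one_pos hβ) (by norm_num)
  have hc01 : c0 ≤ 1 / 2 := by
    rw [hc0]
    have := min_le_left 1 β
    linarith
  have hc0β : c0 ≤ β / 2 := by
    rw [hc0]
    have := min_le_right 1 β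
    linarith
  refine ⟨(4 * B * M1) ^ β * C2 * (32 * Real.exp 1 + 1), min d2 (4 * d2 ^ 2), by positivity,
    lt_min hd2 (by positivity), (min_le_left _ _).trans hd24, ?_⟩
  intro d h hh hd hdd hs
  rw [← hc0] at hs
  have hdd2 : d ≤ d2 := hdd.trans (min_le_left _ _)
  have hdd3 : d ≤ 4 * d2 ^ 2 := hdd.trans (min_le_right _ _)
  have hd1 : d ≤ 1 / 4 := hdd2.trans hd24
  obtain ⟨T, hTdef⟩ : ∃ T, T = 1 / d := ⟨_, rfl⟩
  have hdT : d = T⁻¹ := by rw [hTdef, one_div, inv_inv]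
  have hT : 1 ≤ T := by rw [hTdef, le_div_iff₀ hd]; linarith
  have hTp : 0 < T := by linarith
  rw [← hTdef] at hs ⊢
  have hlT : 0 ≤ Real.log T := Real.log_nonneg hT
  obtain ⟨R, hR⟩ : ∃ R, R = T ^ (1/2 : ℝ) := ⟨_, rfl⟩
  have hR1 : 1 ≤ R := by rw [hR]; exact Real.one_le_rpow hT (by norm_num)
  have hR0 : 0 < R := by linarith
  have hE : Real.exp (B / (2 * h)) ^ β ≤ T ^ (c0 / 2) := by
    rw [← Real.exp_mul, Real.rpow_def_of_pos hTp, Real.exp_le_exp]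
    have e1 : B / (2 * h) * β = (β * (B / h)) / 2 := by field_simp
    rw [e1]
    linarith
  have hPc : Continuous fun t => ‖T28.PP φ B h t‖ ^ β :=
    (T28.continuous_PP hφ B h).norm.rpow_const fun t => Or.inr hβ.le
  have hb : ∀ t, ‖T28.PP φ B h t‖ ≤
      2 * B * M1 * Real.exp (B / (2 * h)) / ‖(-1 / 2 + t * Complex.I : ℂ)‖ := by
    intro t
    rw [hM1]
    exact pole_term_le hφ hφ1 hB hsupp hh t
  have hb1 : ∀ t, ‖T28.PP φ B h t‖ ^ β ≤ (4 * B * M1) ^ β * T ^ (c0 / 2) := by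
    intro t
    have h3 : ‖T28.PP φ B h t‖ ≤ 4 * B * M1 * Real.exp (B / (2 * h)) := by
      refine (hb t).trans ?_
      rw [div_le_iff₀ (lt_of_lt_of_le (by norm_num) (D6_norm_half t))]
      have h4 := D6_norm_half t
      have h5 : 0 ≤ 4 * B * M1 * Real.exp (B / (2 * h)) := by positivity
      nlinarith
    calc ‖T28.PP φ B h t‖ ^ β ≤ (4 * B * M1 * Real.exp (B / (2 * h))) ^ β :=
          Real.rpow_le_rpow (norm_nonneg _) h3 hβ.le
      _ = (4 * B * M1) ^ β * Real.exp (B / (2 * h)) ^ β :=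
          Real.mul_rpow (by positivity) (Real.exp_pos _).le
      _ ≤ _ := mul_le_mul_of_nonneg_left hE (by positivity)
  have hb2 : ∀ t, R ≤ t → ‖T28.PP φ B h t‖ ^ β ≤ (4 * B * M1) ^ β * T ^ (c0 / 2) * T ^ (-(β / 2)) := by
    intro t ht
    have h3 : ‖T28.PP φ B h t‖ ≤ 4 * B * M1 * Real.exp (B / (2 * h)) * R⁻¹ := by
      refine (hb t).trans ?_
      have h4 := (ht.trans (D6_norm_t t))
      have h5 : 0 ≤ 2 * B * M1 * Real.exp (B / (2 * h)) := by positivity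
      calc 2 * B * M1 * Real.exp (B / (2 * h)) / ‖(-1 / 2 + t * Complex.I : ℂ)‖ ≤
            2 * B * M1 * Real.exp (B / (2 * h)) / R :=
            div_le_div_of_nonneg_left h5 (by linarith) h4
        _ = 2 * B * M1 * Real.exp (B / (2 * h)) * R⁻¹ := div_eq_mul_inv _ _
        _ ≤ 4 * B * M1 * Real.exp (B / (2 * h)) * R⁻¹ := by
            refine mul_le_mul_of_nonneg_right ?_ (by positivity)
            have : 4 * B * M1 * Real.exp (B / (2 * h)) =
              2 * (2 * B * M1 * Real.exp (B / (2 * h))) := by ring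
            linarith
    have h6 : R⁻¹ ^ β = T ^ (-(β / 2)) := by
      rw [hR, ← Real.rpow_neg hTp.le, ← Real.rpow_mul hTp.le]
      congr 1
      ring
    calc ‖T28.PP φ B h t‖ ^ β ≤ (4 * B * M1 * Real.exp (B / (2 * h)) * R⁻¹) ^ β :=
          Real.rpow_le_rpow (norm_nonneg _) h3 hβ.le
      _ = (4 * B * M1) ^ β * Real.exp (B / (2 * h)) ^ β * R⁻¹ ^ β := by
          rw [Real.mul_rpow (by positivity) (by positivity),
            Real.mul_rpow (by positivity) (Real.exp_pos _).le]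
      _ ≤ (4 * B * M1) ^ β * T ^ (c0 / 2) * R⁻¹ ^ β := by
          refine mul_le_mul_of_nonneg_right ?_ (by positivity)
          exact mul_le_mul_of_nonneg_left hE (by positivity)
      _ = _ := by rw [h6]
  obtain ⟨Q, hQ⟩ : ∃ Q, Q = (4 * B * M1) ^ β * T ^ (c0 / 2) := ⟨_, rfl⟩
  have hQ0 : 0 ≤ Q := by rw [hQ]; positivity
  rw [← hQ] at hb1 hb2
  have hTβ : 0 ≤ T ^ (-(β / 2)) := by positivity
  obtain ⟨d', hd'⟩ : ∃ d', d' = 1 / (2 * R) := ⟨_, rfl⟩
  have hd'0 : 0 < d' := by rw [hd']; positivity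
  have hd'2 : d' ≤ d2 := by
    have h3 : d' ^ 2 ≤ d2 ^ 2 := by
      have h4 : R ^ 2 = T := by
        rw [hR, ← Real.rpow_natCast, ← Real.rpow_mul hTp.le]
        norm_num
      have h5 : d' ^ 2 = d / 4 := by
        rw [hd', hdT, div_pow, mul_pow, h4]
        field_simp
        norm_num
      rw [h5]
      linarith
    exact (pow_le_pow_iff_left₀ hd'0.le hd2.le (by norm_num)).1 h3
  have hf1 := h2 d hd hdd2
  have hf2 := h2 d' hd'0 hd'2
  rw [← hTdef] at hf1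
  have hint : IntegrableOn (fun t => W4 d t * ‖T28.PP φ B h t‖ ^ β) (Set.Ioi 0) :=
    W4_int hd hPc fun t => by
      rw [abs_of_nonneg (Real.rpow_nonneg (norm_nonneg _) _)]
      exact hb1 t
  refine ⟨hint, ?_⟩
  have hi1 : IntegrableOn (W4 d) (Set.Ioi 0) := zeta4_int hd
  have hi2 : IntegrableOn (W4 d') (Set.Ioi 0) := zeta4_int hd'0
  have hpt : ∀ t ∈ Set.Ioi (0:ℝ), W4 d t * ‖T28.PP φ B h t‖ ^ β ≤
      Q * Real.exp 1 * W4 d' t + Q * T ^ (-(β / 2)) * W4 d t := by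
    intro t ht
    have ht0 : 0 < t := ht
    have hW := W4_nonneg d t
    have hW' := W4_nonneg d' t
    rcases le_total t R with h3 | h3
    · have h4 : W4 d t ≤ Real.exp 1 * W4 d' t := by
        unfold W4
        have h5 : Real.exp (-(2 * d * t)) ≤ Real.exp 1 * Real.exp (-(2 * d' * t)) := by
          rw [← Real.exp_add]
          apply Real.exp_le_exp.2
          have h6 : 2 * d' * t ≤ 1 := by
            rw [hd']
            have : 2 * (1 / (2 * R)) * t = t / R := by field_simp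
            rw [this, div_le_one hR0]
            exact h3
          have h7 : 0 ≤ 2 * d * t := by positivity
          linarith
        calc ‖riemannZeta (1 / 2 + t * Complex.I)‖ ^ 4 * Real.exp (-(2 * d * t)) ≤
              ‖riemannZeta (1 / 2 + t * Complex.I)‖ ^ 4 * (Real.exp 1 * Real.exp (-(2 * d' * t))) :=
              mul_le_mul_of_nonneg_left h5 (by positivity)
          _ = _ := by ring
      have h5 : W4 d t * ‖T28.PP φ B h t‖ ^ β ≤ (Real.exp 1 * W4 d' t) * Q :=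
        mul_le_mul h4 (hb1 t) (by positivity) (by positivity)
      have h6 : 0 ≤ Q * T ^ (-(β / 2)) * W4 d t := by positivity
      linarith
    · have h5 : W4 d t * ‖T28.PP φ B h t‖ ^ β ≤ W4 d t * (Q * T ^ (-(β / 2))) :=
        mul_le_mul_of_nonneg_left (hb2 t h3) hW
      have h6 : 0 ≤ Q * Real.exp 1 * W4 d' t := by positivity
      linarith
  have i1 : ∫ t in Set.Ioi (0 : ℝ), W4 d t * ‖T28.PP φ B h t‖ ^ β ≤
      Q * Real.exp 1 * (∫ t in Set.Ioi (0 : ℝ), W4 d' t) + Q * T ^ (-(β / 2)) * ∫ t in Set.Ioi (0 : ℝ), W4 d t := by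
    rw [← integral_const_mul, ← integral_const_mul, ← integral_add (hi2.const_mul _) (hi1.const_mul _)]
    exact setIntegral_mono_on hint ((hi2.const_mul _).add (hi1.const_mul _)) measurableSet_Ioi hpt
  have hlR : 1 + Real.log (1 / d') ≤ 2 * (1 + Real.log T) := by
    have h3 : 1 / d' = 2 * R := by rw [hd']; field_simp
    rw [h3, Real.log_mul (by norm_num) hR0.ne', hR, Real.log_rpow hTp]
    have := Real.log_two_lt_d9
    linarith
  have hlR0 : 0 ≤ 1 + Real.log (1 / d') := by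
    have h3 : 1 / d' = 2 * R := by rw [hd']; field_simp
    rw [h3]
    have : 0 ≤ Real.log (2 * R) := Real.log_nonneg (by linarith)
    linarith
  have i2 : ∫ t in Set.Ioi (0 : ℝ), W4 d' t ≤ C2 * (16 * (1 + Real.log T) ^ 4) * (2 * R) := by
    have h3 : (1 + Real.log (1 / d')) ^ 4 ≤ 16 * (1 + Real.log T) ^ 4 := by
      calc (1 + Real.log (1 / d')) ^ 4 ≤ (2 * (1 + Real.log T)) ^ 4 := pow_le_pow_left₀ hlR0 hlR 4
        _ = _ := by ring
    have h4 : d' * (∫ t in Set.Ioi (0 : ℝ), W4 d' t) ≤ C2 * (16 * (1 + Real.log T) ^ 4) :=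
      hf2.trans (mul_le_mul_of_nonneg_left h3 hC2.le)
    have h5 : (∫ t in Set.Ioi (0 : ℝ), W4 d' t) = (2 * R) * (d' * ∫ t in Set.Ioi (0 : ℝ), W4 d' t) := by
      rw [hd']
      field_simp
    rw [h5, mul_comm (2 * R)]
    exact mul_le_mul_of_nonneg_right h4 (by positivity)
  have i3 : ∫ t in Set.Ioi (0 : ℝ), W4 d t ≤ C2 * (1 + Real.log T) ^ 4 * T := by
    have h5 : (∫ t in Set.Ioi (0 : ℝ), W4 d t) = (d * ∫ t in Set.Ioi (0 : ℝ), W4 d t) * T := by
      rw [hdT]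
      field_simp
    rw [h5]
    exact mul_le_mul_of_nonneg_right hf1 hTp.le
  have e4 : min 1 β / 4 = c0 / 2 := by rw [hc0]; ring
  have hdpow : d ^ (c0 / 2) = T ^ (-(c0 / 2)) := by
    rw [hdT, Real.inv_rpow hTp.le, Real.rpow_neg hTp.le]
  rw [e4, hdpow]
  have p1 : T ^ (c0 / 2) * T ^ (-(1/2) : ℝ) ≤ T ^ (-(c0 / 2)) := by
    rw [← Real.rpow_add hTp]
    refine Real.rpow_le_rpow_of_exponent_le hT ?_
    linarith
  have p2 : T ^ (c0 / 2) * T ^ (-(β / 2)) ≤ T ^ (-(c0 / 2)) := by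
    rw [← Real.rpow_add hTp]
    refine Real.rpow_le_rpow_of_exponent_le hT ?_
    linarith
  have hRinv : T⁻¹ * R = T ^ (-(1/2) : ℝ) := by
    rw [hR, ← Real.rpow_neg_one, ← Real.rpow_add hTp]
    norm_num
  have hlT4 : 0 ≤ (1 + Real.log T) ^ 4 := by positivity
  calc d * ∫ t in Set.Ioi (0 : ℝ), W4 d t * ‖T28.PP φ B h t‖ ^ β ≤
        T⁻¹ * (Q * Real.exp 1 * (C2 * (16 * (1 + Real.log T) ^ 4) * (2 * R)) +
          Q * T ^ (-(β / 2)) * (C2 * (1 + Real.log T) ^ 4 * T)) := by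
        rw [← hdT]
        refine mul_le_mul_of_nonneg_left (i1.trans (add_le_add ?_ ?_)) hd.le
        · exact mul_le_mul_of_nonneg_left i2 (by positivity)
        · exact mul_le_mul_of_nonneg_left i3 (by positivity)
    _ = (4 * B * M1) ^ β * C2 * (32 * Real.exp 1) * (1 + Real.log T) ^ 4 * (T ^ (c0 / 2) * (T⁻¹ * R)) +
        (4 * B * M1) ^ β * C2 * (1 + Real.log T) ^ 4 * (T ^ (c0 / 2) * T ^ (-(β / 2))) := by
        rw [hQ]
        field_simp
        ring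
    _ ≤ (4 * B * M1) ^ β * C2 * (32 * Real.exp 1) * (1 + Real.log T) ^ 4 * T ^ (-(c0 / 2)) +
        (4 * B * M1) ^ β * C2 * (1 + Real.log T) ^ 4 * T ^ (-(c0 / 2)) := by
        rw [hRinv]
        exact add_le_add (mul_le_mul_of_nonneg_left p1 (by positivity))
          (mul_le_mul_of_nonneg_left p2 (by positivity))
    _ = _ := by ring

end Pool.Agent.LibFG78
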