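import Mathlib
import Pool.Agent.LibFG78.F6a

/-! Final assembly: the uniform asymptotic formula with exponential weights -/

set_option autoImplicit false

namespace Pool.Agent.LibFG78

open MeasureTheory Filter Topology Pool.Agent.LibMM99 Pool.Agent.LibTG78
open scoped ComplexConjugate

/-- the mesoscopic average of zeta -/
noncomputable def zh (φ : ℝ → ℂ) (h t : ℝ) : ℂ :=
  ∫ u : ℝ, riemannZeta (1 / 2 + ((t + h * u : ℝ) : ℂ) * Complex.I) * φ u

/-- the uniform asymptotic formula with exponential weights -/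
theorem F6_unif {β : ℝ} (hβ : 0 < β) {φ : ℝ → ℂ} (hφ : Integrable φ)
    (hφ1 : Integrable fun u : ℝ => (u : ℂ) * φ u) (hone : ∫ u : ℝ, φ u = 1) {B : ℝ} (hB : 0 < B)
    (hsupp : ∀ y : ℝ, B ≤ |y| → ∫ u : ℝ, φ u * Complex.exp (-((y * u : ℝ) : ℂ) * Complex.I) = 0) :
    ∃ C : ℝ, 0 < C ∧
      Tendsto (fun L : ℝ => (∫ x, ‖SS (T28.wt φ B) L x‖ ^ β ∂(nu4 0 L)) / L ^ gam4 β) atTop (𝓝 C) ∧
      ∀ ε : ℝ, 0 < ε → ∃ A : ℝ, 0 < A ∧ ∀ d h : ℝ, 0 < h → h ≤ 1 / A → A ≤ h * Real.log (1 / d) → 0 < d →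
      IntegrableOn (fun t => W4 d t * ‖zh φ h t‖ ^ β) (Set.Ioi 0) ∧
      |h ^ gam4 β * (Real.log (1 / d) ^ 4)⁻¹ * (d * ∫ t in Set.Ioi (0 : ℝ), W4 d t * ‖zh φ h t‖ ^ β) -
        1 / (4 * Real.pi ^ 2) * C * B ^ gam4 β| < ε := by
  have hw := T28.isWeight_wt hφ hφ1 hone hB hsupp
  obtain ⟨C, hClim, hCT⟩ := weighted_nu hβ hw
  obtain ⟨c, L1, hc, hL1, hlow⟩ := lower_bound_nu hβ (max 1 (B * ∫ u : ℝ, ‖(u : ℂ) * φ u‖))
  have hg := gam4_pos hβ
  obtain ⟨κ, hκ⟩ : ∃ κ, κ = gam4 β := ⟨_, rfl⟩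
  rw [← hκ] at hClim hCT hlow hg ⊢
  have hCpos : 0 < C := by
    refine lt_of_lt_of_le hc (ge_of_tendsto hClim ?_)
    filter_upwards [eventually_ge_atTop L1] with L hL
    have hL0 : 0 < L := by linarith
    rw [le_div_iff₀ (Real.rpow_pos_of_pos hL0 _)]
    exact hlow _ hw L hL
  refine ⟨C, hCpos, hClim, fun ε' hε' => ?_⟩
  obtain ⟨c0, hc0⟩ : ∃ c0 : ℝ, c0 = 1 / (4 * Real.pi ^ 2) := ⟨_, rfl⟩
  have hc0p : 0 < c0 := by rw [hc0]; positivity
  have hc01 : c0 ≤ 1 := by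
    rw [hc0, div_le_one (by positivity)]
    have := Real.pi_gt_three
    nlinarith
  rw [← hc0] at hCT ⊢
  have hBκ : 0 < B ^ κ := Real.rpow_pos_of_pos hB _
  obtain ⟨ε, hεdef⟩ : ∃ ε, ε = ε' / B ^ κ := ⟨_, rfl⟩
  have hε : 0 < ε := by rw [hεdef]; positivity
  obtain ⟨ε1, hε1⟩ : ∃ ε1, ε1 = min 1 (ε / 4) := ⟨_, rfl⟩
  have hε10 : 0 < ε1 := by rw [hε1]; exact lt_min one_pos (by linarith)
  have hε11 : ε1 ≤ 1 := by rw [hε1]; exact min_le_left _ _
  have hε14 : ε1 ≤ ε / 4 := by rw [hε1]; exact min_le_right _ _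
  obtain ⟨η, hη⟩ : ∃ η, η = ε / (4 * (C + 1)) := ⟨_, rfl⟩
  have hη0 : 0 < η := by rw [hη]; positivity
  obtain ⟨Cη, hCη, hdiff⟩ := pow_diff hβ hη0
  obtain ⟨θ, L0, hθ, hL0, hmain⟩ := hCT ε1 hε10
  obtain ⟨s, hs⟩ : ∃ s, s = min 1 β / 2 := ⟨_, rfl⟩
  have hs0 : 0 < s := by rw [hs]; exact div_pos (lt_min one_pos hβ) (by norm_num)
  obtain ⟨G, d1, hG0, hd1, hd14, hpole⟩ := F6_pole hβ hφ hφ1 hB hsupp
  have hs4 : min 1 β / 4 = s / 2 := by rw [hs]; ring
  have hsmall : Tendsto (fun T : ℝ => Cη * (16 * G * T ^ (-(s / 2)))) atTop (𝓝 0) := by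
    have h1 : Tendsto (fun T : ℝ => T ^ (-(s / 2))) atTop (𝓝 0) :=
      tendsto_rpow_neg_atTop (by positivity)
    have h2 := (h1.const_mul (16 * G)).const_mul Cη
    simpa using h2
  have hsm : ∀ᶠ T in atTop, Cη * (16 * G * T ^ (-(s / 2))) < ε1 := hsmall.eventually (gt_mem_nhds hε10)
  obtain ⟨T1, hT1ev⟩ := eventually_atTop.1 ((hsm.and (eventually_ge_atTop (1 : ℝ))).and
    (eventually_ge_atTop (1 / d1)))
  obtain ⟨A1, hA1⟩ : ∃ A1 : ℝ, A1 = max (max (L0 / B) 1) (max (max (B / θ) (β * B / s)) (max T1 1)) :=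
    ⟨_, rfl⟩
  have hA11 : 1 ≤ A1 := by rw [hA1]; exact (le_max_right _ _).trans (le_max_left _ _)
  have hA1L : L0 / B ≤ A1 := by rw [hA1]; exact (le_max_left _ _).trans (le_max_left _ _)
  have hA1θ : B / θ ≤ A1 := by
    rw [hA1]; exact ((le_max_left _ _).trans (le_max_left _ _)).trans (le_max_right _ _)
  have hA1s : β * B / s ≤ A1 := by
    rw [hA1]; exact ((le_max_right _ _).trans (le_max_left _ _)).trans (le_max_right _ _)
  have hA1T : max T1 1 ≤ A1 := by rw [hA1]; exact (le_max_right _ _).trans (le_max_right _ _)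
  refine ⟨A1, by linarith, fun d h hT hhA hTA hd => ?_⟩
  obtain ⟨T, hTdef⟩ : ∃ T, T = 1 / d := ⟨_, rfl⟩
  have hT0 : 0 < T := by rw [hTdef]; positivity
  have hdT : d = 1 / T := by rw [hTdef, one_div_one_div]
  rw [← hTdef] at hTA ⊢
  have hh1 : h ≤ 1 := hhA.trans (by rw [div_le_one (by linarith)]; exact hA11)
  have hinv : A1 ≤ 1 / h := by
    rw [le_div_iff₀ hT]
    rw [le_div_iff₀ (by linarith)] at hhA
    linarith
  obtain ⟨L, hL⟩ : ∃ L, L = B / h := ⟨_, rfl⟩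
  have hTL : L0 ≤ L := by
    have h1 : L0 / B ≤ 1 / h := hA1L.trans hinv
    rw [div_le_iff₀ hB] at h1
    calc L0 ≤ 1 / h * B := h1
      _ = L := by rw [hL]; ring
  have hTθ : B / θ ≤ h * Real.log T := hA1θ.trans hTA
  have hTs : β * B / s ≤ h * Real.log T := hA1s.trans hTA
  have hlogT : max T1 1 ≤ Real.log T := by
    have h1 : max T1 1 ≤ h * Real.log T := hA1T.trans hTA
    have h2 : 0 ≤ Real.log T := by
      by_contra hneg
      push Not at hneg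
      have : h * Real.log T < 0 := mul_neg_of_pos_of_neg hT hneg
      have : (1 : ℝ) ≤ max T1 1 := le_max_right _ _
      linarith
    nlinarith
  have hlT1 : 1 ≤ Real.log T := (le_max_right _ _).trans hlogT
  have hlTp : 0 < Real.log T := by linarith
  have hTT1 : T1 ≤ T := by
    have h1 := Real.log_le_sub_one_of_pos hT0
    have h2 := le_max_left T1 1
    linarith
  obtain ⟨⟨hTsm, hT1⟩, hTd1⟩ := hT1ev T hTT1
  have hdd1 : d ≤ d1 := by
    rw [hdT, div_le_iff₀ hT0]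
    rw [div_le_iff₀ hd1] at hTd1
    linarith
  have hL1' : 1 ≤ L := hL0.trans hTL
  have hLpos : 0 < L := by linarith
  have hLκ : 1 ≤ L ^ κ := Real.one_le_rpow hL1' hg.le
  have hLθ : L ≤ θ * Real.log T := by
    rw [hL, div_le_iff₀ hT]
    rw [div_le_iff₀ hθ] at hTθ
    linarith
  have hLs : β * (B / h) ≤ min 1 β / 2 * Real.log T := by
    rw [← hs]
    rw [div_le_iff₀ hs0] at hTs
    rw [← mul_div_assoc, div_le_iff₀ hT]
    linarith
  have hYc : Continuous (W4 d) := W4_cont d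
  have hY0 : ∀ t, 0 ≤ W4 d t := W4_nonneg d
  have hA := hmain L d hTL hd (by rw [← hTdef]; exact hLθ)
  rw [← hTdef] at hA
  obtain ⟨hPint, hP⟩ := hpole d h hT hd hdd1 (by rw [← hTdef]; exact hLs)
  rw [← hTdef, hs4] at hP
  have hSD : ∀ t, SS (T28.wt φ B) L (xt t) = T28.DD φ B L t := fun t => SS_xt _ _ _
  have hcS : Continuous fun x => ‖SS (T28.wt φ B) L x‖ ^ β :=
    ((continuous_norm.comp (continuous_DS _ _)).rpow_const fun _ => Or.inr hβ.le)
  have hAint : IntegrableOn (fun t => W4 d t * ‖T28.DD φ B L t‖ ^ β) (Set.Ioi 0) := by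
    have h1 := W4_int_xt hd hcS
    simp only [hSD] at h1
    exact h1
  obtain ⟨A, hAdef⟩ : ∃ A, A = d * ∫ t in Set.Ioi (0 : ℝ), W4 d t * ‖T28.DD φ B L t‖ ^ β := ⟨_, rfl⟩
  have hA' : |A - c0 * C * L ^ κ * Real.log T ^ 4| ≤ ε1 * L ^ κ * Real.log T ^ 4 := by
    rw [hAdef]
    simp only [← hSD]
    exact hA
  obtain ⟨P, hPdef⟩ : ∃ P, P = d * ∫ t in Set.Ioi (0 : ℝ), W4 d t * ‖T28.PP φ B h t‖ ^ β := ⟨_, rfl⟩
  have hdpow : d ^ (s / 2) = T ^ (-(s / 2)) := by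
    rw [hdT, one_div, Real.inv_rpow hT0.le, Real.rpow_neg hT0.le]
  have hP' : P ≤ G * (1 + Real.log T) ^ 4 * T ^ (-(s / 2)) := by
    rw [hPdef, ← hdpow]
    exact hP
  obtain ⟨Z, hZ⟩ : ∃ Z, Z = d * ∫ t in Set.Ioi (0 : ℝ), W4 d t * ‖zh φ h t‖ ^ β := ⟨_, rfl⟩
  have hzh : ∀ t, zh φ h t = T28.DD φ B L t + -(T28.PP φ B h t) := by
    intro t
    unfold zh
    rw [T28.zeta_avg hφ hφ1 hB hsupp hT t, hL]
  have hpt : ∀ t, |‖T28.DD φ B L t + -(T28.PP φ B h t)‖ ^ β - ‖T28.DD φ B L t‖ ^ β| ≤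
      η * ‖T28.DD φ B L t‖ ^ β + Cη * ‖T28.PP φ B h t‖ ^ β := by
    intro t
    have h2 := hdiff (T28.DD φ B L t) (-(T28.PP φ B h t))
    rw [norm_neg] at h2
    exact h2
  have cc : Continuous (fun t => W4 d t * ‖T28.DD φ B L t + -(T28.PP φ B h t)‖ ^ β) :=
    hYc.mul (((T28.continuous_DD φ B L).add (T28.continuous_PP hφ B h).neg).norm.rpow_const
      fun t => Or.inr hβ.le)
  have hbint : IntegrableOn (fun t => η * (W4 d t * ‖T28.DD φ B L t‖ ^ β) +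
      Cη * (W4 d t * ‖T28.PP φ B h t‖ ^ β)) (Set.Ioi 0) := (hAint.const_mul η).add (hPint.const_mul Cη)
  have hZint' : IntegrableOn (fun t => W4 d t * ‖T28.DD φ B L t + -(T28.PP φ B h t)‖ ^ β) (Set.Ioi 0) := by
    refine (hbint.add hAint).mono' cc.aestronglyMeasurable (Eventually.of_forall fun t => ?_)
    rw [Real.norm_eq_abs, abs_of_nonneg (mul_nonneg (hY0 t) (Real.rpow_nonneg (norm_nonneg _) _))]
    have h2 := (abs_le.1 (hpt t)).2
    have h3 := mul_le_mul_of_nonneg_left h2 (hY0 t)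
    simp only [Pi.add_apply]
    linarith
  have hZint : IntegrableOn (fun t => W4 d t * ‖zh φ h t‖ ^ β) (Set.Ioi 0) := by
    simp only [hzh]
    exact hZint'
  refine ⟨hZint, ?_⟩
  have hZA : |Z - A| ≤ η * A + Cη * P := by
    have e1 : Z = d * ∫ t in Set.Ioi (0 : ℝ), W4 d t * ‖T28.DD φ B L t + -(T28.PP φ B h t)‖ ^ β := by
      rw [hZ]
      simp only [hzh]
    have e2 : Z - A = d * ∫ t in Set.Ioi (0 : ℝ), (W4 d t * ‖T28.DD φ B L t + -(T28.PP φ B h t)‖ ^ β -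
        W4 d t * ‖T28.DD φ B L t‖ ^ β) := by
      rw [e1, hAdef, ← mul_sub, ← integral_sub hZint' hAint]
    rw [e2, abs_mul, abs_of_pos hd]
    have h1 : |∫ t in Set.Ioi (0 : ℝ), (W4 d t * ‖T28.DD φ B L t + -(T28.PP φ B h t)‖ ^ β -
        W4 d t * ‖T28.DD φ B L t‖ ^ β)| ≤
        ∫ t in Set.Ioi (0 : ℝ), (η * (W4 d t * ‖T28.DD φ B L t‖ ^ β) +
          Cη * (W4 d t * ‖T28.PP φ B h t‖ ^ β)) := by
      refine abs_integral_le_integral_abs.trans ?_
      refine integral_mono (hZint'.sub hAint).abs hbint fun t => ?_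
      beta_reduce
      rw [← mul_sub, abs_mul, abs_of_nonneg (hY0 t)]
      have := mul_le_mul_of_nonneg_left (hpt t) (hY0 t)
      linarith
    rw [integral_add (hAint.const_mul η) (hPint.const_mul Cη), integral_const_mul,
      integral_const_mul] at h1
    calc d * _ ≤ d * _ := mul_le_mul_of_nonneg_left h1 hd.le
      _ = η * A + Cη * P := by rw [hAdef, hPdef]; ring
  obtain ⟨D, hD⟩ : ∃ D, D = L ^ κ * Real.log T ^ 4 := ⟨_, rfl⟩
  have hl4 : 1 ≤ Real.log T ^ 4 := one_le_pow₀ hlT1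
  have hD1 : 1 ≤ D := by rw [hD]; nlinarith
  have hlD : Real.log T ^ 4 ≤ D := by rw [hD]; nlinarith
  have hA2 : |A - c0 * C * D| ≤ ε1 * D := by
    rw [hD, ← mul_assoc, ← mul_assoc]
    exact hA'
  have hAle : A ≤ (C + 1) * D := by
    have := (abs_le.mp hA2).2
    have h2 : ε1 * D ≤ 1 * D := mul_le_mul_of_nonneg_right hε11 (by linarith)
    have h3 : c0 * C * D ≤ 1 * C * D :=
      mul_le_mul_of_nonneg_right (mul_le_mul_of_nonneg_right hc01 hCpos.le) (by linarith)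
    linarith
  have hηA : η * A ≤ ε / 4 * D := by
    calc η * A ≤ η * ((C + 1) * D) := mul_le_mul_of_nonneg_left hAle hη0.le
      _ = ε / 4 * D := by
        rw [hη]
        have : C + 1 ≠ 0 := by linarith
        field_simp
  have hCP : Cη * P ≤ ε / 4 * D := by
    have h1 : G * (1 + Real.log T) ^ 4 * T ^ (-(s / 2)) ≤ 16 * G * T ^ (-(s / 2)) * Real.log T ^ 4 := by
      have h2 : G * (1 + Real.log T) ^ 4 ≤ G * (16 * Real.log T ^ 4) := by
        refine mul_le_mul_of_nonneg_left ?_ hG0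
        calc (1 + Real.log T) ^ 4 ≤ (2 * Real.log T) ^ 4 := pow_le_pow_left₀ (by linarith) (by linarith) 4
          _ = _ := by ring
      calc G * (1 + Real.log T) ^ 4 * T ^ (-(s / 2)) ≤ G * (16 * Real.log T ^ 4) * T ^ (-(s / 2)) :=
            mul_le_mul_of_nonneg_right h2 (by positivity)
        _ = _ := by ring
    calc Cη * P ≤ Cη * (16 * G * T ^ (-(s / 2)) * Real.log T ^ 4) :=
          mul_le_mul_of_nonneg_left (hP'.trans h1) hCη.le
      _ = (Cη * (16 * G * T ^ (-(s / 2)))) * Real.log T ^ 4 := by ring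
      _ ≤ ε1 * Real.log T ^ 4 := mul_le_mul_of_nonneg_right hTsm.le (by positivity)
      _ ≤ ε / 4 * Real.log T ^ 4 := mul_le_mul_of_nonneg_right hε14 (by positivity)
      _ ≤ ε / 4 * D := mul_le_mul_of_nonneg_left hlD (by linarith)
  have hA'' : |A - c0 * C * D| ≤ ε / 4 * D :=
    hA2.trans (mul_le_mul_of_nonneg_right hε14 (by linarith))
  have hfin : |Z - c0 * C * D| ≤ 3 * (ε / 4) * D := by
    have h1 : Z - c0 * C * D = (Z - A) + (A - c0 * C * D) := by ring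
    rw [h1]
    refine (abs_add_le _ _).trans ?_
    have h2 : 3 * (ε / 4) * D = ε / 4 * D + ε / 4 * D + ε / 4 * D := by ring
    rw [h2]
    linarith
  have hD0 : 0 < D := by linarith
  have hkey : |Z / D - c0 * C| < ε := by
    have h1 : Z / D - c0 * C = (Z - c0 * C * D) / D := by field_simp
    rw [h1, abs_div, abs_of_pos hD0, div_lt_iff₀ hD0]
    refine hfin.trans_lt ?_
    refine mul_lt_mul_of_pos_right ?_ hD0
    linarith
  have h2 : L ^ κ = B ^ κ / h ^ κ := by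
    rw [hL]
    exact Real.div_rpow hB.le hT.le _
  have h4 : 0 < h ^ κ := Real.rpow_pos_of_pos hT _
  have h5 : h ^ κ * (Real.log T ^ 4)⁻¹ * Z - c0 * C * B ^ κ = B ^ κ * (Z / D - c0 * C) := by
    rw [hD, h2]
    field_simp
  rw [← hZ, h5, abs_mul, abs_of_pos hBκ]
  calc B ^ κ * |Z / D - c0 * C| < B ^ κ * ε := mul_lt_mul_of_pos_left hkey hBκ
    _ = ε' := by rw [hεdef]; field_simp

end Pool.Agent.LibFG78
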