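import Mathlib
import Pool.Agent.LibFG78.F6b
import Pool.Agent.LibF4.K2
import Pool.Agent.LibF4.A2c

/-! Final assembly: Karamata's theorem and the final theorem -/

set_option autoImplicit false

namespace Pool.Agent.LibFG78

open MeasureTheory Filter Topology Pool.Agent.LibMM99 Pool.Agent.LibTG78
open scoped ComplexConjugate

/-- logarithms of nearby scales -/
lemma F6_logs (N : ℕ) {ρ : ℝ} (hρ : 0 < ρ) : ∃ A0 : ℝ, 1 ≤ A0 ∧ ∀ T : ℝ, 0 < T → A0 ≤ Real.log T →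
    ∀ j ∈ Finset.Icc 1 N, |Real.log (1 / (j / (2 * T))) ^ 4 - Real.log T ^ 4| ≤ ρ * Real.log T ^ 4 ∧
      Real.log T / 2 ≤ Real.log (1 / (j / (2 * T))) := by
  obtain ⟨c, hc⟩ : ∃ c : ℝ, c = 1 + Real.log (N + 1) := ⟨_, rfl⟩
  have hN1 : (1:ℝ) ≤ (N:ℝ) + 1 := by
    have : (0:ℝ) ≤ N := Nat.cast_nonneg N
    linarith
  have hlN : 0 ≤ Real.log (N + 1) := Real.log_nonneg hN1
  have hc1 : 1 ≤ c := by rw [hc]; linarith
  refine ⟨max (2 * c) (15 * c / ρ), (by linarith : (1:ℝ) ≤ 2 * c).trans (le_max_left _ _), ?_⟩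
  intro T hT hA j hj
  have hj1 : 1 ≤ j := (Finset.mem_Icc.1 hj).1
  have hjN : j ≤ N := (Finset.mem_Icc.1 hj).2
  have hj0 : (0:ℝ) < j := by exact_mod_cast hj1
  obtain ⟨D, hD⟩ : ∃ D, D = Real.log T := ⟨_, rfl⟩
  rw [← hD] at hA ⊢
  have hA1 : 2 * c ≤ D := (le_max_left _ _).trans hA
  have hA2 : 15 * c / ρ ≤ D := (le_max_right _ _).trans hA
  have hD0 : 0 < D := by linarith
  have e1 : Real.log (1 / (j / (2 * T))) = D + (Real.log 2 - Real.log j) := by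
    have : 1 / ((j:ℝ) / (2 * T)) = 2 * T / j := by field_simp
    rw [this, Real.log_div (by positivity) hj0.ne', Real.log_mul (by norm_num) hT.ne', hD]
    ring
  have hl2 : Real.log 2 ≤ 1 := by
    have := Real.log_two_lt_d9
    linarith
  have hl20 : 0 ≤ Real.log 2 := Real.log_nonneg (by norm_num)
  have hlj0 : 0 ≤ Real.log j := Real.log_nonneg (by exact_mod_cast hj1)
  have hlj : Real.log j ≤ Real.log (N + 1) := by
    apply Real.log_le_log hj0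
    have : (j:ℝ) ≤ N := by exact_mod_cast hjN
    linarith
  obtain ⟨x, hx⟩ : ∃ x, x = Real.log 2 - Real.log j := ⟨_, rfl⟩
  rw [e1, ← hx]
  have hx1 : |x| ≤ c := by
    rw [abs_le, hx, hc]
    constructor <;> linarith
  obtain ⟨hx2, hx3⟩ := abs_le.1 hx1
  constructor
  · have e2 : (D + x) ^ 4 - D ^ 4 = x * ((2 * D + x) * ((D + x) ^ 2 + D ^ 2)) := by ring
    rw [e2, abs_mul]
    have h1 : |(2 * D + x) * ((D + x) ^ 2 + D ^ 2)| ≤ 15 * D ^ 3 := by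
      have h2 : 0 ≤ 2 * D + x := by linarith
      have h3 : 2 * D + x ≤ 3 * D := by linarith
      have h4 : (D + x) ^ 2 ≤ (2 * D) ^ 2 := by
        apply sq_le_sq'
        · linarith
        · linarith
      rw [abs_of_nonneg (by positivity)]
      calc (2 * D + x) * ((D + x) ^ 2 + D ^ 2) ≤ (3 * D) * (5 * D ^ 2) := by
            apply mul_le_mul h3 (by nlinarith) (by positivity) (by positivity)
        _ = 15 * D ^ 3 := by ring
    have h5 : 15 * c ≤ ρ * D := by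
      rw [div_le_iff₀ hρ] at hA2
      linarith
    calc |x| * |(2 * D + x) * ((D + x) ^ 2 + D ^ 2)| ≤ c * (15 * D ^ 3) :=
          mul_le_mul hx1 h1 (abs_nonneg _) (by linarith)
      _ = (15 * c) * D ^ 3 := by ring
      _ ≤ (ρ * D) * D ^ 3 := mul_le_mul_of_nonneg_right h5 (by positivity)
      _ = ρ * D ^ 4 := by ring
  · linarith

lemma continuous_zh {φ : ℝ → ℂ} (hφ : Integrable φ) (hφ1 : Integrable fun u : ℝ => (u : ℂ) * φ u) {B : ℝ} (hB : 0 < B)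
    (hsupp : ∀ y : ℝ, B ≤ |y| → ∫ u : ℝ, φ u * Complex.exp (-((y * u : ℝ) : ℂ) * Complex.I) = 0)
    {h : ℝ} (hh : 0 < h) : Continuous (zh φ h) := by
  have h1 : zh φ h = fun t => T28.DD φ B (B / h) t + -(T28.PP φ B h t) := by
    funext t
    unfold zh
    rw [T28.zeta_avg hφ hφ1 hB hsupp hh t]
  rw [h1]
  exact (T28.continuous_DD φ B (B / h)).add (T28.continuous_PP hφ B h).neg

/-- the uniform asymptotic formula with the sharp cutoff -/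
theorem F6_sharp {β : ℝ} (hβ : 0 < β) {φ : ℝ → ℂ} (hφ : Integrable φ)
    (hφ1 : Integrable fun u : ℝ => (u : ℂ) * φ u) (hone : ∫ u : ℝ, φ u = 1) {B : ℝ} (hB : 0 < B)
    (hsupp : ∀ y : ℝ, B ≤ |y| → ∫ u : ℝ, φ u * Complex.exp (-((y * u : ℝ) : ℂ) * Complex.I) = 0) :
    ∃ C : ℝ, 0 < C ∧
      Tendsto (fun L : ℝ => (∫ x, ‖SS (T28.wt φ B) L x‖ ^ β ∂(nu4 0 L)) / L ^ gam4 β) atTop (𝓝 C) ∧
      ∀ ε : ℝ, 0 < ε → ∃ A : ℝ, 0 < A ∧ ∀ T h : ℝ, 0 < h → h ≤ 1 / A → A ≤ h * Real.log T → 0 < T →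
      |h ^ gam4 β * (Real.log T ^ 4)⁻¹ * ((1 / T) * ∫ t in (0 : ℝ)..T,
        ‖riemannZeta (1 / 2 + t * Complex.I)‖ ^ 4 * ‖zh φ h t‖ ^ β) -
        1 / (2 * Real.pi ^ 2) * C * B ^ gam4 β| < ε := by
  obtain ⟨C, hC, hlim, hmain⟩ := F6_unif hβ hφ hφ1 hone hB hsupp
  refine ⟨C, hC, hlim, fun ε' hε' => ?_⟩
  have hBκ : 0 < B ^ gam4 β := Real.rpow_pos_of_pos hB _
  obtain ⟨c, hcdef⟩ : ∃ c : ℝ, c = 1 / (4 * Real.pi ^ 2) * C * B ^ gam4 β := ⟨_, rfl⟩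
  have hc : 0 < c := by rw [hcdef]; positivity
  have hc2 : 1 / (2 * Real.pi ^ 2) * C * B ^ gam4 β = 2 * c := by
    rw [hcdef]
    have := Real.pi_ne_zero
    field_simp
    norm_num
  rw [hc2]
  rw [← hcdef] at hmain
  -- the constant of the error
  obtain ⟨κ0, hκ0⟩ : ∃ κ0 : ℝ, κ0 = 2 * c + 1 := ⟨_, rfl⟩
  have hκ0p : 0 < κ0 := by rw [hκ0]; positivity
  obtain ⟨ε, hε⟩ : ∃ ε, ε = ε' / (2 * κ0) := ⟨_, rfl⟩
  have hεp : 0 < ε := by rw [hε]; positivity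
  obtain ⟨N, η, hη, hkar⟩ := LibF4.karamata hεp
  -- accuracy of the exponential version
  obtain ⟨ε1, hε1⟩ : ∃ ε1 : ℝ, ε1 = min 1 (η / 8) := ⟨_, rfl⟩
  have hε1p : 0 < ε1 := by rw [hε1]; exact lt_min one_pos (by positivity)
  have hε11 : ε1 ≤ 1 := by rw [hε1]; exact min_le_left _ _
  have hε1η : ε1 ≤ η / 8 := by rw [hε1]; exact min_le_right _ _
  obtain ⟨A1, hA1, hm⟩ := hmain ε1 hε1p
  obtain ⟨A0, hA0, hlogs⟩ := F6_logs N hε1p
  obtain ⟨A, hAdef⟩ : ∃ A : ℝ, A = max (2 * A1) (max A0 1) := ⟨_, rfl⟩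
  have hAA1 : 2 * A1 ≤ A := by rw [hAdef]; exact le_max_left _ _
  have hAA0 : A0 ≤ A := by rw [hAdef]; exact (le_max_left _ _).trans (le_max_right _ _)
  have hA_1 : 1 ≤ A := by rw [hAdef]; exact (le_max_right _ _).trans (le_max_right _ _)
  refine ⟨A, by linarith, fun T h hh hhA hTA hT => ?_⟩
  have hh1 : h ≤ 1 := hhA.trans (by rw [div_le_one (by linarith)]; exact hA_1)
  have hhA1 : h ≤ 1 / A1 := by
    refine hhA.trans ?_
    apply one_div_le_one_div_of_le hA1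
    linarith
  obtain ⟨D, hD⟩ : ∃ D, D = Real.log T := ⟨_, rfl⟩
  have hDA : A ≤ D := by
    have h2 : 0 ≤ D := by
      by_contra hneg
      push Not at hneg
      have h3 : h * Real.log T < 0 := by rw [← hD]; exact mul_neg_of_pos_of_neg hh hneg
      linarith
    have h3 : h * D ≤ 1 * D := mul_le_mul_of_nonneg_right hh1 h2
    rw [← hD] at hTA
    linarith
  have hD1 : 1 ≤ D := hA_1.trans hDA
  have hD4 : 1 ≤ D ^ 4 := one_le_pow₀ hD1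
  have hDpos : 0 < D ^ 4 := by linarith
  obtain ⟨κ, hκ⟩ : ∃ κ, κ = gam4 β := ⟨_, rfl⟩
  rw [← hκ] at hm ⊢
  have hhκ : 0 < h ^ κ := Real.rpow_pos_of_pos hh _
  obtain ⟨G, hG⟩ : ∃ G : ℝ → ℝ, G = fun t : ℝ => h ^ κ * (‖riemannZeta (1 / 2 + t * Complex.I)‖ ^ 4 *
    ‖zh φ h t‖ ^ β) := ⟨_, rfl⟩
  have hGc : Continuous G := by
    rw [hG]
    exact continuous_const.mul ((D5_zeta_cont.norm.pow 4).mul
      ((continuous_zh hφ hφ1 hB hsupp hh).norm.rpow_const fun t => Or.inr hβ.le))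
  have hG0 : ∀ t, 0 ≤ G t := by
    intro t
    rw [hG]
    positivity
  have hexp : ∀ j : ℕ, 1 ≤ j → (fun t => G t * Real.exp (-((j:ℝ) * t / T))) =
      fun t => h ^ κ * (W4 (j / (2 * T)) t * ‖zh φ h t‖ ^ β) := by
    intro j _
    funext t
    rw [hG]
    unfold W4
    have e1 : 2 * ((j:ℝ) / (2 * T)) * t = (j:ℝ) * t / T := by field_simp
    rw [e1]
    ring
  have hj : ∀ j ∈ Finset.Icc 1 N, IntegrableOn (fun t => G t * Real.exp (-((j:ℝ) * t / T))) (Set.Ioi 0) ∧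
      |(1 / T) * (∫ t in Set.Ioi (0:ℝ), G t * Real.exp (-((j:ℝ) * t / T))) - 2 * c * D ^ 4 / j| ≤
        η * (κ0 * D ^ 4) := by
    intro j hj
    have hj1 : 1 ≤ j := (Finset.mem_Icc.1 hj).1
    have hj0 : (0:ℝ) < j := by exact_mod_cast hj1
    have hj1' : (1:ℝ) ≤ j := by exact_mod_cast hj1
    obtain ⟨hl1, hl2⟩ := hlogs T hT (by rw [← hD]; linarith) j hj
    rw [← hD] at hl1 hl2
    obtain ⟨d, hd⟩ : ∃ d : ℝ, d = j / (2 * T) := ⟨_, rfl⟩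
    have hd0 : 0 < d := by rw [hd]; positivity
    rw [← hd] at hl1 hl2
    obtain ⟨D', hD'⟩ : ∃ D', D' = Real.log (1 / d) := ⟨_, rfl⟩
    rw [← hD'] at hl1 hl2
    have hD'0 : 0 < D' := by linarith
    obtain ⟨hi, hb⟩ := hm d h hh hhA1 (by
      rw [← hD']
      have h1 : h * (D / 2) ≤ h * D' := mul_le_mul_of_nonneg_left hl2 hh.le
      rw [← hD] at hTA
      linarith) hd0
    rw [← hD'] at hb
    rw [hexp j hj1, ← hd]
    refine ⟨hi.const_mul _, ?_⟩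
    rw [integral_const_mul]
    obtain ⟨X, hX⟩ : ∃ X, X = d * ∫ t in Set.Ioi (0 : ℝ), W4 d t * ‖zh φ h t‖ ^ β := ⟨_, rfl⟩
    rw [← hX] at hb
    have e1 : (1 / T) * (h ^ κ * ∫ t in Set.Ioi (0 : ℝ), W4 d t * ‖zh φ h t‖ ^ β) =
        (2 / j) * (h ^ κ * X) := by
      rw [hX, hd]
      field_simp
    rw [e1]
    have hD'4 : 0 < D' ^ 4 := by positivity
    have h1 : |h ^ κ * X - c * D' ^ 4| ≤ ε1 * D' ^ 4 := by
      have h2 : h ^ κ * X - c * D' ^ 4 = (h ^ κ * (D' ^ 4)⁻¹ * X - c) * D' ^ 4 := by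
        field_simp
      rw [h2, abs_mul, abs_of_pos hD'4]
      exact mul_le_mul_of_nonneg_right hb.le hD'4.le
    have h3 : D' ^ 4 ≤ 2 * D ^ 4 := by
      have := (abs_le.1 hl1).2
      have h4 : ε1 * D ^ 4 ≤ 1 * D ^ 4 := mul_le_mul_of_nonneg_right hε11 hDpos.le
      linarith
    have h4 : |c * D' ^ 4 - c * D ^ 4| ≤ c * (ε1 * D ^ 4) := by
      rw [← mul_sub, abs_mul, abs_of_pos hc]
      exact mul_le_mul_of_nonneg_left hl1 hc.le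
    have h5 : |h ^ κ * X - c * D ^ 4| ≤ ε1 * (2 * D ^ 4) + c * (ε1 * D ^ 4) := by
      have h6 := abs_sub_le (h ^ κ * X) (c * D' ^ 4) (c * D ^ 4)
      have h7 : ε1 * D' ^ 4 ≤ ε1 * (2 * D ^ 4) := mul_le_mul_of_nonneg_left h3 hε1p.le
      linarith
    have e2 : 2 / (j:ℝ) * (h ^ κ * X) - 2 * c * D ^ 4 / j = (2 / j) * (h ^ κ * X - c * D ^ 4) := by ring
    rw [e2, abs_mul, abs_of_pos (by positivity : 0 < 2 / (j:ℝ))]
    have h8 : 2 / (j:ℝ) ≤ 2 := by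
      rw [div_le_iff₀ hj0]
      linarith
    calc 2 / (j:ℝ) * |h ^ κ * X - c * D ^ 4| ≤ 2 * (ε1 * (2 * D ^ 4) + c * (ε1 * D ^ 4)) :=
          mul_le_mul h8 h5 (abs_nonneg _) (by norm_num)
      _ = ε1 * (2 * (2 + c)) * D ^ 4 := by ring
      _ ≤ (η / 8) * (2 * (2 + c)) * D ^ 4 := by
          refine mul_le_mul_of_nonneg_right (mul_le_mul_of_nonneg_right hε1η (by positivity)) hDpos.le
      _ ≤ η * (κ0 * D ^ 4) := by
          rw [hκ0]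
          have h9 : (η / 8) * (2 * (2 + c)) ≤ η * (2 * c + 1) := by nlinarith
          calc _ ≤ (η * (2 * c + 1)) * D ^ 4 := mul_le_mul_of_nonneg_right h9 hDpos.le
            _ = _ := by ring
  have hfin := hkar G T (2 * c * D ^ 4) (κ0 * D ^ 4) hT (by positivity) (by
    rw [hκ0]
    nlinarith) hGc hG0 (fun j hj' => (hj j hj').1) (fun j hj' => (hj j hj').2)
  have e1 : (∫ t in (0:ℝ)..T, G t) = h ^ κ * ∫ t in (0 : ℝ)..T,
        ‖riemannZeta (1 / 2 + t * Complex.I)‖ ^ 4 * ‖zh φ h t‖ ^ β := by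
    rw [hG, intervalIntegral.integral_const_mul]
  rw [e1] at hfin
  obtain ⟨Y, hY⟩ : ∃ Y, Y = ∫ t in (0 : ℝ)..T,
        ‖riemannZeta (1 / 2 + t * Complex.I)‖ ^ 4 * ‖zh φ h t‖ ^ β := ⟨_, rfl⟩
  rw [← hY] at hfin ⊢
  rw [← hD]
  have e2 : h ^ κ * (D ^ 4)⁻¹ * (1 / T * Y) - 2 * c = (1 / T * (h ^ κ * Y) - 2 * c * D ^ 4) / D ^ 4 := by
    field_simp
  rw [e2, abs_div, abs_of_pos hDpos, div_lt_iff₀ hDpos]
  refine hfin.trans_lt ?_
  have e3 : ε * (κ0 * D ^ 4) = (ε' / 2) * D ^ 4 := by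
    rw [hε]
    field_simp
  rw [e3]
  refine mul_lt_mul_of_pos_right ?_ hDpos
  linarith

/-- the final theorem of the library -/
theorem four_factors {β : ℝ} (hβ : 0 < β) {φ : ℝ → ℂ} (hφ : Integrable φ)
    (hφ1 : Integrable fun u : ℝ => (u : ℂ) * φ u) (hone : ∫ u : ℝ, φ u = 1) {B : ℝ} (hB : 0 < B)
    (hsupp : ∀ y : ℝ, B ≤ |y| → ∫ u : ℝ, φ u * Complex.exp (-((y * u : ℝ) : ℂ) * Complex.I) = 0) :
    ∃ (G : ℝ) (g : ℝ → ℝ), 0 < G ∧
      (∀ δ : ℝ, 0 < δ → δ < 1 → Tendsto (fun M : ℕ => gaussT4 β (T28.wt φ B) δ M) atTop (𝓝 (g δ))) ∧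
      Tendsto (fun δ : ℝ => Real.exp (Real.eulerMascheroniConstant * gam4 β) * (B * δ) ^ gam4 β * g δ)
        (𝓝[>] 0) (𝓝 G) ∧
      ∀ ε : ℝ, 0 < ε → ∃ A : ℝ, 0 < A ∧ ∀ T h : ℝ, 0 < h → h ≤ 1 / A → A ≤ h * Real.log T → 0 < T →
      |h ^ gam4 β * (Real.log T ^ 4)⁻¹ * ((1 / T) * ∫ t in (0 : ℝ)..T, ‖riemannZeta (1 / 2 + t * Complex.I)‖ ^ 4 *
        ‖∫ u : ℝ, riemannZeta (1 / 2 + ((t + h * u : ℝ) : ℂ) * Complex.I) * φ u‖ ^ β) -
        1 / 12 * LibZM.Aconst ((β + 4) / 2) * G| < ε := by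
  obtain ⟨C, hC, hlim, hmain⟩ := F6_sharp hβ hφ hφ1 hone hB hsupp
  have hw := T28.isWeight_wt hφ hφ1 hone hB hsupp
  have htop : ∀ δ : ℝ, ∃ l : ℝ, 0 < δ → δ < 1 →
      Tendsto (fun L : ℝ => ∫ x, ‖Atop (T28.wt φ B) δ L x‖ ^ β ∂(nu4 0 L)) atTop (𝓝 l) ∧
      Tendsto (fun M : ℕ => gaussT4 β (T28.wt φ B) δ M) atTop (𝓝 l) := by
    intro δ
    by_cases h : 0 < δ ∧ δ < 1
    · obtain ⟨l, h1, h2⟩ := top_limit_nu hβ h.1 h.2 hw
      exact ⟨l, fun _ _ => ⟨h1, h2⟩⟩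
    · exact ⟨0, fun h1 h2 => absurd ⟨h1, h2⟩ h⟩
  choose g hgl using htop
  have ha : 0 < LibZM.Aconst ((β + 4) / 2) := LibZM.Aconst_pos (by positivity)
  have ha2 : 0 < LibZM.Aconst 2 := LibZM.Aconst_pos (by norm_num)
  have hf := limit_formula_nu hβ hw hlim (l := g) (fun δ h1 h2 => (hgl δ h1 h2).1)
  have hBκ : 0 < B ^ gam4 β := Real.rpow_pos_of_pos hB _
  refine ⟨C * B ^ gam4 β * LibZM.Aconst 2 / LibZM.Aconst ((β + 4) / 2), g, by positivity,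
    fun δ h1 h2 => (hgl δ h1 h2).2, ?_, ?_⟩
  · have h1 := ((hf.mul_const (B ^ gam4 β)).mul_const (LibZM.Aconst 2)).div_const (LibZM.Aconst ((β + 4) / 2))
    refine h1.congr' ?_
    filter_upwards [self_mem_nhdsWithin] with δ hδ
    have hδ0 : (0 : ℝ) < δ := hδ
    rw [Real.mul_rpow hB.le hδ0.le]
    field_simp
  · intro ε hε
    obtain ⟨A, hA, h⟩ := hmain ε hε
    refine ⟨A, hA, fun T h' h1 h2 h3 h4 => ?_⟩
    have h5 := h T h' h1 h2 h3 h4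
    have h6 : 1 / 12 * LibZM.Aconst ((β + 4) / 2) * (C * B ^ gam4 β * LibZM.Aconst 2 / LibZM.Aconst ((β + 4) / 2)) =
        1 / (2 * Real.pi ^ 2) * C * B ^ gam4 β := by
      rw [LibF4.Aconst_two]
      have := Real.pi_ne_zero
      field_simp
      norm_num
    rw [h6]
    exact h5

end Pool.Agent.LibFG78
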